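import Pool.Agent.U656.NC.Lac

/-! Systems whose rare values are dominated by the smaller values. -/

set_option autoImplicit false

namespace Pool.Agent.U656.NC

open Pool.Agent.TH207.NC

/-- the number of the indices with the value `v` -/
noncomputable def cnt {κ : Type} [Fintype κ] (L : κ → ℝ) (v : ℝ) : ℕ :=
  (Finset.univ.filter fun i => L i = v).card

/-- The nonzero values of `L` in `R` are the rare ones; they have scales `s w ≥ w` which grow by
factors of at least two, and `144 (s w) ^ 2` is at most the sum of the squares of the values which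
are at most `w / 2`. The other nonzero values are attained at least `144` times, and if such a value
`v` exceeds half of a rare value `w`, then the sum of the squares of the values equal to `v` is at
least `96 (s w) ^ 2`. -/
structure Tame {κ : Type} [Fintype κ] (L : κ → ℝ) (R : Set ℝ) (s : ℝ → ℝ) : Prop where
  ge : ∀ j, L j ≠ 0 → L j ∈ R → L j ≤ s (L j)
  two : ∀ i j, L i ≠ 0 → L i ∈ R → L j ∈ R → L i < L j → 2 * s (L i) ≤ s (L j)
  area : ∀ j, L j ≠ 0 → L j ∈ R →
    144 * s (L j) ^ 2 ≤ ∑ i ∈ Finset.univ.filter (fun i => 2 * L i ≤ L j), L i ^ 2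
  freq : ∀ j, L j ≠ 0 → L j ∉ R → 144 ≤ cnt L (L j)
  far : ∀ i j, L i ≠ 0 → L i ∈ R → L j ∉ R → L i < 2 * L j →
    96 * s (L i) ^ 2 ≤ cnt L (L j) * L j ^ 2

theorem cnt_eq_sum {κ : Type} [Fintype κ] (L : κ → ℝ) (v : ℝ) :
    (cnt L v : ℝ) = ∑ i, if L i = v then (1 : ℝ) else 0 := by
  unfold cnt
  rw [Finset.sum_boole]

theorem area_eq_sum {κ : Type} [Fintype κ] (L : κ → ℝ) (w : ℝ) :
    ∑ i ∈ Finset.univ.filter (fun i => 2 * L i ≤ w), L i ^ 2 =
      ∑ i, if 2 * L i ≤ w then L i ^ 2 else 0 := by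
  rw [Finset.sum_filter]

/-- forgetting zeros -/
theorem Tame.comap {ι κ : Type} [Fintype ι] [Fintype κ] {L : κ → ℝ} {L' : ι → ℝ} {R : Set ℝ}
    {s : ℝ → ℝ} (e : ι → κ) (he : Function.Injective e) (hL : ∀ i, L' i = L (e i))
    (h0 : ∀ k, k ∉ Set.range e → L k = 0) (h : Tame L R s) : Tame L' R s := by
  have hsum : ∀ g : ℝ → ℝ, g 0 = 0 → ∑ i, g (L' i) = ∑ k, g (L k) := fun g hg =>
    Fintype.sum_of_injective e he _ _ (fun k hk => by rw [h0 k hk, hg]) fun i => by rw [hL]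
  have hcnt : ∀ v, v ≠ 0 → cnt L' v = cnt L v := by
    intro v hv
    have h1 : (cnt L' v : ℝ) = cnt L v := by
      rw [cnt_eq_sum, cnt_eq_sum]
      exact hsum (fun t => if t = v then 1 else 0) (by simp [hv.symm])
    exact_mod_cast h1
  refine ⟨fun j h1 h2 => ?_, fun i j h1 h2 h3 h4 => ?_, fun j h1 h2 => ?_, fun j h1 h2 => ?_,
    fun i j h1 h2 h3 h4 => ?_⟩
  · rw [hL] at h1 h2 ⊢
    exact h.ge _ h1 h2
  · rw [hL i] at h1 h2 h4 ⊢
    rw [hL j] at h3 h4 ⊢
    exact h.two _ _ h1 h2 h3 h4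
  · have h5 := h.area (e j) (by rwa [hL] at h1) (by rwa [hL] at h2)
    rw [area_eq_sum] at h5 ⊢
    rw [hL j, hsum (fun t => if 2 * t ≤ L (e j) then t ^ 2 else 0) (by simp)]
    exact h5
  · rw [hcnt _ h1, hL j]
    exact h.freq _ (by rwa [hL] at h1) (by rwa [hL] at h2)
  · have h5 := h.far (e i) (e j) (by rwa [hL] at h1) (by rwa [hL] at h2) (by rwa [hL] at h3)
      (by rwa [hL, hL] at h4)
    rw [hL i]
    by_cases h6 : L' j = 0
    · rw [← hL j, h6] at h5
      rw [h6]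
      simpa using h5
    · rw [hcnt _ h6, hL j]
      exact h5

/-- homogeneity -/
theorem Tame.smul {κ : Type} [Fintype κ] {L : κ → ℝ} {R : Set ℝ} {s : ℝ → ℝ} (h : Tame L R s)
    {c : ℝ} (hc : 0 < c) :
    Tame (fun i => c * L i) {w | w / c ∈ R} (fun w => c * s (w / c)) := by
  have hd : ∀ t : ℝ, c * t / c = t := fun t => by field_simp
  have hc2 : 0 < c ^ 2 := by positivity
  have hcnt : ∀ v, cnt (fun i => c * L i) (c * v) = cnt L v := by
    intro v
    unfold cnt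
    congr 1
    ext i
    rw [Finset.mem_filter, Finset.mem_filter, mul_right_inj' hc.ne']
  refine ⟨fun j h1 h2 => ?_, fun i j h1 h2 h3 h4 => ?_, fun j h1 h2 => ?_, fun j h1 h2 => ?_,
    fun i j h1 h2 h3 h4 => ?_⟩
  · simp only [Set.mem_setOf_eq, hd] at h2 ⊢
    exact mul_le_mul_of_nonneg_left (h.ge j (right_ne_zero_of_mul h1) h2) hc.le
  · simp only [Set.mem_setOf_eq, hd] at h2 h3 ⊢
    have h5 := h.two i j (right_ne_zero_of_mul h1) h2 h3 (lt_of_mul_lt_mul_left h4 hc.le)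
    have := mul_le_mul_of_nonneg_left h5 hc.le
    linarith
  · simp only [Set.mem_setOf_eq, hd] at h2 ⊢
    have h5 := h.area j (right_ne_zero_of_mul h1) h2
    have e1 : (Finset.univ.filter fun i => 2 * (c * L i) ≤ c * L j) =
        Finset.univ.filter fun i => 2 * L i ≤ L j := by
      ext i
      rw [Finset.mem_filter, Finset.mem_filter, show 2 * (c * L i) = c * (2 * L i) by ring,
        mul_le_mul_iff_right₀ hc]
    rw [e1, Finset.sum_congr rfl fun i _ => mul_pow c (L i) 2, ← Finset.mul_sum, mul_pow]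
    have := mul_le_mul_of_nonneg_left h5 hc2.le
    linarith
  · simp only [Set.mem_setOf_eq, hd] at h2
    rw [hcnt]
    exact h.freq j (right_ne_zero_of_mul h1) h2
  · simp only [Set.mem_setOf_eq, hd] at h2 h3 ⊢
    rw [hcnt]
    have h5 := h.far i j (right_ne_zero_of_mul h1) h2 h3 (by
      have : c * L i < c * (2 * L j) := by linarith
      exact lt_of_mul_lt_mul_left this hc.le)
    have := mul_le_mul_of_nonneg_left h5 hc2.le
    rw [mul_pow, mul_pow]
    linarith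

theorem sum_cnt {ι : Type} [Fintype ι] (L : ι → ℝ) (g : ℝ → ℝ) :
    ∑ i, g (L i) = ∑ w ∈ Finset.univ.image L, (cnt L w : ℝ) * g w := by
  classical
  rw [← Finset.sum_fiberwise_of_maps_to (g := L) (t := Finset.univ.image L)
    (fun i _ => Finset.mem_image_of_mem L (Finset.mem_univ i))]
  refine Finset.sum_congr rfl fun w _ => ?_
  rw [Finset.sum_congr rfl fun i hi => by rw [(Finset.mem_filter.1 hi).2], Finset.sum_const,
    nsmul_eq_mul]
  rfl

theorem sqs_fun {ι : Type} [Fintype ι] (L : ι → ℝ) :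
    (sqs (cnt L) (Finset.univ.image L) : Multiset ℝ) = Finset.univ.val.map L := by
  classical
  rw [sqs_coe]
  ext v
  rw [Multiset.count_sum']
  simp only [Multiset.count_replicate]
  rw [Finset.sum_ite_eq', Multiset.count_map]
  have h1 : (Multiset.filter (fun a : ι => v = L a) Finset.univ.val).card =
      (Finset.univ.filter fun a : ι => v = L a).card := rfl
  rw [h1]
  split_ifs with hv
  · unfold cnt
    congr 1
    ext i
    rw [Finset.mem_filter, Finset.mem_filter]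
    exact ⟨fun h => ⟨h.1, h.2.symm⟩, fun h => ⟨h.1, h.2.symm⟩⟩
  · symm
    rw [Finset.card_eq_zero, Finset.filter_eq_empty_iff]
    intro a _ ha
    apply hv
    rw [Finset.mem_image]
    exact ⟨a, Finset.mem_univ a, ha.symm⟩

/-- tame systems of total area between `a ^ 2` and `9 a ^ 2` fill the triangles of height `a` -/
theorem Tame.fill {ι : Type} [Fintype ι] {L : ι → ℝ} (hL : ∀ i, 0 < L i) {R : Set ℝ} {s : ℝ → ℝ}
    (h : Tame L R s) {a : ℝ} (ha : 0 < a) (h1 : a ^ 2 ≤ ∑ i, L i ^ 2)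
    (h9 : ∑ i, L i ^ 2 ≤ 9 * a ^ 2) (μ : ℝ) : TF ((∑ i, L i ^ 2) / a ^ 2) μ L a := by
  classical
  obtain ⟨S, hS⟩ : ∃ S, S = Finset.univ.image L := ⟨_, rfl⟩
  obtain ⟨σ, hσ⟩ : ∃ σ, σ = ∑ i, L i ^ 2 := ⟨_, rfl⟩
  have ha2 : 0 < a ^ 2 := by positivity
  have hS' : ∀ w ∈ S, ∃ j, L j = w := fun w hw => by
    rw [hS, Finset.mem_image] at hw
    obtain ⟨j, _, hj⟩ := hw
    exact ⟨j, hj⟩
  have harea : ∀ w, ∑ i ∈ Finset.univ.filter (fun i => 2 * L i ≤ w), L i ^ 2 =
      ∑ v ∈ S.filter (fun v => 2 * v ≤ w), (cnt L v : ℝ) * v ^ 2 := by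
    intro w
    rw [area_eq_sum, sum_cnt L fun t => if 2 * t ≤ w then t ^ 2 else 0, Finset.sum_filter, hS]
    refine Finset.sum_congr rfl fun v _ => ?_
    split_ifs <;> simp
  have har : ar (sqs (cnt L) S) = σ := by
    rw [ar_sqs, hσ, sum_cnt L fun t => t ^ 2, hS]
  have hle : ∀ w, ∑ i ∈ Finset.univ.filter (fun i => 2 * L i ≤ w), L i ^ 2 ≤ σ := fun w => by
    rw [hσ]
    exact Finset.sum_le_sum_of_subset_of_nonneg (Finset.filter_subset _ _) fun i _ _ => sq_nonneg _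
  have hLac : Lac (cnt L) (S.filter fun w => w ∈ R) s S := by
    refine ⟨fun w hw => ?_, fun w hw => ?_, fun w hR hw => ?_, fun w hR w' hR' hw hw' => ?_,
      fun w hR hw => ?_, fun v hv hR => ?_, fun v hv hR w hR' hw => ?_⟩
    · obtain ⟨j, rfl⟩ := hS' w hw
      exact hL j
    · obtain ⟨j, rfl⟩ := hS' w hw
      exact Finset.card_pos.2 ⟨j, by rw [Finset.mem_filter]; exact ⟨Finset.mem_univ j, rfl⟩⟩
    · obtain ⟨j, rfl⟩ := hS' w hw
      exact h.ge j (hL j).ne' (Finset.mem_filter.1 hR).2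
    · obtain ⟨i, rfl⟩ := hS' w hw
      obtain ⟨j, rfl⟩ := hS' w' hw'
      exact h.two i j (hL i).ne' (Finset.mem_filter.1 hR).2 (Finset.mem_filter.1 hR').2
    · obtain ⟨j, rfl⟩ := hS' w hw
      rw [← harea]
      have h2 := h.area j (hL j).ne' (Finset.mem_filter.1 hR).2
      have h3 : 0 ≤ s (L j) ^ 2 := sq_nonneg _
      linarith
    · obtain ⟨j, rfl⟩ := hS' v hv
      exact le_trans (by norm_num)
        (h.freq j (hL j).ne' fun hj => hR (Finset.mem_filter.2 ⟨hv, hj⟩))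
    · obtain ⟨j, rfl⟩ := hS' v hv
      obtain ⟨i, rfl⟩ := hS' w hw
      exact h.far i j (hL i).ne' (Finset.mem_filter.1 hR').2
        fun hj => hR (Finset.mem_filter.2 ⟨hv, hj⟩)
  have hne : S.Nonempty := by
    by_contra hcon
    rw [Finset.not_nonempty_iff_eq_empty] at hcon
    rw [hcon, sqs_empty, ar_nil] at har
    rw [← hσ, ← har] at h1
    linarith
  obtain ⟨m, hz, hm⟩ := hLac.univ hne
  have hm0 := hm.pos
  have hmσ : 36 * m ^ 2 ≤ σ := by
    rcases hz with ⟨z, hz, hzR, hmz⟩ | ⟨z, hz, hzR, hmz⟩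
    · obtain ⟨j, rfl⟩ := hS' z hz
      have h5 : m ^ 2 ≤ (2 * L j) ^ 2 := pow_le_pow_left₀ hm0.le hmz 2
      have h6 : (144 : ℝ) ≤ cnt L (L j) := by
        exact_mod_cast h.freq j (hL j).ne' fun hj => hzR (Finset.mem_filter.2 ⟨hz, hj⟩)
      have h7 : (cnt L (L j) : ℝ) * L j ^ 2 ≤ σ := by
        rw [← har, ar_sqs]
        exact Finset.single_le_sum (f := fun v : ℝ => (cnt L v : ℝ) * v ^ 2)
          (fun v _ => by positivity) hz
      have h8 : 144 * L j ^ 2 ≤ (cnt L (L j) : ℝ) * L j ^ 2 :=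
        mul_le_mul_of_nonneg_right h6 (sq_nonneg _)
      linarith [mul_pow 2 (L j) 2]
    · obtain ⟨j, rfl⟩ := hS' z hz
      have h5 : m ^ 2 ≤ (2 * s (L j)) ^ 2 := pow_le_pow_left₀ hm0.le hmz 2
      have h6 := h.area j (hL j).ne' (Finset.mem_filter.1 hzR).2
      have h7 := hle (L j)
      linarith [mul_pow 2 (s (L j)) 2]
  have hfill : ∀ t, 2 * m ≤ t → 3 * t ^ 2 ≤ 2 * σ → ∀ μ, TF (σ / t ^ 2) μ L t := by
    intro t h2 h3 μ
    have h4 := (hm.al t h2 (by rw [har]; exact h3)).fill μ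
    rw [har] at h4
    refine TF_list ?_ h4
    rw [hS]
    exact sqs_fun L
  rw [← hσ] at h1 h9 ⊢
  rcases le_or_gt (3 * a ^ 2) (2 * σ) with h32 | h32
  · refine hfill a ?_ h32 μ
    have h4 : (2 * m) ^ 2 ≤ a ^ 2 := by nlinarith
    exact (pow_le_pow_iff_left₀ (by positivity) ha.le (by norm_num)).1 h4
  · refine half ha h1 (hfill (a / 2) ?_ (by nlinarith) 2) μ
    have h4 : (2 * m) ^ 2 ≤ (a / 2) ^ 2 := by nlinarith
    exact (pow_le_pow_iff_left₀ (by positivity) (by positivity) (by norm_num)).1 h4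

end Pool.Agent.U656.NC
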