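import Pool.Agent.U656.NC.Slice
import Pool.Agent.U656.NC.Tame

/-! Nef classes with at most eight points whose coefficients take one value besides a third of the
degree, and whose rare coefficients at the other points are dominated by smaller ones. -/

set_option autoImplicit false

namespace Pool.Agent.U656.NC

open Pool.Agent.TH167 Pool.Agent.R355.ConeAct Pool.Agent.TH207.NC Finset
open Pool.Agent.TH176.Nag Pool.Agent.H350R3 Pool.Agent.H350R3.GR

/-- the plane: squares with a third of the side, squares with ANY side up to a third of the side,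
of total base at most `9 a`, and a system filling the triangles of height `a` -/
theorem plane9 {κ κ' ι : Type} [Fintype κ] [Fintype κ'] [Fintype ι] {a x : ℝ}
    (ha : 0 < a) (hx : 0 < x) (hxa : x ≤ a)
    (h8 : Fintype.card κ * a + Fintype.card κ' * x ≤ 9 * a)
    {L : ι → ℝ} {σ : ℝ} (hσ : 0 < σ) (hd : ∀ μ, TF (σ / a ^ 2) μ L a)
    (hsum : Fintype.card κ * a ^ 2 + (Fintype.card κ' * x ^ 2 + σ) = 9 * a ^ 2) :
    ∃ μ, TF 9 μ (Sum.elim (fun _ : κ => a) (Sum.elim (fun _ : κ' => x) L)) a := by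
  obtain ⟨j, hj⟩ : ∃ j : ℝ, j = Fintype.card κ := ⟨_, rfl⟩
  obtain ⟨k, hk⟩ : ∃ k : ℝ, k = Fintype.card κ' := ⟨_, rfl⟩
  have hj0 : 0 ≤ j := by rw [hj]; positivity
  have hk0 : 0 ≤ k := by rw [hk]; positivity
  rw [← hj, ← hk] at hsum h8
  have ha2 : 0 < a ^ 2 := by positivity
  have hkx0 : 0 ≤ k * x ^ 2 := by positivity
  have hj8 : j < 9 := by
    have : j * a ^ 2 < 9 * a ^ 2 := by linarith
    exact lt_of_mul_lt_mul_right this ha2.le
  obtain ⟨y, hy⟩ : ∃ y, y = x / a := ⟨_, rfl⟩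
  have hy0 : 0 < y := by rw [hy]; positivity
  have hy1 : y ≤ 1 := by
    rw [hy, div_le_one ha]
    exact hxa
  have hay : a * y = x := by
    rw [hy]
    field_simp
  have hky : k * y ≤ 9 - j := by
    have h2 : a * (k * y) = k * x := by
      rw [← hay]
      ring
    have h3 : a * (k * y) ≤ a * (9 - j) := by
      rw [h2]
      linarith
    exact le_of_mul_le_mul_left h3 ha
  -- the group of the squares with side `x`
  have h1 : TF (9 - j) (k * y) (Sum.elim (fun _ : κ' => x) L) a := by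
    refine group (t := k) (x := y) (by linarith) hk0 ha hy0 hy1 rfl hky ?_ ?_
    · rw [hay, hk]
      exact row hx _
    · have e : 9 - j - k * y ^ 2 = σ / a ^ 2 := by
        rw [hy, eq_div_iff ha2.ne']
        field_simp
        linarith
      rw [e]
      exact hd _
  -- the row of the squares with side `a`
  refine ⟨k * y + j, ?_⟩
  have h2 := TF.add (s := 9 - j) (t := j) (μ := k * y) (by linarith) ha
    (L' := fun _ : κ => a) (by rw [hj]; exact row ha _) h1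
  rwa [sub_add_cancel] at h2

theorem curve_tame {n : ℕ} {P : Fin n → Fin 2 → ℂ} (hP : Fills P) {D : ℝ × (Fin n → ℝ)}
    {T : Finset (Fin n)} {u : ℝ} (h1 : 0 < D.1) (hDD : ∑ j, D.2 j ^ 2 = D.1 ^ 2)
    (hu0 : 0 ≤ u) (hu : 3 * u ≤ D.1) (hDT : ∀ i ∈ T, D.2 i = u ∨ 3 * D.2 i = D.1)
    (hs1 : ∑ i ∈ T, D.2 i ≤ 3 * D.1) (hs2 : 9 * ∑ i ∈ T, D.2 i ^ 2 ≤ 8 * D.1 ^ 2)
    (hD0 : ∀ i ∉ T, 0 ≤ D.2 i) {R : Set ℝ} {s : ℝ → ℝ}
    (htame : Tame (fun i : {i // i ∉ T} => D.2 i.1) R s)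
    {G : MvPolynomial (Fin 3) ℂ} {d : ℕ} {w : Fin n → ℕ} (hG : SHDefs.Curve P G d w) :
    ∑ j, D.2 j * (w j : ℝ) ≤ D.1 * d := by
  classical
  obtain ⟨a, ha⟩ : ∃ a, a = D.1 / 3 := ⟨_, rfl⟩
  have ha0 : 0 < a := by rw [ha]; positivity
  obtain ⟨x, hx⟩ : ∃ x, x = if u = 0 then a else u := ⟨_, rfl⟩
  have hx0 : 0 < x := by
    rw [hx]
    split_ifs with h
    · exact ha0
    · exact lt_of_le_of_ne hu0 (Ne.symm h)
  have hxa : x ≤ a := by
    rw [hx]
    split_ifs with h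
    · exact le_rfl
    · rw [ha]; linarith
  let κ := {i : Fin n // i ∈ T ∧ 3 * D.2 i = D.1}
  let κ' := {i : Fin n // i ∈ T ∧ ¬ 3 * D.2 i = D.1 ∧ D.2 i ≠ 0}
  let ι := {i : Fin n // i ∉ T ∧ D.2 i ≠ 0}
  let emb : κ ⊕ (κ' ⊕ ι) → Fin n :=
    Sum.elim (fun j => j.1) (Sum.elim (fun j => j.1) fun j => j.1)
  have hemb : Function.Injective emb := by
    rintro (⟨a, ha⟩ | ⟨a, ha⟩ | ⟨a, ha⟩) (⟨b, hb⟩ | ⟨b, hb⟩ | ⟨b, hb⟩) h <;>
      simp only [emb, Sum.elim_inl, Sum.elim_inr] at h <;> subst h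
    · rfl
    · exact absurd ha.2 hb.2.1
    · exact absurd ha.1 hb.1
    · exact absurd hb.2 ha.2.1
    · rfl
    · exact absurd ha.1 hb.1
    · exact absurd hb.1 ha.1
    · exact absurd hb.1 ha.1
    · rfl
  have hfun : (fun i => D.2 (emb i)) =
      Sum.elim (fun _ : κ => a) (Sum.elim (fun _ : κ' => x) (fun j : ι => D.2 j.1)) := by
    funext i
    rcases i with ⟨i, hi⟩ | ⟨i, hi⟩ | i
    · show D.2 i = a
      rw [ha]
      linarith [hi.2]
    · show D.2 i = x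
      have h3 : D.2 i = u := (hDT i hi.1).resolve_right hi.2.1
      rw [hx, if_neg (by rw [← h3]; exact hi.2.2), h3]
    · rfl
  have h0 : ∀ j, j ∉ Set.range emb → D.2 j = 0 := by
    intro j hj
    by_contra h
    apply hj
    by_cases h2 : j ∈ T
    · by_cases h3 : 3 * D.2 j = D.1
      · exact ⟨Sum.inl ⟨j, h2, h3⟩, rfl⟩
      · exact ⟨Sum.inr (Sum.inl ⟨j, h2, h3, h⟩), rfl⟩
    · exact ⟨Sum.inr (Sum.inr ⟨j, h2, h⟩), rfl⟩
  have hs : ∑ i, D.2 (emb i) ^ 2 = D.1 ^ 2 := by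
    rw [← hDD]
    exact Fintype.sum_of_injective emb hemb _ _ (fun j hj => by rw [h0 j hj]; norm_num)
      fun i => rfl
  have hsw : ∑ i, D.2 (emb i) * (w (emb i) : ℝ) = ∑ j, D.2 j * (w j : ℝ) :=
    Fintype.sum_of_injective emb hemb _ _ (fun j hj => by rw [h0 j hj, zero_mul]) fun i => rfl
  rw [← hsw]
  refine hP _ emb hemb (fun i => D.2 (emb i)) D.1 ?_ G d w hG
  -- sums over `T`
  have hsT : ∀ g : ℝ → ℝ, g 0 = 0 → ∑ i ∈ T, g (D.2 i) =
      Fintype.card κ * g a + Fintype.card κ' * g x := by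
    intro g hg
    let emb' : κ ⊕ κ' → Fin n := Sum.elim (fun j => j.1) (fun j => j.1)
    have hemb' : Function.Injective emb' := by
      rintro (⟨a, ha⟩ | ⟨a, ha⟩) (⟨b, hb⟩ | ⟨b, hb⟩) h <;>
        simp only [emb', Sum.elim_inl, Sum.elim_inr] at h <;> subst h
      · rfl
      · exact absurd ha.2 hb.2.1
      · exact absurd hb.2 ha.2.1
      · rfl
    have hT' : ∀ i, emb' i ∈ T := by
      rintro (i | i)
      · exact i.2.1
      · exact i.2.1
    have h5 : ∑ i, g (D.2 (emb' i)) = ∑ j, (if j ∈ T then g (D.2 j) else 0) := by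
      refine Fintype.sum_of_injective emb' hemb' _ _ (fun j hj => ?_) fun i => ?_
      · by_cases h2 : j ∈ T
        · rw [if_pos h2]
          by_cases h4 : D.2 j = 0
          · rw [h4, hg]
          · exfalso
            apply hj
            by_cases h3 : 3 * D.2 j = D.1
            · exact ⟨Sum.inl ⟨j, h2, h3⟩, rfl⟩
            · exact ⟨Sum.inr ⟨j, h2, h3, h4⟩, rfl⟩
        · rw [if_neg h2]
      · rw [if_pos (hT' i)]
    rw [Finset.sum_ite_mem, Finset.univ_inter] at h5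
    rw [← h5, Fintype.sum_sum_type]
    have e1 : ∀ i : κ, D.2 (emb' (Sum.inl i)) = a := fun i => congrFun hfun (Sum.inl i)
    have e2 : ∀ i : κ', D.2 (emb' (Sum.inr i)) = x := fun i => congrFun hfun (Sum.inr (Sum.inl i))
    simp only [e1, e2, Finset.sum_const, Finset.card_univ, nsmul_eq_mul]
  have hlin := hsT (fun t => t) rfl
  have hsq := hsT (fun t => t ^ 2) (by norm_num)
  have h4 : ∑ i, D.2 (emb i) ^ 2 = Fintype.card κ * a ^ 2 +
      (Fintype.card κ' * x ^ 2 + ∑ i : ι, D.2 i.1 ^ 2) := by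
    have h5 : ∀ i, D.2 (emb i) = Sum.elim (fun _ : κ => a)
      (Sum.elim (fun _ : κ' => x) (fun j : ι => D.2 j.1)) i := fun i => congrFun hfun i
    simp only [h5, Fintype.sum_sum_type, Sum.elim_inl, Sum.elim_inr, Finset.sum_const,
      Finset.card_univ, nsmul_eq_mul]
  have hD1 : D.1 = 3 * a := by rw [ha]; ring
  have hD2 : D.1 ^ 2 = 9 * a ^ 2 := by rw [hD1]; ring
  have h4' := h4.symm.trans (hs.trans hD2)
  have h5' : Fintype.card κ * a + Fintype.card κ' * x ≤ 9 * a := by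
    rw [← hlin]
    linarith
  have h6' : 9 * (Fintype.card κ * a ^ 2 + Fintype.card κ' * x ^ 2) ≤ 72 * a ^ 2 := by
    rw [← hsq]
    linarith
  rw [hfun, ← ha]
  have hL0 : ∀ j : ι, 0 < D.2 j.1 := fun j =>
    lt_of_le_of_ne (hD0 j.1 j.2.1) (Ne.symm j.2.2)
  have hL2 : Tame (fun j : ι => D.2 j.1) R s := by
    refine htame.comap (fun j : ι => (⟨j.1, j.2.1⟩ : {i // i ∉ T})) ?_ (fun _ => rfl) ?_
    · intro i j hij
      exact Subtype.ext (congrArg (fun z : {i // i ∉ T} => z.1) hij)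
    · intro k hk
      by_contra h
      exact hk ⟨⟨k.1, k.2, h⟩, rfl⟩
  have ha2 : 0 < a ^ 2 := by positivity
  have hA1 : a ^ 2 ≤ ∑ j : ι, D.2 j.1 ^ 2 := by linarith
  refine plane9 ha0 hx0 hxa h5' (by linarith) (hL2.fill hL0 ha0 hA1 ?_) h4'
  have e1 : (0 : ℝ) ≤ Fintype.card κ * a ^ 2 := by positivity
  have e2 : (0 : ℝ) ≤ Fintype.card κ' * x ^ 2 := by positivity
  linarith

/-- the classes of nonnegative self-intersection -/
theorem nef_tame {n : ℕ} {P : Fin n → Fin 2 → ℂ} (hP : Fills P) {D : ℝ × (Fin n → ℝ)}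
    {T : Finset (Fin n)} {u : ℝ} (hn : T.card + 36 ≤ n) (h1 : 0 ≤ D.1) (hDD : 0 ≤ dot D D)
    (hu0 : 0 ≤ u) (hu : 3 * u ≤ D.1) (hDT : ∀ i ∈ T, D.2 i = u ∨ 3 * D.2 i = D.1)
    (hs1 : ∑ i ∈ T, D.2 i ≤ 3 * D.1) (hs2 : 9 * ∑ i ∈ T, D.2 i ^ 2 ≤ 8 * D.1 ^ 2)
    (hD0 : ∀ i ∉ T, 0 ≤ D.2 i) {R : Set ℝ} {s : ℝ → ℝ}
    (htame : Tame (fun i : {i // i ∉ T} => D.2 i.1) R s) :
    ∀ x ∈ curvCone P, 0 ≤ dot D x := by
  classical
  by_cases hS : ∑ j ∈ Tᶜ, D.2 j ^ 2 = 0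
  · refine nef_ge hP hn h1 hDD hu0 hu hDT hs1 hs2 hD0 fun j hj hj0 => ?_
    have h2 := (Finset.sum_eq_zero_iff_of_nonneg fun i _ => sq_nonneg (D.2 i)).1 hS j
      (Finset.mem_compl.2 hj)
    rw [pow_eq_zero_iff (two_ne_zero)] at h2
    exact absurd h2 hj0
  have hnn : ∀ j, 0 ≤ D.2 j := by
    intro j
    by_cases hj : j ∈ T
    · rcases hDT j hj with h | h <;> linarith
    · exact hD0 j hj
  have hDD' : ∑ j, D.2 j ^ 2 ≤ D.1 ^ 2 := by
    unfold dot at hDD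
    simp only [← sq] at hDD
    linarith
  have hsplit : ∑ j ∈ T, D.2 j ^ 2 + ∑ j ∈ Tᶜ, D.2 j ^ 2 = ∑ j, D.2 j ^ 2 :=
    Finset.sum_add_sum_compl T _
  have hS0 : 0 < ∑ j ∈ Tᶜ, D.2 j ^ 2 :=
    lt_of_le_of_ne (Finset.sum_nonneg fun i _ => sq_nonneg _) (Ne.symm hS)
  have hT0 : 0 ≤ ∑ j ∈ T, D.2 j ^ 2 := Finset.sum_nonneg fun i _ => sq_nonneg _
  have hpos : 0 < D.1 := by
    refine lt_of_le_of_ne h1 fun h => ?_
    rw [← h] at hDD'
    linarith
  obtain ⟨Q, hQ⟩ : ∃ Q, Q = D.1 ^ 2 - ∑ j ∈ T, D.2 j ^ 2 := ⟨_, rfl⟩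
  have hQ0 : 0 < Q := by
    rw [hQ]
    nlinarith
  obtain ⟨S, hSdef⟩ : ∃ S, S = ∑ j ∈ Tᶜ, D.2 j ^ 2 := ⟨_, rfl⟩
  rw [← hSdef] at hS0 hsplit
  obtain ⟨lam, hlamdef⟩ : ∃ lam, lam = √(Q / S) := ⟨_, rfl⟩
  have hlam1 : 1 ≤ lam := by
    rw [hlamdef]
    apply Real.le_sqrt_of_sq_le
    rw [one_pow, le_div_iff₀ hS0]
    linarith
  have hlam0 : 0 < lam := by linarith
  have hlam : lam ^ 2 * S = Q := by
    rw [hlamdef, Real.sq_sqrt (by positivity)]
    field_simp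
  obtain ⟨D', hD'⟩ : ∃ D' : ℝ × (Fin n → ℝ),
      D' = (D.1, fun j => if j ∈ T then D.2 j else lam * D.2 j) := ⟨_, rfl⟩
  have hD'1 : D'.1 = D.1 := by rw [hD']
  have hD'T : ∀ j ∈ T, D'.2 j = D.2 j := fun j hj => by
    rw [hD']
    simp only [if_pos hj]
  have hD'0 : ∀ j ∉ T, D'.2 j = lam * D.2 j := fun j hj => by
    rw [hD']
    simp only [if_neg hj]
  refine nef_anti (D' := D') hD'1.symm hnn (fun j => ?_) fun G d w hG => ?_
  · by_cases hj : j ∈ T
    · rw [hD'T j hj]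
    · rw [hD'0 j hj]
      have := hnn j
      nlinarith
  · have hsame : ∀ g : ℝ → ℝ, ∑ i ∈ T, g (D'.2 i) = ∑ i ∈ T, g (D.2 i) := fun g =>
      Finset.sum_congr rfl fun i hi => by rw [hD'T i hi]
    refine curve_tame hP (T := T) (u := u) (by rw [hD'1]; exact hpos) ?_ hu0
      (by rw [hD'1]; exact hu) (fun i hi => by rw [hD'T i hi, hD'1]; exact hDT i hi)
      (by rw [hsame fun t => t, hD'1]; exact hs1) (by rw [hsame fun t => t ^ 2, hD'1]; exact hs2)
      (fun i hi => by rw [hD'0 i hi]; exact mul_nonneg hlam0.le (hD0 i hi))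
      (R := {w | w / lam ∈ R}) (s := fun w => lam * s (w / lam)) ?_ hG
    · rw [← Finset.sum_add_sum_compl T, Finset.sum_congr rfl fun j hj => by rw [hD'T j hj],
        Finset.sum_congr (rfl : Tᶜ = Tᶜ) fun j hj => by
          rw [hD'0 j (Finset.mem_compl.1 hj), mul_pow], ← Finset.mul_sum, ← hSdef, hlam, hQ, hD'1]
      ring
    · have h2 := htame.smul hlam0
      have e : (fun i : {i // i ∉ T} => D'.2 i.1) = fun i : {i // i ∉ T} => lam * D.2 i.1 := by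
        funext i
        exact hD'0 i.1 i.2
      rw [e]
      exact h2

/-- at most eight points in `T` -/
theorem nef_tame8 {n : ℕ} {P : Fin n → Fin 2 → ℂ} (hP : Fills P) {D : ℝ × (Fin n → ℝ)}
    {T : Finset (Fin n)} {u : ℝ} (hn : T.card + 36 ≤ n) (hT : T.card ≤ 8) (h1 : 0 ≤ D.1)
    (hDD : 0 ≤ dot D D)
    (hu0 : 0 ≤ u) (hu : 3 * u ≤ D.1) (hDT : ∀ i ∈ T, D.2 i = u ∨ 3 * D.2 i = D.1)
    (hD0 : ∀ i ∉ T, 0 ≤ D.2 i) {R : Set ℝ} {s : ℝ → ℝ}
    (htame : Tame (fun i : {i // i ∉ T} => D.2 i.1) R s) :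
    ∀ x ∈ curvCone P, 0 ≤ dot D x := by
  have hT' : (T.card : ℝ) ≤ 8 := by exact_mod_cast hT
  refine nef_tame hP hn h1 hDD hu0 hu hDT ?_ ?_ hD0 htame
  · have h2 : ∀ j ∈ T, D.2 j ≤ D.1 / 3 := by
      intro j hj
      rcases hDT j hj with h | h <;> linarith
    have h3 := Finset.sum_le_card_nsmul T _ _ h2
    rw [nsmul_eq_mul] at h3
    nlinarith
  · have h2 : ∀ j ∈ T, D.2 j ^ 2 ≤ (D.1 / 3) ^ 2 := by
      intro j hj
      refine pow_le_pow_left₀ ?_ ?_ 2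
      · rcases hDT j hj with h | h <;> linarith
      · rcases hDT j hj with h | h <;> linarith
    have h3 := Finset.sum_le_card_nsmul T _ _ h2
    rw [nsmul_eq_mul] at h3
    have h4 : (T.card : ℝ) * (D.1 / 3) ^ 2 ≤ 8 * (D.1 / 3) ^ 2 :=
      mul_le_mul_of_nonneg_right hT' (sq_nonneg _)
    nlinarith

theorem tame_slice_aux {n k : ℕ} {P : Fin n → Fin 2 → ℂ}
    (hP : AlgebraicIndependent ℚ (fun ij : Fin n × Fin 2 => P ij.1 ij.2)) (hF : Fills P)
    {D : ℝ × (Fin n → ℝ)} {T : Finset (Fin n)} {u : ℝ} (hn : T.card + 36 ≤ n)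
    (hk : T.card ≤ 8) (hDD : 0 ≤ dot D D)
    {R : Set ℝ} {s : ℝ → ℝ} (htame : Tame (fun i : {i // i ∉ T} => D.2 i.1) R s)
    (hneg : MinusOneNonneg P D) {e : Fin k → Fin n} (he : Function.Injective e)
    (heT : ∀ l, l ∈ T ↔ ∃ j, e j = l) (hDT : ∀ i ∈ T, D.2 i = u) {q : ℝ × (Fin k → ℝ)}
    (hc : Carries (D.1, fun _ => u) q) (j₀ : Fin k)
    (hq : (∀ j, 0 ≤ q.2 j) → 3 * q.2 j₀ ≤ q.1 ∧ ∀ j, q.2 j = q.2 j₀ ∨ 3 * q.2 j = q.1) :
    ∀ x ∈ curvCone P, 0 ≤ dot D x := by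
  have hD : D = lift e D.2 (D.1, fun _ => u) := by
    refine Prod.ext rfl ?_
    funext l
    show D.2 l = Function.extend e (fun _ => u) D.2 l
    by_cases hl : ∃ j, e j = l
    · obtain ⟨j, rfl⟩ := hl
      rw [he.extend_apply]
      exact hDT _ ((heT _).2 ⟨j, rfl⟩)
    · rw [Function.extend_apply' _ _ _ hl]
  obtain ⟨D', hD'⟩ : ∃ D', D' = lift e D.2 q := ⟨_, rfl⟩
  have hcar : Carries D D' := by
    rw [hD']
    conv_lhs => rw [hD]
    exact carries_lift he _ hc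
  have hneg' := hneg.carries hP hcar
  have hD'e : ∀ j, D'.2 (e j) = q.2 j := fun j => by
    rw [hD']
    exact he.extend_apply _ _ _
  have hD'1 : D'.1 = q.1 := by rw [hD']; rfl
  have hD'0 : ∀ j ∉ T, D'.2 j = D.2 j := fun j hj => by
    rw [hD']
    exact Function.extend_apply' _ _ _ fun h => hj ((heT j).2 h)
  have hq0 : ∀ j, 0 ≤ q.2 j := fun j => by
    rw [← hD'e]
    exact hneg'.nonneg _
  obtain ⟨h1, h2⟩ := hq hq0
  have hnef : ∀ x ∈ curvCone P, 0 ≤ dot D' x := by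
    refine nef_tame8 hF (T := T) (u := q.2 j₀) (R := R) (s := s) hn hk ?_ ?_ (hq0 _) ?_ ?_ ?_ ?_
    · rw [hD'1]
      have := hq0 j₀
      linarith
    · rw [carries_dot hcar]
      exact hDD
    · rw [hD'1]
      exact h1
    · intro i hi
      obtain ⟨j, rfl⟩ := (heT i).1 hi
      rw [hD'e, hD'1]
      exact h2 j
    · intro i _
      exact hneg'.nonneg _
    · have e2 : (fun i : {i // i ∉ T} => D'.2 i.1) = fun i : {i // i ∉ T} => D.2 i.1 := by
        funext i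
        exact hD'0 i.1 i.2
      rw [e2]
      exact htame
  exact (nef_carries hP (carries_symm hcar) hnef).1

/-- the symmetric slices -/
theorem tame_slice {n : ℕ} {P : Fin n → Fin 2 → ℂ}
    (hP : AlgebraicIndependent ℚ (fun ij : Fin n × Fin 2 => P ij.1 ij.2)) (hF : Fills P)
    {D : ℝ × (Fin n → ℝ)} {T : Finset (Fin n)} {u : ℝ} (hn : T.card + 36 ≤ n)
    (hT : T.card ∈ ({0, 3, 5, 6, 7, 8} : Finset ℕ)) (h1 : 0 ≤ D.1) (hDD : 0 ≤ dot D D)
    (hDT : ∀ i ∈ T, D.2 i = u)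
    {R : Set ℝ} {s : ℝ → ℝ} (htame : Tame (fun i : {i // i ∉ T} => D.2 i.1) R s)
    (hneg : MinusOneNonneg P D) : ∀ x ∈ curvCone P, 0 ≤ dot D x := by
  classical
  have hk8 : T.card ≤ 8 := by
    simp only [Finset.mem_insert, Finset.mem_singleton] at hT
    omega
  rcases T.eq_empty_or_nonempty with hTe | ⟨t, ht⟩
  · exact nef_tame8 hF (T := T) (u := 0) hn hk8 h1 hDD le_rfl (by linarith)
      (fun i hi => by rw [hTe] at hi; exact absurd hi (Finset.notMem_empty i))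
      (fun i _ => hneg.nonneg i) htame
  have hu0 : 0 ≤ u := by
    rw [← hDT t ht]
    exact hneg.nonneg t
  rcases le_or_gt (3 * u) D.1 with hu | hu
  · exact nef_tame8 hF (T := T) (u := u) hn hk8 h1 hDD hu0 hu (fun i hi => Or.inl (hDT i hi))
      (fun i _ => hneg.nonneg i) htame
  have henum : ∀ k, T.card = k → ∃ e : Fin k → Fin n, Function.Injective e ∧
      ∀ l, l ∈ T ↔ ∃ j, e j = l := by
    rintro k rfl
    refine ⟨fun j => (T.equivFin.symm j : Fin n),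
      Subtype.val_injective.comp T.equivFin.symm.injective, fun l => ⟨fun hl => ?_, ?_⟩⟩
    · exact ⟨T.equivFin ⟨l, hl⟩, by simp⟩
    · rintro ⟨j, rfl⟩
      exact (T.equivFin.symm j).2
  simp only [Finset.mem_insert, Finset.mem_singleton] at hT
  rcases hT with hT | hT | hT | hT | hT | hT
  · rw [Finset.card_eq_zero] at hT
    rw [hT] at ht
    exact absurd ht (Finset.notMem_empty t)
  · obtain ⟨e, he, heT⟩ := henum 3 hT
    refine tame_slice_aux hP hF hn hk8 hDD htame hneg he heT hDT (chain3 D.1 u) 0 fun _ => ⟨?_, ?_⟩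
    · simp
      linarith
    · intro j
      left
      fin_cases j <;> simp
  · obtain ⟨e, he, heT⟩ := henum 5 hT
    refine tame_slice_aux hP hF hn hk8 hDD htame hneg he heT hDT (chain5 D.1 u) 0 fun _ => ⟨?_, ?_⟩
    · simp
      linarith
    · intro j
      fin_cases j
      · left
        rfl
      all_goals
        right
        simp
        ring
  · obtain ⟨e, he, heT⟩ := henum 6 hT
    refine tame_slice_aux hP hF hn hk8 hDD htame hneg he heT hDT (chain6 D.1 u) 0 fun _ => ⟨?_, ?_⟩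
    · simp
      linarith
    · intro j
      left
      fin_cases j <;> simp
  · obtain ⟨e, he, heT⟩ := henum 7 hT
    refine tame_slice_aux hP hF hn hk8 hDD htame hneg he heT hDT (chain7 D.1 u) 0 fun _ => ⟨?_, ?_⟩
    · simp
      linarith
    · intro j
      left
      fin_cases j <;> simp
  · obtain ⟨e, he, heT⟩ := henum 8 hT
    refine tame_slice_aux hP hF hn hk8 hDD htame hneg he heT hDT (chain8 D.1 u) 0 fun _ => ⟨?_, ?_⟩
    · simp
      linarith
    · intro j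
      left
      fin_cases j <;> simp

end Pool.Agent.U656.NC
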