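import Pool.Agent.U656.NC.Slice

/-! The cone spanned by the positive cone and the `(-1)`-curves: separation and averages. -/

set_option autoImplicit false

namespace Pool.Agent.U656.NC

open Pool.Agent.TH167 Pool.Agent.R355.ConeAct Pool.Agent.TH207.NC

/-- the closed cone spanned by the `(-1)`-curves and the positive cone -/
def bigCone {n : ℕ} (P : Fin n → Fin 2 → ℂ) : Set (ℝ × (Fin n → ℝ)) :=
  closure ((Submodule.span {c : ℝ // 0 ≤ c}
    ({x : ℝ × (Fin n → ℝ) | x ∈ curveClasses P ∧ dot x x = -1 ∧ kap x = -1} ∪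
      {x : ℝ × (Fin n → ℝ) | 0 ≤ x.1 ∧ 0 ≤ dot x x}) : Set (ℝ × (Fin n → ℝ))))

theorem gen_mem_bigCone {n : ℕ} {P : Fin n → Fin 2 → ℂ} {x : ℝ × (Fin n → ℝ)}
    (hx : x ∈ ({x : ℝ × (Fin n → ℝ) | x ∈ curveClasses P ∧ dot x x = -1 ∧ kap x = -1} ∪
      {x : ℝ × (Fin n → ℝ) | 0 ≤ x.1 ∧ 0 ≤ dot x x} : Set (ℝ × (Fin n → ℝ)))) :
    x ∈ bigCone P :=
  subset_closure (Submodule.subset_span hx)

/-- a continuous linear form is the product with a class -/
theorem exists_dot {n : ℕ} (f : (ℝ × (Fin n → ℝ)) →L[ℝ] ℝ) :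
    ∃ D : ℝ × (Fin n → ℝ), ∀ y, dot D y = - f y := by
  refine ⟨(-f (1, 0), fun l => f (0, Pi.single l 1)), fun y => ?_⟩
  have h1 : y = y.1 • ((1, 0) : ℝ × (Fin n → ℝ)) +
      ∑ l, y.2 l • ((0, Pi.single l 1) : ℝ × (Fin n → ℝ)) := by
    refine Prod.ext ?_ ?_
    · simp [Prod.fst_sum]
    · funext k
      simp only [Prod.snd_add, Prod.smul_snd, smul_zero, Prod.snd_sum, Pi.add_apply,
        Pi.zero_apply, zero_add, Finset.sum_apply, Pi.smul_apply, smul_eq_mul]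
      rw [Finset.sum_eq_single k]
      · simp
      · intro l _ hl
        rw [Pi.single_eq_of_ne (Ne.symm hl), mul_zero]
      · intro h
        exact absurd (Finset.mem_univ k) h
  have h2 : f y = y.1 * f (1, 0) + ∑ l, y.2 l * f (0, Pi.single l 1) := by
    conv_lhs => rw [h1]
    rw [map_add, map_smul, map_sum, smul_eq_mul]
    congr 1
    refine Finset.sum_congr rfl fun l _ => ?_
    rw [map_smul, smul_eq_mul]
  rw [h2]
  unfold dot
  simp only
  have h3 : ∑ l, f (0, Pi.single l 1) * y.2 l = ∑ l, y.2 l * f (0, Pi.single l 1) :=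
    Finset.sum_congr rfl fun l _ => mul_comm _ _
  rw [h3]
  ring

theorem dot_add_right {n : ℕ} (D x y : ℝ × (Fin n → ℝ)) : dot D (x + y) = dot D x + dot D y := by
  unfold dot
  simp only [Prod.fst_add, Prod.snd_add, Pi.add_apply, mul_add, Finset.sum_add_distrib]
  ring

theorem dot_sum_left {n : ℕ} {ι : Type} (s : Finset ι) (D : ι → ℝ × (Fin n → ℝ))
    (y : ℝ × (Fin n → ℝ)) : dot (∑ i ∈ s, D i) y = ∑ i ∈ s, dot (D i) y := by
  unfold dot
  rw [Prod.fst_sum, Prod.snd_sum, Finset.sum_mul, Finset.sum_sub_distrib, Finset.sum_comm]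
  congr 1
  refine Finset.sum_congr rfl fun l _ => ?_
  rw [Finset.sum_apply, Finset.sum_mul]

/-- separation -/
theorem exists_sep {n : ℕ} {S : Set (ℝ × (Fin n → ℝ))} {x : ℝ × (Fin n → ℝ)}
    (hx : x ∉ closure ((Submodule.span {c : ℝ // 0 ≤ c} S : Set (ℝ × (Fin n → ℝ))))) :
    ∃ D : ℝ × (Fin n → ℝ), (∀ y ∈ S, 0 ≤ dot D y) ∧ dot D x < 0 := by
  have hconv : Convex ℝ ((Submodule.span {c : ℝ // 0 ≤ c} S : Set (ℝ × (Fin n → ℝ)))) := by
    intro a ha b hb s t hs ht _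
    have h1 := (Submodule.span {c : ℝ // 0 ≤ c} S).smul_mem ⟨s, hs⟩ ha
    have h2 := (Submodule.span {c : ℝ // 0 ≤ c} S).smul_mem ⟨t, ht⟩ hb
    exact (Submodule.span {c : ℝ // 0 ≤ c} S).add_mem h1 h2
  obtain ⟨f, u, hf, hfx⟩ := geometric_hahn_banach_closed_point hconv.closure isClosed_closure hx
  have hu : 0 < u := by
    have h0 := hf 0 (subset_closure (Submodule.span {c : ℝ // 0 ≤ c} S).zero_mem)
    rwa [map_zero] at h0
  obtain ⟨D, hD⟩ := exists_dot f
  refine ⟨D, fun y hy => ?_, ?_⟩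
  · rw [hD]
    by_contra hcon
    push Not at hcon
    have hfy : 0 < f y := by linarith
    have h1 := (Submodule.span {c : ℝ // 0 ≤ c} S).smul_mem ⟨u / f y, by positivity⟩
      (Submodule.subset_span hy)
    have h2 : f ((u / f y) • y) < u := hf _ (subset_closure h1)
    rw [map_smul, smul_eq_mul, div_mul_cancel₀ _ hfy.ne'] at h2
    exact lt_irrefl _ h2
  · rw [hD]
    linarith

/-- a class which is nonnegative on the positive cone lies in it -/
theorem pos_of_dual {n : ℕ} {D : ℝ × (Fin n → ℝ)}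
    (h : ∀ y : ℝ × (Fin n → ℝ), 0 ≤ y.1 → 0 ≤ dot y y → 0 ≤ dot D y) :
    0 ≤ D.1 ∧ 0 ≤ dot D D := by
  have h1 : 0 ≤ D.1 := by
    have h2 := h (1, 0) zero_le_one (by unfold dot; simp)
    unfold dot at h2
    simpa using h2
  refine ⟨h1, ?_⟩
  by_contra hcon
  push Not at hcon
  obtain ⟨S, hS⟩ : ∃ S, S = ∑ l, D.2 l * D.2 l := ⟨_, rfl⟩
  have hD : dot D D = D.1 * D.1 - S := by rw [hS]; rfl
  have hS0 : 0 ≤ S := by
    rw [hS]
    exact Finset.sum_nonneg fun l _ => mul_self_nonneg _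
  have hr := Real.mul_self_sqrt hS0
  have hr0 := Real.sqrt_nonneg S
  have h3 := h (√S, D.2) hr0 (by
    show 0 ≤ √S * √S - ∑ l, D.2 l * D.2 l
    rw [hr, hS, sub_self])
  have h4 : dot D (√S, D.2) = D.1 * √S - S := by rw [hS]; rfl
  rw [h4] at h3
  rw [hD] at hcon
  have h5 : D.1 < √S := by
    by_contra h6
    push Not at h6
    have := mul_self_le_mul_self hr0 h6
    linarith
  have h6 : 0 < √S := lt_of_le_of_lt h1 h5
  nlinarith

/-- the permuted class -/
def perm {n : ℕ} (σ : Equiv.Perm (Fin n)) (D : ℝ × (Fin n → ℝ)) : ℝ × (Fin n → ℝ) :=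
  (D.1, fun l => D.2 (σ l))

theorem dot_perm {n : ℕ} (σ : Equiv.Perm (Fin n)) (D y : ℝ × (Fin n → ℝ)) :
    dot (perm σ D) (perm σ y) = dot D y := by
  unfold dot perm
  simp only
  rw [Equiv.sum_comp σ fun l => D.2 l * y.2 l]

/-- a transposition is a product of three quadratic transformations -/
theorem carries_swap {n : ℕ} (hn : 4 ≤ n) (c d : Fin n) (hcd : c ≠ d) (D : ℝ × (Fin n → ℝ)) :
    Carries D (perm (Equiv.swap c d) D) := by
  have h2 : 1 < (({c, d} : Finset (Fin n))ᶜ).card := by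
    rw [Finset.card_compl, Finset.card_pair hcd, Fintype.card_fin]
    omega
  obtain ⟨a, ha, b, hb, hab⟩ := Finset.one_lt_card.1 h2
  rw [Finset.mem_compl, Finset.mem_insert, Finset.mem_singleton, not_or] at ha hb
  have hinj : ∀ e : Fin n, a ≠ e → b ≠ e → Function.Injective ![a, b, e] := by
    intro e hae hbe i j hij
    fin_cases i <;> fin_cases j <;> simp_all
  refine Relation.ReflTransGen.head ⟨![a, b, c], hinj c ha.1 hb.1, rfl⟩ ?_
  refine Relation.ReflTransGen.head ⟨![a, b, d], hinj d ha.2 hb.2, rfl⟩ ?_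
  refine Relation.ReflTransGen.head ⟨![a, b, c], hinj c ha.1 hb.1, ?_⟩ Relation.ReflTransGen.refl
  have e1 : ∀ e : Fin n, (![a, b, e] : Fin 3 → Fin n) 0 = a := fun _ => rfl
  have e2 : ∀ e : Fin n, (![a, b, e] : Fin 3 → Fin n) 1 = b := fun _ => rfl
  have e3 : ∀ e : Fin n, (![a, b, e] : Fin 3 → Fin n) 2 = e := fun _ => rfl
  have hac : a ≠ c := ha.1
  have had : a ≠ d := ha.2
  have hbc : b ≠ c := hb.1
  have hbd : b ≠ d := hb.2
  refine Prod.ext ?_ ?_
  · simp [Pool.Agent.R355.ConeAct.refl, perm, hab, hab.symm, hcd, hcd.symm, hac, hac.symm, had, had.symm, hbc, hbc.symm,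
      hbd, hbd.symm]
    try ring
  · funext l
    by_cases h1 : l = a
    · subst h1
      simp [Pool.Agent.R355.ConeAct.refl, perm, hab, hab.symm, hcd, hcd.symm, hac, hac.symm, had, had.symm, hbc, hbc.symm,
        hbd, hbd.symm, Equiv.swap_apply_of_ne_of_ne]
      try ring
    by_cases h2 : l = b
    · subst h2
      simp [Pool.Agent.R355.ConeAct.refl, perm, hab, hab.symm, hcd, hcd.symm, hac, hac.symm, had, had.symm, hbc, hbc.symm,
        hbd, hbd.symm, Equiv.swap_apply_of_ne_of_ne]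
      try ring
    by_cases h3 : l = c
    · subst h3
      simp [Pool.Agent.R355.ConeAct.refl, perm, hab, hab.symm, hcd, hcd.symm, hac, hac.symm, had, had.symm, hbc, hbc.symm,
        hbd, hbd.symm]
      try ring
    by_cases h4 : l = d
    · subst h4
      simp [Pool.Agent.R355.ConeAct.refl, perm, hab, hab.symm, hcd, hcd.symm, hac, hac.symm, had, had.symm, hbc, hbc.symm,
        hbd, hbd.symm]
      try ring
    · simp [Pool.Agent.R355.ConeAct.refl, perm, h1, h2, h3, h4, Equiv.swap_apply_of_ne_of_ne]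

theorem perm_mul {n : ℕ} (σ τ : Equiv.Perm (Fin n)) (D : ℝ × (Fin n → ℝ)) :
    perm (σ * τ) D = perm τ (perm σ D) := rfl

theorem carries_perm {n : ℕ} (hn : 4 ≤ n) (σ : Equiv.Perm (Fin n)) :
    ∀ D : ℝ × (Fin n → ℝ), Carries D (perm σ D) := by
  refine Equiv.Perm.swap_induction_on (motive := fun σ => ∀ D : ℝ × (Fin n → ℝ),
    Carries D (perm σ D)) σ (fun D => Relation.ReflTransGen.refl) ?_
  intro τ x y hxy ih D
  rw [perm_mul]
  exact (carries_swap hn x y hxy D).trans (ih _)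

/-- classes that are constant on `T` and constant on the sets `B = const` off `T`, with large sets:
the inclusion of the cone of curves in the cone spanned by the positive cone and the
`(-1)`-curves -/
theorem sym_slice {n : ℕ} {P : Fin n → Fin 2 → ℂ}
    (hP : AlgebraicIndependent ℚ (fun ij : Fin n × Fin 2 => P ij.1 ij.2)) (hF : Fills P)
    {T : Finset (Fin n)} {B : Fin n → ℕ} (hn : T.card + 36 ≤ n)
    (hT : T.card ∈ ({0, 3, 5, 6, 7, 8} : Finset ℕ))
    (hB : (∀ j ∉ T, 144 ≤ (Finset.univ.filter fun i => i ∉ T ∧ B i = B j).card) ∨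
      ∀ i ∉ T, ∀ j ∉ T, B i = B j)
    {x : ℝ × (Fin n → ℝ)} (hx : x ∈ curvCone P) (hxT : ∀ i ∈ T, ∀ j ∈ T, x.2 i = x.2 j)
    (hxB : ∀ i ∉ T, ∀ j ∉ T, B i = B j → x.2 i = x.2 j) : x ∈ bigCone P := by
  classical
  by_contra hcon
  obtain ⟨D, hD, hDx⟩ := exists_sep hcon
  have hneg : MinusOneNonneg P D := fun y hy h1 h2 => hD y (Or.inl ⟨hy, h1, h2⟩)
  have hpos : ∀ y : ℝ × (Fin n → ℝ), 0 ≤ y.1 → 0 ≤ dot y y → 0 ≤ dot D y :=
    fun y h1 h2 => hD y (Or.inr ⟨h1, h2⟩)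
  obtain ⟨Γ, hΓ⟩ : ∃ Γ : Finset (Equiv.Perm (Fin n)), Γ = Finset.univ.filter
      fun σ => ∀ i, (σ i ∈ T ↔ i ∈ T) ∧ (i ∉ T → B (σ i) = B i) := ⟨_, rfl⟩
  have hmem : ∀ σ, σ ∈ Γ ↔ ∀ i, (σ i ∈ T ↔ i ∈ T) ∧ (i ∉ T → B (σ i) = B i) := fun σ => by
    rw [hΓ, Finset.mem_filter]
    simp
  have h1Γ : (1 : Equiv.Perm (Fin n)) ∈ Γ := (hmem 1).2 fun i => ⟨Iff.rfl, fun _ => rfl⟩
  have hmulΓ : ∀ σ ∈ Γ, ∀ τ ∈ Γ, σ * τ ∈ Γ := by
    intro σ hσ τ hτ
    rw [hmem] at hσ hτ ⊢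
    intro i
    refine ⟨(hσ (τ i)).1.trans (hτ i).1, fun hi => ?_⟩
    have h3 : τ i ∉ T := fun h => hi ((hτ i).1.1 h)
    exact ((hσ (τ i)).2 h3).trans ((hτ i).2 hi)
  obtain ⟨D', hD'⟩ : ∃ D' : ℝ × (Fin n → ℝ), D' = ∑ σ ∈ Γ, perm σ D := ⟨_, rfl⟩
  -- the average is negative on `x`
  have hxσ : ∀ σ ∈ Γ, perm σ x = x := by
    intro σ hσ
    rw [hmem] at hσ
    refine Prod.ext rfl ?_
    funext l
    show x.2 (σ l) = x.2 l
    by_cases hl : l ∈ T
    · exact hxT _ ((hσ l).1.2 hl) _ hl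
    · exact hxB _ (fun h => hl ((hσ l).1.1 h)) _ hl ((hσ l).2 hl)
  have hD'x : dot D' x < 0 := by
    rw [hD', dot_sum_left]
    have h3 : ∀ σ ∈ Γ, dot (perm σ D) x = dot D x := fun σ hσ => by
      conv_lhs => rw [← hxσ σ hσ]
      exact dot_perm σ D x
    rw [Finset.sum_congr rfl h3, Finset.sum_const, nsmul_eq_mul]
    have h4 : (0 : ℝ) < (Γ.card : ℝ) := by
      have := Finset.card_pos.2 ⟨_, h1Γ⟩
      exact_mod_cast this
    exact mul_neg_of_pos_of_neg h4 hDx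
  -- the average is nonnegative on the positive cone and on the `(-1)`-curves
  have hD'pos := pos_of_dual (D := D') (by
    intro y h1 h2
    rw [hD', dot_sum_left]
    refine Finset.sum_nonneg fun σ _ => ?_
    have h3 : y = perm σ (perm σ⁻¹ y) := by
      rw [← perm_mul]
      simp [perm]
    rw [h3, dot_perm]
    refine hpos _ h1 ?_
    rw [dot_perm]
    exact h2)
  have hD'neg : MinusOneNonneg P D' := by
    intro y hy h1 h2
    rw [hD', dot_sum_left]
    exact Finset.sum_nonneg fun σ _ =>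
      MinusOneNonneg.carries hP (carries_perm (by omega) σ D) hneg y hy h1 h2
  -- the average is invariant
  have hinv : ∀ τ ∈ Γ, ∀ i, D'.2 (τ i) = D'.2 i := by
    intro τ hτ i
    have h3 : ∀ i, D'.2 i = ∑ σ ∈ Γ, D.2 (σ i) := fun i => by
      rw [hD', Prod.snd_sum, Finset.sum_apply]
      rfl
    rw [h3, h3]
    refine Finset.sum_bij (fun σ _ => σ * τ) (fun σ hσ => hmulΓ σ hσ τ hτ) ?_ ?_ ?_
    · intro σ _ σ' _ h
      exact mul_right_cancel h
    · intro σ hσ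
      refine ⟨σ * τ⁻¹, hmulΓ σ hσ _ ?_, by simp⟩
      rw [hmem] at hτ ⊢
      intro i
      have h4 := hτ (τ⁻¹ i)
      rw [show τ (τ⁻¹ i) = i from τ.apply_symm_apply i] at h4
      refine ⟨h4.1.symm, fun hi => ?_⟩
      exact (h4.2 fun h => hi (h4.1.2 h)).symm
    · intro σ _
      rfl
  have hsw : ∀ i j : Fin n, ((i ∈ T ∧ j ∈ T) ∨ (i ∉ T ∧ j ∉ T ∧ B i = B j)) →
      D'.2 i = D'.2 j := by
    intro i j hij
    have h3 : Equiv.swap i j ∈ Γ := by
      rw [hmem]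
      intro l
      by_cases h5 : l = i
      · subst h5
        rw [Equiv.swap_apply_left]
        rcases hij with ⟨h6, h7⟩ | ⟨h6, h7, h8⟩
        · exact ⟨⟨fun _ => h6, fun _ => h7⟩, fun h => absurd h6 h⟩
        · exact ⟨⟨fun h => absurd h h7, fun h => absurd h h6⟩, fun _ => h8.symm⟩
      · by_cases h9 : l = j
        · subst h9
          rw [Equiv.swap_apply_right]
          rcases hij with ⟨h6, h7⟩ | ⟨h6, h7, h8⟩
          · exact ⟨⟨fun _ => h7, fun _ => h6⟩, fun h => absurd h7 h⟩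
          · exact ⟨⟨fun h => absurd h h6, fun h => absurd h h7⟩, fun _ => h8⟩
        · rw [Equiv.swap_apply_of_ne_of_ne h5 h9]
          exact ⟨Iff.rfl, fun _ => rfl⟩
    have h4 := hinv _ h3 i
    rw [Equiv.swap_apply_left] at h4
    exact h4.symm
  have hu : ∃ u, ∀ i ∈ T, D'.2 i = u := by
    rcases T.eq_empty_or_nonempty with hTe | ⟨t, ht⟩
    · exact ⟨0, fun i hi => by rw [hTe] at hi; exact absurd hi (Finset.notMem_empty i)⟩
    · exact ⟨D'.2 t, fun i hi => hsw i t (Or.inl ⟨hi, ht⟩)⟩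
  obtain ⟨u, hu⟩ := hu
  have hoft : Often D'.2 T := by
    intro j hj _
    rcases hB with hB | hB
    · left
      refine (hB j hj).trans (Finset.card_le_card fun i hi => ?_)
      rw [Finset.mem_filter] at hi ⊢
      exact ⟨hi.1, hi.2.1, hsw i j (Or.inr ⟨hi.2.1, hj, hi.2.2⟩)⟩
    · right
      refine ⟨?_, fun i hi => Or.inr (hsw i j (Or.inr ⟨hi, hj, hB i hi j hj⟩))⟩
      have h3 : (Finset.univ.filter fun i : Fin n => i ∉ T ∧ D'.2 i = D'.2 j) = Tᶜ := by
        ext i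
        rw [Finset.mem_filter, Finset.mem_compl]
        exact ⟨fun h => h.2.1, fun h => ⟨Finset.mem_univ i, h,
          hsw i j (Or.inr ⟨h, hj, hB i h j hj⟩)⟩⟩
      rw [h3, Finset.card_compl, Fintype.card_fin]
      omega
  have h5 := slice hP hF hn hT hD'pos.1 hD'pos.2 hu hoft hD'neg x hx
  exact absurd h5 (not_le.2 hD'x)

end Pool.Agent.U656.NC
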