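import Pool.Agent.U656.NC.Sym
import Pool.Agent.R355.NegCount

/-! An inequality for the irreducible curves which are not `(-1)`-curves. -/

set_option autoImplicit false

namespace Pool.Agent.U656.NC

open Pool.Agent.TH167 Pool.Agent.R355.ConeAct Pool.Agent.TH207.NC

theorem gen_carries {n : ℕ} {P : Fin n → Fin 2 → ℂ}
    (hP : AlgebraicIndependent ℚ (fun ij : Fin n × Fin 2 => P ij.1 ij.2))
    {a b : ℝ × (Fin n → ℝ)} (h : Carries a b) (ha : a ∈ curveClasses P) :
    b ∈ curveClasses P := by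
  unfold Carries at h
  induction h with
  | refl => exact ha
  | @tail b c _ h2 ih =>
    obtain ⟨i, hi, rfl⟩ := h2
    exact gen_refl hP hi ih

theorem kap_perm {n : ℕ} (σ : Equiv.Perm (Fin n)) (D : ℝ × (Fin n → ℝ)) :
    kap (perm σ D) = kap D := by
  unfold kap perm
  simp only
  rw [Equiv.sum_comp σ fun l => D.2 l]

theorem points_injective {n : ℕ} {P : Fin n → Fin 2 → ℂ}
    (hP : AlgebraicIndependent ℚ (fun ij : Fin n × Fin 2 => P ij.1 ij.2)) :
    Function.Injective P := by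
  intro i j hij
  have h1 := hP.injective
  have h2 : (fun ij : Fin n × Fin 2 => P ij.1 ij.2) (i, 0) =
      (fun ij : Fin n × Fin 2 => P ij.1 ij.2) (j, 0) := by
    simp only [hij]
  exact congrArg Prod.fst (h1 h2)

/-- two irreducible curves of different classes -/
theorem dot_nonneg {n : ℕ} {P : Fin n → Fin 2 → ℂ} (hP : Function.Injective P)
    {x y : ℝ × (Fin n → ℝ)} (hx : x ∈ curveClasses P) (hy : y ∈ curveClasses P) (hxy : x ≠ y) :
    0 ≤ dot x y := by
  have hE : ∀ (a : ℝ × (Fin n → ℝ)) (j : Fin n),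
      dot a ((0 : ℝ), (Pi.single j (-1 : ℝ) : Fin n → ℝ)) = a.2 j := by
    intro a j
    unfold dot
    simp only [mul_zero, zero_sub]
    rw [Finset.sum_eq_single j]
    · rw [Pi.single_eq_same]
      ring
    · intro l _ hl
      rw [Pi.single_eq_of_ne hl, mul_zero]
    · intro h
      exact absurd (Finset.mem_univ j) h
  have hcomm : ∀ a b : ℝ × (Fin n → ℝ), dot a b = dot b a := by
    intro a b
    unfold dot
    rw [mul_comm, Finset.sum_congr rfl fun l _ => mul_comm (a.2 l) (b.2 l)]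
  rcases hx with ⟨G, d, w, hG, rfl⟩ | ⟨j, rfl⟩
  · rcases hy with ⟨C, e, u, hC, rfl⟩ | ⟨j, rfl⟩
    · obtain ⟨g1, g2, g3⟩ := SH.curve_iff.1 hG
      obtain ⟨c1, c2, c3⟩ := SH.curve_iff.1 hC
      have h1 := Pool.Agent.R355.NegCount.ip_nonneg hP c1 c2 c3 g1 g2 g3 (by
        intro h
        apply hxy
        have h2 := congrArg Prod.fst h
        have h3 := congrArg Prod.snd h
        simp only at h2 h3
        rw [h2, h3])
      have h2 : dot (((d : ℝ), fun i => (w i : ℝ)) : ℝ × (Fin n → ℝ))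
          ((e : ℝ), fun i => (u i : ℝ)) = ((SH.ip d w e u : ℤ) : ℝ) := by
        unfold dot SH.ip
        push_cast
        ring
      rw [h2]
      exact_mod_cast h1
    · rw [hE]
      simp
  · rcases hy with ⟨C, e, u, hC, rfl⟩ | ⟨k, rfl⟩
    · rw [hcomm, hE]
      simp
    · rw [hE]
      simp only
      rw [Pi.single_eq_of_ne]
      intro h
      apply hxy
      rw [h]

/-- the inequality -/
theorem not_minusOne_le {n : ℕ} {P : Fin n → Fin 2 → ℂ}
    (hP : AlgebraicIndependent ℚ (fun ij : Fin n × Fin 2 => P ij.1 ij.2)) (hF : Fills P)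
    {G : MvPolynomial (Fin 3) ℂ} {d : ℕ} {m : Fin n → ℕ} (hG : SHDefs.Curve P G d m)
    (hne : ¬ SHDefs.MinusOne P G d m) {T : Finset (Fin n)} {r : ℕ} (hr : 0 < r)
    {U : Fin r → Finset (Fin n)} (hT : T.card ≤ 8)
    (hT' : T.card ∈ ({1, 2, 4} : Finset ℕ) → 3 * ∑ i ∈ T, m i ≤ T.card * d)
    (hTU : ∀ j, Disjoint T (U j)) (hU : ∀ j k, j ≠ k → Disjoint (U j) (U k))
    (hcard : (∀ j, 144 ≤ (U j).card) ∨ r = 1 ∧ ∀ j, 36 ≤ (U j).card) :
    (∑ i ∈ T, (m i : ℝ)) ^ 2 / T.card + ∑ j, (∑ i ∈ U j, (m i : ℝ)) ^ 2 / (U j).card ≤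
      (d : ℝ) ^ 2 := by
  classical
  have h36 : ∀ j, 36 ≤ (U j).card := by
    rcases hcard with h | h
    · exact fun j => le_trans (by norm_num) (h j)
    · exact h.2
  have hn : T.card + 36 ≤ n := by
    have h1 := Finset.card_le_univ (T ∪ U ⟨0, hr⟩)
    rw [Finset.card_union_of_disjoint (hTU _), Fintype.card_fin] at h1
    have := h36 ⟨0, hr⟩
    omega
  -- the class and the labels
  obtain ⟨a, ha⟩ : ∃ a : ℝ × (Fin n → ℝ), a = ((d : ℝ), fun i => (m i : ℝ)) := ⟨_, rfl⟩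
  have hacl : a ∈ curveClasses P := Or.inl ⟨G, d, m, hG, ha⟩
  have hanot : ¬ (dot a a = -1 ∧ kap a = -1) := by
    rintro ⟨h1, h2⟩
    apply hne
    refine ⟨hG, ?_, ?_⟩
    · have h3 : dot a a = ((SHDefs.inter d m d m : ℤ) : ℝ) := by
        rw [ha]
        unfold dot SHDefs.inter
        push_cast
        ring
      rw [h3] at h1
      exact_mod_cast h1
    · have h3 : kap a = ((SHDefs.interK d m : ℤ) : ℝ) := by
        rw [ha]
        unfold kap SHDefs.interK
        push_cast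
        ring
      rw [h3] at h2
      exact_mod_cast h2
  obtain ⟨B, hB⟩ : ∃ B : Fin n → ℕ, B = fun i =>
      if h : ∃ j : Fin r, i ∈ U j then ((h.choose : Fin r) : ℕ) else r + i := ⟨_, rfl⟩
  have hBU : ∀ (i : Fin n) (j : Fin r), i ∈ U j → B i = j := by
    intro i j hij
    rw [hB]
    simp only
    have h1 : ∃ j : Fin r, i ∈ U j := ⟨j, hij⟩
    rw [dif_pos h1]
    have h2 := h1.choose_spec
    by_cases h3 : h1.choose = j
    · rw [h3]
    · exact absurd hij (Finset.disjoint_left.1 (hU _ _ h3) h2)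
  have hUB : ∀ (i : Fin n) (j : Fin r), B i = j → i ∈ U j := by
    intro i j hij
    rw [hB] at hij
    simp only at hij
    split_ifs at hij with h1
    · have h2 := h1.choose_spec
      have h3 : h1.choose = j := Fin.ext hij
      rwa [h3] at h2
    · exfalso
      have := j.2
      omega
  -- the group
  obtain ⟨Γ, hΓ⟩ : ∃ Γ : Finset (Equiv.Perm (Fin n)), Γ = Finset.univ.filter
      fun σ => ∀ i, (σ i ∈ T ↔ i ∈ T) ∧ (i ∉ T → B (σ i) = B i) := ⟨_, rfl⟩
  have hmem : ∀ σ, σ ∈ Γ ↔ ∀ i, (σ i ∈ T ↔ i ∈ T) ∧ (i ∉ T → B (σ i) = B i) := fun σ => by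
    rw [hΓ, Finset.mem_filter]
    simp
  have h1Γ : (1 : Equiv.Perm (Fin n)) ∈ Γ := (hmem 1).2 fun i => ⟨Iff.rfl, fun _ => rfl⟩
  have hmulΓ : ∀ σ ∈ Γ, ∀ τ ∈ Γ, σ * τ ∈ Γ := by
    intro σ hσ τ hτ
    rw [hmem] at hσ hτ ⊢
    intro i
    refine ⟨(hσ (τ i)).1.trans (hτ i).1, fun hi => ?_⟩
    have h3 : τ i ∉ T := fun h => hi ((hτ i).1.1 h)
    exact ((hσ (τ i)).2 h3).trans ((hτ i).2 hi)
  obtain ⟨N, hN⟩ : ∃ N : ℝ, N = Γ.card := ⟨_, rfl⟩
  have hN0 : 0 < N := by
    have := Finset.card_pos.2 ⟨_, h1Γ⟩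
    rw [hN]
    exact_mod_cast this
  obtain ⟨D', hD'⟩ : ∃ D' : ℝ × (Fin n → ℝ), D' = ∑ σ ∈ Γ, perm σ a := ⟨_, rfl⟩
  have hD'1 : D'.1 = N * d := by
    rw [hD', Prod.fst_sum]
    have h3 : ∀ σ ∈ Γ, (perm σ a).1 = (d : ℝ) := fun σ _ => by rw [ha]; rfl
    rw [Finset.sum_congr rfl h3, Finset.sum_const, nsmul_eq_mul, hN]
  have hD'2 : ∀ i, D'.2 i = ∑ σ ∈ Γ, a.2 (σ i) := fun i => by
    rw [hD', Prod.snd_sum, Finset.sum_apply]
    rfl
  have ha0 : ∀ i, 0 ≤ a.2 i := fun i => by rw [ha]; exact Nat.cast_nonneg _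
  have hD'0 : ∀ i, 0 ≤ D'.2 i := fun i => by
    rw [hD'2]
    exact Finset.sum_nonneg fun σ _ => ha0 _
  have hinv : ∀ τ ∈ Γ, ∀ i, D'.2 (τ i) = D'.2 i := by
    intro τ hτ i
    rw [hD'2, hD'2]
    refine Finset.sum_bij (fun σ _ => σ * τ) (fun σ hσ => hmulΓ σ hσ τ hτ) ?_ ?_ ?_
    · intro σ _ σ' _ h
      exact mul_right_cancel h
    · intro σ hσ
      refine ⟨σ * τ⁻¹, hmulΓ σ hσ _ ?_, by simp⟩
      rw [hmem] at hτ ⊢
      intro i
      have h4 := hτ (τ⁻¹ i)
      rw [show τ (τ⁻¹ i) = i from τ.apply_symm_apply i] at h4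
      refine ⟨h4.1.symm, fun hi => ?_⟩
      exact (h4.2 fun h => hi (h4.1.2 h)).symm
    · intro σ _
      rfl
  have hsw : ∀ i j : Fin n, ((i ∈ T ∧ j ∈ T) ∨ (i ∉ T ∧ j ∉ T ∧ B i = B j)) →
      D'.2 i = D'.2 j := by
    intro i j hij
    have h3 : Equiv.swap i j ∈ Γ := by
      rw [hmem]
      intro l
      by_cases h5 : l = i
      · subst h5
        rw [Equiv.swap_apply_left]
        rcases hij with ⟨h6, h7⟩ | ⟨h6, h7, h8⟩
        · exact ⟨⟨fun _ => h6, fun _ => h7⟩, fun h => absurd h6 h⟩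
        · exact ⟨⟨fun h => absurd h h7, fun h => absurd h h6⟩, fun _ => h8.symm⟩
      · by_cases h9 : l = j
        · subst h9
          rw [Equiv.swap_apply_right]
          rcases hij with ⟨h6, h7⟩ | ⟨h6, h7, h8⟩
          · exact ⟨⟨fun _ => h7, fun _ => h6⟩, fun h => absurd h7 h⟩
          · exact ⟨⟨fun h => absurd h h6, fun h => absurd h h7⟩, fun _ => h8⟩
        · rw [Equiv.swap_apply_of_ne_of_ne h5 h9]
          exact ⟨Iff.rfl, fun _ => rfl⟩
    have h4 := hinv _ h3 i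
    rw [Equiv.swap_apply_left] at h4
    exact h4.symm
  -- averages over an invariant set
  have havg : ∀ V : Finset (Fin n), (∀ σ ∈ Γ, ∀ i, σ i ∈ V ↔ i ∈ V) →
      (∀ i ∈ V, ∀ j ∈ V, D'.2 i = D'.2 j) → ∀ i ∈ V,
      D'.2 i = N * ((∑ l ∈ V, (m l : ℝ)) / V.card) := by
    intro V hV hc i hi
    have h1 : ∑ l ∈ V, D'.2 l = N * ∑ l ∈ V, (m l : ℝ) := by
      rw [Finset.sum_congr rfl fun l _ => hD'2 l, Finset.sum_comm]
      have h2 : ∀ σ ∈ Γ, ∑ l ∈ V, a.2 (σ l) = ∑ l ∈ V, (m l : ℝ) := by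
        intro σ hσ
        have h3 : ∑ l ∈ V, a.2 (σ l) = ∑ l ∈ V, a.2 l := by
          refine Finset.sum_equiv σ (fun l => (hV σ hσ l).symm) fun l _ => rfl
        rw [h3, ha]
      rw [Finset.sum_congr rfl h2, Finset.sum_const, nsmul_eq_mul, hN]
    have h2 : ∑ l ∈ V, D'.2 l = V.card * D'.2 i := by
      rw [Finset.sum_congr rfl fun l hl => hc l hl i hi, Finset.sum_const, nsmul_eq_mul]
    have h3 : (0 : ℝ) < V.card := by
      have := Finset.card_pos.2 ⟨i, hi⟩
      exact_mod_cast this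
    rw [h2] at h1
    rw [← mul_div_assoc, eq_div_iff h3.ne', mul_comm]
    exact h1
  obtain ⟨ū, hū⟩ : ∃ ū : ℝ, ū = (∑ l ∈ T, (m l : ℝ)) / T.card := ⟨_, rfl⟩
  obtain ⟨v, hv⟩ : ∃ v : Fin r → ℝ, v = fun j => (∑ l ∈ U j, (m l : ℝ)) / (U j).card := ⟨_, rfl⟩
  have hū0 : 0 ≤ ū := by
    rw [hū]
    positivity
  have hv0 : ∀ j, 0 ≤ v j := by
    intro j
    rw [hv]
    positivity
  have hDT : ∀ i ∈ T, D'.2 i = N * ū := by
    rw [hū]
    exact havg T (fun σ hσ i => ((hmem σ).1 hσ i).1) fun i hi j hj => hsw i j (Or.inl ⟨hi, hj⟩)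
  have hUT : ∀ (j : Fin r) (i : Fin n), i ∈ U j → i ∉ T := fun j i hi h =>
    Finset.disjoint_left.1 (hTU j) h hi
  have hDU : ∀ (j : Fin r) (i : Fin n), i ∈ U j → D'.2 i = N * v j := by
    intro j
    rw [hv]
    refine havg (U j) (fun σ hσ i => ?_) fun i hi k hk =>
      hsw i k (Or.inr ⟨hUT j i hi, hUT j k hk, by rw [hBU i j hi, hBU k j hk]⟩)
    have h1 := (hmem σ).1 hσ i
    constructor
    · intro h
      have h2 : i ∉ T := fun h3 => hUT j _ h (h1.1.2 h3)
      have h3 := h1.2 h2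
      rw [hBU _ j h] at h3
      exact hUB i j h3.symm
    · intro h
      have h3 := h1.2 (hUT j i h)
      rw [hBU _ j h] at h3
      exact hUB _ j h3
  -- the function
  obtain ⟨z, hz⟩ : ∃ z : Fin n → ℝ, z = fun l => (if l ∈ T then ū else 0) +
      ∑ j, (if l ∈ U j then v j else 0) := ⟨_, rfl⟩
  have hzT : ∀ l ∈ T, z l = ū := by
    intro l hl
    rw [hz]
    simp only
    rw [if_pos hl, Finset.sum_eq_zero, add_zero]
    intro j _
    rw [if_neg fun h => hUT j l h hl]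
  have hzU : ∀ (j : Fin r) (l : Fin n), l ∈ U j → z l = v j := by
    intro j l hl
    rw [hz]
    simp only
    rw [if_neg (hUT j l hl), zero_add, Finset.sum_eq_single j, if_pos hl]
    · intro k _ hk
      rw [if_neg fun h => Finset.disjoint_left.1 (hU k j hk) h hl]
    · intro h
      exact absurd (Finset.mem_univ j) h
  have hz0 : ∀ l, l ∉ T → (∀ j, l ∉ U j) → z l = 0 := by
    intro l h1 h2
    rw [hz]
    simp only
    rw [if_neg h1, zero_add]
    exact Finset.sum_eq_zero fun j _ => by rw [if_neg (h2 j)]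
  have hcases : ∀ l, l ∈ T ∨ (∃ j, l ∈ U j) ∨ (l ∉ T ∧ ∀ j, l ∉ U j) := by
    intro l
    by_cases h1 : l ∈ T
    · exact Or.inl h1
    · by_cases h2 : ∃ j, l ∈ U j
      · exact Or.inr (Or.inl h2)
      · push Not at h2
        exact Or.inr (Or.inr ⟨h1, h2⟩)
  have hznn : ∀ l, 0 ≤ z l := by
    intro l
    rcases hcases l with h | ⟨j, h⟩ | ⟨h1, h2⟩
    · rw [hzT l h]; exact hū0
    · rw [hzU j l h]; exact hv0 j
    · rw [hz0 l h1 h2]
  have hzsq : ∀ l, z l ^ 2 = (if l ∈ T then ū ^ 2 else 0) +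
      ∑ j, (if l ∈ U j then v j ^ 2 else 0) := by
    intro l
    rcases hcases l with h | ⟨j, h⟩ | ⟨h1, h2⟩
    · rw [hzT l h, if_pos h, Finset.sum_eq_zero, add_zero]
      intro j _
      rw [if_neg fun h' => hUT j l h' h]
    · rw [hzU j l h, if_neg (hUT j l h), zero_add, Finset.sum_eq_single j, if_pos h]
      · intro k _ hk
        rw [if_neg fun h' => Finset.disjoint_left.1 (hU k j hk) h' h]
      · intro h
        exact absurd (Finset.mem_univ j) h
    · rw [hz0 l h1 h2, if_neg h1, zero_add, Finset.sum_eq_zero]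
      · norm_num
      · intro j _
        rw [if_neg (h2 j)]
  obtain ⟨Q, hQ⟩ : ∃ Q : ℝ, Q = ∑ l, z l ^ 2 := ⟨_, rfl⟩
  have hQ' : Q = (∑ i ∈ T, (m i : ℝ)) ^ 2 / T.card +
      ∑ j, (∑ i ∈ U j, (m i : ℝ)) ^ 2 / (U j).card := by
    rw [hQ, Finset.sum_congr rfl fun l _ => hzsq l, Finset.sum_add_distrib, Finset.sum_comm]
    have e1 : ∀ (V : Finset (Fin n)) (c : ℝ), ∑ l, (if l ∈ V then c else 0) = V.card * c := by
      intro V c
      rw [Finset.sum_ite_mem, Finset.univ_inter, Finset.sum_const, nsmul_eq_mul]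
    have e2 : ∀ V : Finset (Fin n), (V.card : ℝ) * ((∑ l ∈ V, (m l : ℝ)) / V.card) ^ 2 =
        (∑ l ∈ V, (m l : ℝ)) ^ 2 / V.card := by
      intro V
      rcases V.eq_empty_or_nonempty with h | h
      · rw [h]
        simp
      · have h3 : (0 : ℝ) < V.card := by
          have := Finset.card_pos.2 h
          exact_mod_cast this
        field_simp
    rw [e1, hū, e2]
    congr 1
    refine Finset.sum_congr rfl fun j _ => ?_
    rw [e1, hv]
    exact e2 _
  rw [← hQ']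
  by_contra hcon
  push Not at hcon
  have hQ0 : 0 < Q := lt_of_le_of_lt (sq_nonneg _) hcon
  have hr0 : 0 < √Q := Real.sqrt_pos.2 hQ0
  have hrr : √Q ^ 2 = Q := Real.sq_sqrt hQ0.le
  have hdr : (d : ℝ) < √Q := by
    by_contra h
    push Not at h
    have := pow_le_pow_left₀ hr0.le h 2
    linarith
  -- the nef class
  obtain ⟨D, hD⟩ : ∃ D : ℝ × (Fin n → ℝ), D = (N * √Q, fun l => N * z l) := ⟨_, rfl⟩
  have hD1 : D.1 = N * √Q := by rw [hD]
  have hD2 : ∀ l, D.2 l = N * z l := fun l => by rw [hD]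
  have hDD : dot D D = 0 := by
    have h1 : dot D D = D.1 * D.1 - ∑ l, D.2 l * D.2 l := rfl
    have h2 : ∑ l, D.2 l * D.2 l = N ^ 2 * Q := by
      rw [hQ, Finset.mul_sum]
      exact Finset.sum_congr rfl fun l _ => by rw [hD2]; ring
    have h3 : N * √Q * (N * √Q) = N ^ 2 * (√Q ^ 2) := by ring
    rw [h1, h2, hD1, h3, hrr]
    ring
  have hoft : Often D.2 T := by
    intro l hl hl0
    have hl1 : ∃ j, l ∈ U j := by
      rcases hcases l with h | h | ⟨h1, h2⟩
      · exact absurd h hl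
      · exact h
      · exfalso
        apply hl0
        rw [hD2, hz0 l h1 h2, mul_zero]
    obtain ⟨j, hj⟩ := hl1
    have hsub : U j ⊆ Finset.univ.filter fun i => i ∉ T ∧ D.2 i = D.2 l := by
      intro i hi
      rw [Finset.mem_filter]
      refine ⟨Finset.mem_univ i, hUT j i hi, ?_⟩
      rw [hD2, hD2, hzU j i hi, hzU j l hj]
    rcases hcard with h | ⟨h, h'⟩
    · exact Or.inl ((h j).trans (Finset.card_le_card hsub))
    · refine Or.inr ⟨(h' j).trans (Finset.card_le_card hsub), fun i hi => ?_⟩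
      rcases hcases i with h1 | ⟨k, h1⟩ | ⟨h1, h2⟩
      · exact absurd h1 hi
      · right
        have hkj : k = j := by
          subst h
          exact Subsingleton.elim _ _
        rw [hD2, hD2, hzU k i h1, hzU j l hj, hkj]
      · left
        rw [hD2, hz0 i h1 h2, mul_zero]
  have hle : ∀ l, N * z l ≤ D'.2 l := by
    intro l
    rcases hcases l with h | ⟨j, h⟩ | ⟨h1, h2⟩
    · rw [hzT l h, hDT l h]
    · rw [hzU j l h, hDU j l h]
    · rw [hz0 l h1 h2, mul_zero]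
      exact hD'0 l
  have hcl : ∀ σ ∈ Γ, perm σ a ∈ curveClasses P := fun σ _ =>
    gen_carries hP (carries_perm (by omega) σ a) hacl
  have hinj := points_injective hP
  have hneg : MinusOneNonneg P D := by
    intro x hx h1 h2
    have h3 : 0 ≤ dot D' x := by
      rw [hD', dot_sum_left]
      refine Finset.sum_nonneg fun σ hσ => dot_nonneg hinj (hcl σ hσ) hx ?_
      rintro rfl
      rw [dot_perm] at h1
      rw [kap_perm] at h2
      exact hanot ⟨h1, h2⟩
    rcases hx with ⟨C, e, u, hC, rfl⟩ | ⟨j, rfl⟩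
    · have h4 : dot D ((e : ℝ), fun i => (u i : ℝ)) - dot D' ((e : ℝ), fun i => (u i : ℝ)) =
          (D.1 - D'.1) * e + ∑ l, (D'.2 l - D.2 l) * (u l : ℝ) := by
        unfold dot
        simp only [sub_mul, Finset.sum_sub_distrib]
        ring
      have h5 : 0 ≤ (D.1 - D'.1) * e := by
        rw [hD1, hD'1, ← mul_sub]
        have : 0 ≤ √Q - d := by linarith
        positivity
      have h6 : 0 ≤ ∑ l, (D'.2 l - D.2 l) * (u l : ℝ) := by
        refine Finset.sum_nonneg fun l _ => mul_nonneg ?_ (Nat.cast_nonneg _)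
        rw [hD2]
        linarith [hle l]
      linarith
    · have hE : dot D ((0 : ℝ), (Pi.single j (-1 : ℝ) : Fin n → ℝ)) = D.2 j := by
        unfold dot
        simp only [mul_zero, zero_sub]
        rw [Finset.sum_eq_single j]
        · rw [Pi.single_eq_same]
          ring
        · intro l _ hl
          rw [Pi.single_eq_of_ne hl, mul_zero]
        · intro h
          exact absurd (Finset.mem_univ j) h
      rw [hE, hD2]
      exact mul_nonneg hN0.le (hznn j)
  have hDTu : ∀ i ∈ T, D.2 i = N * ū := fun i hi => by rw [hD2, hzT i hi]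
  have hnef : ∀ x ∈ curvCone P, 0 ≤ dot D x := by
    by_cases hT2 : T.card ∈ ({1, 2, 4} : Finset ℕ)
    · have hTp : (0 : ℝ) < T.card := by
        simp only [Finset.mem_insert, Finset.mem_singleton] at hT2
        have : 0 < T.card := by omega
        exact_mod_cast this
      have h1 : 3 * ū ≤ d := by
        have h2 := hT' hT2
        have h3 : 3 * ∑ i ∈ T, (m i : ℝ) ≤ T.card * d := by exact_mod_cast h2
        rw [hū, ← mul_div_assoc, div_le_iff₀ hTp]
        linarith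
      refine nef_ge8 hF (T := T) (u := N * ū) hn hT ?_ hDD.ge (by positivity) ?_
        (fun i hi => Or.inl (hDTu i hi)) (fun i _ => ?_) hoft
      · rw [hD1]
        positivity
      · rw [hD1]
        nlinarith
      · rw [hD2]
        exact mul_nonneg hN0.le (hznn i)
    · refine slice hP hF hn ?_ ?_ hDD.ge hDTu hoft hneg
      · simp only [Finset.mem_insert, Finset.mem_singleton] at hT2 ⊢
        omega
      · rw [hD1]
        positivity
  have h1 : 0 ≤ dot D D' := by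
    have hcomm : dot D D' = dot D' D := by
      unfold dot
      rw [mul_comm, Finset.sum_congr rfl fun l _ => mul_comm (D.2 l) (D'.2 l)]
    rw [hcomm, hD', dot_sum_left]
    refine Finset.sum_nonneg fun σ hσ => ?_
    have h2 := hnef _ (subset_closure (Submodule.subset_span (hcl σ hσ)))
    have h3 : dot (perm σ a) D = dot D (perm σ a) := by
      unfold dot
      rw [mul_comm, Finset.sum_congr rfl fun l _ => mul_comm ((perm σ a).2 l) (D.2 l)]
    rw [h3]
    exact h2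
  have h2 : dot D D' = N ^ 2 * (√Q * d - Q) := by
    have h3 : dot D D' = D.1 * D'.1 - ∑ l, D.2 l * D'.2 l := rfl
    have h4 : ∑ l, D.2 l * D'.2 l = N ^ 2 * Q := by
      rw [hQ, Finset.mul_sum]
      refine Finset.sum_congr rfl fun l _ => ?_
      rw [hD2]
      rcases hcases l with h | ⟨j, h⟩ | ⟨h1, h2⟩
      · rw [hzT l h, hDT l h]; ring
      · rw [hzU j l h, hDU j l h]; ring
      · rw [hz0 l h1 h2]; ring
    rw [h3, h4, hD1, hD'1]
    ring
  rw [h2] at h1
  have h3 : √Q * d - Q < 0 := by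
    have h4 : √Q * d < √Q * √Q := mul_lt_mul_of_pos_left hdr hr0
    have h5 : √Q * √Q = Q := by rw [← sq]; exact hrr
    linarith
  have h4 : N ^ 2 * (√Q * d - Q) < 0 := mul_neg_of_pos_of_neg (by positivity) h3
  linarith

end Pool.Agent.U656.NC
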