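import Pool.Agent.U656.NC.Neg
import Pool.Agent.U656.NC.Slice2

/-! The inequality for the irreducible curves which are not `(-1)`-curves, with small sets of points
whose averages are dominated by smaller ones. -/

set_option autoImplicit false

namespace Pool.Agent.U656.NC

open Pool.Agent.TH167 Pool.Agent.R355.ConeAct Pool.Agent.TH207.NC

/-- the inequality, with dominated rare averages -/
theorem tame_le {n : ℕ} {P : Fin n → Fin 2 → ℂ}
    (hP : AlgebraicIndependent ℚ (fun ij : Fin n × Fin 2 => P ij.1 ij.2)) (hF : Fills P)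
    {G : MvPolynomial (Fin 3) ℂ} {d : ℕ} {m : Fin n → ℕ} (hG : SHDefs.Curve P G d m)
    (hne : ¬ SHDefs.MinusOne P G d m) {T : Finset (Fin n)} {r : ℕ} (hn : T.card + 36 ≤ n)
    {U : Fin r → Finset (Fin n)}
    (hT : T.card ∈ ({0, 3, 5, 6, 7, 8} : Finset ℕ) ∨ (3 * ∑ i ∈ T, m i ≤ T.card * d ∧
      ∑ i ∈ T, m i ≤ 3 * d ∧ 9 * (∑ i ∈ T, m i) ^ 2 ≤ 8 * (T.card * d ^ 2)))
    (hTU : ∀ j, Disjoint T (U j)) (hU : ∀ j k, j ≠ k → Disjoint (U j) (U k))
    {R : Set ℝ} {s : ℝ → ℝ} (htame : Tame (fun i : {i // i ∉ T} =>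
      ∑ j, (if i.1 ∈ U j then (∑ l ∈ U j, (m l : ℝ)) / (U j).card else 0)) R s) :
    (∑ i ∈ T, (m i : ℝ)) ^ 2 / T.card + ∑ j, (∑ i ∈ U j, (m i : ℝ)) ^ 2 / (U j).card ≤
      (d : ℝ) ^ 2 := by
  classical
  -- the class and the labels
  obtain ⟨a, ha⟩ : ∃ a : ℝ × (Fin n → ℝ), a = ((d : ℝ), fun i => (m i : ℝ)) := ⟨_, rfl⟩
  have hacl : a ∈ curveClasses P := Or.inl ⟨G, d, m, hG, ha⟩
  have hanot : ¬ (dot a a = -1 ∧ kap a = -1) := by
    rintro ⟨h1, h2⟩
    apply hne
    refine ⟨hG, ?_, ?_⟩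
    · have h3 : dot a a = ((SHDefs.inter d m d m : ℤ) : ℝ) := by
        rw [ha]
        unfold dot SHDefs.inter
        push_cast
        ring
      rw [h3] at h1
      exact_mod_cast h1
    · have h3 : kap a = ((SHDefs.interK d m : ℤ) : ℝ) := by
        rw [ha]
        unfold kap SHDefs.interK
        push_cast
        ring
      rw [h3] at h2
      exact_mod_cast h2
  obtain ⟨B, hB⟩ : ∃ B : Fin n → ℕ, B = fun i =>
      if h : ∃ j : Fin r, i ∈ U j then ((h.choose : Fin r) : ℕ) else r + i := ⟨_, rfl⟩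
  have hBU : ∀ (i : Fin n) (j : Fin r), i ∈ U j → B i = j := by
    intro i j hij
    rw [hB]
    simp only
    have h1 : ∃ j : Fin r, i ∈ U j := ⟨j, hij⟩
    rw [dif_pos h1]
    have h2 := h1.choose_spec
    by_cases h3 : h1.choose = j
    · rw [h3]
    · exact absurd hij (Finset.disjoint_left.1 (hU _ _ h3) h2)
  have hUB : ∀ (i : Fin n) (j : Fin r), B i = j → i ∈ U j := by
    intro i j hij
    rw [hB] at hij
    simp only at hij
    split_ifs at hij with h1
    · have h2 := h1.choose_spec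
      have h3 : h1.choose = j := Fin.ext hij
      rwa [h3] at h2
    · exfalso
      have := j.2
      omega
  -- the group
  obtain ⟨Γ, hΓ⟩ : ∃ Γ : Finset (Equiv.Perm (Fin n)), Γ = Finset.univ.filter
      fun σ => ∀ i, (σ i ∈ T ↔ i ∈ T) ∧ (i ∉ T → B (σ i) = B i) := ⟨_, rfl⟩
  have hmem : ∀ σ, σ ∈ Γ ↔ ∀ i, (σ i ∈ T ↔ i ∈ T) ∧ (i ∉ T → B (σ i) = B i) := fun σ => by
    rw [hΓ, Finset.mem_filter]
    simp
  have h1Γ : (1 : Equiv.Perm (Fin n)) ∈ Γ := (hmem 1).2 fun i => ⟨Iff.rfl, fun _ => rfl⟩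
  have hmulΓ : ∀ σ ∈ Γ, ∀ τ ∈ Γ, σ * τ ∈ Γ := by
    intro σ hσ τ hτ
    rw [hmem] at hσ hτ ⊢
    intro i
    refine ⟨(hσ (τ i)).1.trans (hτ i).1, fun hi => ?_⟩
    have h3 : τ i ∉ T := fun h => hi ((hτ i).1.1 h)
    exact ((hσ (τ i)).2 h3).trans ((hτ i).2 hi)
  obtain ⟨N, hN⟩ : ∃ N : ℝ, N = Γ.card := ⟨_, rfl⟩
  have hN0 : 0 < N := by
    have := Finset.card_pos.2 ⟨_, h1Γ⟩
    rw [hN]
    exact_mod_cast this
  obtain ⟨D', hD'⟩ : ∃ D' : ℝ × (Fin n → ℝ), D' = ∑ σ ∈ Γ, perm σ a := ⟨_, rfl⟩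
  have hD'1 : D'.1 = N * d := by
    rw [hD', Prod.fst_sum]
    have h3 : ∀ σ ∈ Γ, (perm σ a).1 = (d : ℝ) := fun σ _ => by rw [ha]; rfl
    rw [Finset.sum_congr rfl h3, Finset.sum_const, nsmul_eq_mul, hN]
  have hD'2 : ∀ i, D'.2 i = ∑ σ ∈ Γ, a.2 (σ i) := fun i => by
    rw [hD', Prod.snd_sum, Finset.sum_apply]
    rfl
  have ha0 : ∀ i, 0 ≤ a.2 i := fun i => by rw [ha]; exact Nat.cast_nonneg _
  have hD'0 : ∀ i, 0 ≤ D'.2 i := fun i => by
    rw [hD'2]
    exact Finset.sum_nonneg fun σ _ => ha0 _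
  have hinv : ∀ τ ∈ Γ, ∀ i, D'.2 (τ i) = D'.2 i := by
    intro τ hτ i
    rw [hD'2, hD'2]
    refine Finset.sum_bij (fun σ _ => σ * τ) (fun σ hσ => hmulΓ σ hσ τ hτ) ?_ ?_ ?_
    · intro σ _ σ' _ h
      exact mul_right_cancel h
    · intro σ hσ
      refine ⟨σ * τ⁻¹, hmulΓ σ hσ _ ?_, by simp⟩
      rw [hmem] at hτ ⊢
      intro i
      have h4 := hτ (τ⁻¹ i)
      rw [show τ (τ⁻¹ i) = i from τ.apply_symm_apply i] at h4
      refine ⟨h4.1.symm, fun hi => ?_⟩
      exact (h4.2 fun h => hi (h4.1.2 h)).symm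
    · intro σ _
      rfl
  have hsw : ∀ i j : Fin n, ((i ∈ T ∧ j ∈ T) ∨ (i ∉ T ∧ j ∉ T ∧ B i = B j)) →
      D'.2 i = D'.2 j := by
    intro i j hij
    have h3 : Equiv.swap i j ∈ Γ := by
      rw [hmem]
      intro l
      by_cases h5 : l = i
      · subst h5
        rw [Equiv.swap_apply_left]
        rcases hij with ⟨h6, h7⟩ | ⟨h6, h7, h8⟩
        · exact ⟨⟨fun _ => h6, fun _ => h7⟩, fun h => absurd h6 h⟩
        · exact ⟨⟨fun h => absurd h h7, fun h => absurd h h6⟩, fun _ => h8.symm⟩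
      · by_cases h9 : l = j
        · subst h9
          rw [Equiv.swap_apply_right]
          rcases hij with ⟨h6, h7⟩ | ⟨h6, h7, h8⟩
          · exact ⟨⟨fun _ => h7, fun _ => h6⟩, fun h => absurd h7 h⟩
          · exact ⟨⟨fun h => absurd h h6, fun h => absurd h h7⟩, fun _ => h8⟩
        · rw [Equiv.swap_apply_of_ne_of_ne h5 h9]
          exact ⟨Iff.rfl, fun _ => rfl⟩
    have h4 := hinv _ h3 i
    rw [Equiv.swap_apply_left] at h4
    exact h4.symm
  -- averages over an invariant set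
  have havg : ∀ V : Finset (Fin n), (∀ σ ∈ Γ, ∀ i, σ i ∈ V ↔ i ∈ V) →
      (∀ i ∈ V, ∀ j ∈ V, D'.2 i = D'.2 j) → ∀ i ∈ V,
      D'.2 i = N * ((∑ l ∈ V, (m l : ℝ)) / V.card) := by
    intro V hV hc i hi
    have h1 : ∑ l ∈ V, D'.2 l = N * ∑ l ∈ V, (m l : ℝ) := by
      rw [Finset.sum_congr rfl fun l _ => hD'2 l, Finset.sum_comm]
      have h2 : ∀ σ ∈ Γ, ∑ l ∈ V, a.2 (σ l) = ∑ l ∈ V, (m l : ℝ) := by
        intro σ hσ
        have h3 : ∑ l ∈ V, a.2 (σ l) = ∑ l ∈ V, a.2 l := by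
          refine Finset.sum_equiv σ (fun l => (hV σ hσ l).symm) fun l _ => rfl
        rw [h3, ha]
      rw [Finset.sum_congr rfl h2, Finset.sum_const, nsmul_eq_mul, hN]
    have h2 : ∑ l ∈ V, D'.2 l = V.card * D'.2 i := by
      rw [Finset.sum_congr rfl fun l hl => hc l hl i hi, Finset.sum_const, nsmul_eq_mul]
    have h3 : (0 : ℝ) < V.card := by
      have := Finset.card_pos.2 ⟨i, hi⟩
      exact_mod_cast this
    rw [h2] at h1
    rw [← mul_div_assoc, eq_div_iff h3.ne', mul_comm]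
    exact h1
  obtain ⟨ū, hū⟩ : ∃ ū : ℝ, ū = (∑ l ∈ T, (m l : ℝ)) / T.card := ⟨_, rfl⟩
  obtain ⟨v, hv⟩ : ∃ v : Fin r → ℝ, v = fun j => (∑ l ∈ U j, (m l : ℝ)) / (U j).card := ⟨_, rfl⟩
  have hū0 : 0 ≤ ū := by
    rw [hū]
    positivity
  have hv0 : ∀ j, 0 ≤ v j := by
    intro j
    rw [hv]
    positivity
  have hDT : ∀ i ∈ T, D'.2 i = N * ū := by
    rw [hū]
    exact havg T (fun σ hσ i => ((hmem σ).1 hσ i).1) fun i hi j hj => hsw i j (Or.inl ⟨hi, hj⟩)
  have hUT : ∀ (j : Fin r) (i : Fin n), i ∈ U j → i ∉ T := fun j i hi h =>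
    Finset.disjoint_left.1 (hTU j) h hi
  have hDU : ∀ (j : Fin r) (i : Fin n), i ∈ U j → D'.2 i = N * v j := by
    intro j
    rw [hv]
    refine havg (U j) (fun σ hσ i => ?_) fun i hi k hk =>
      hsw i k (Or.inr ⟨hUT j i hi, hUT j k hk, by rw [hBU i j hi, hBU k j hk]⟩)
    have h1 := (hmem σ).1 hσ i
    constructor
    · intro h
      have h2 : i ∉ T := fun h3 => hUT j _ h (h1.1.2 h3)
      have h3 := h1.2 h2
      rw [hBU _ j h] at h3
      exact hUB i j h3.symm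
    · intro h
      have h3 := h1.2 (hUT j i h)
      rw [hBU _ j h] at h3
      exact hUB _ j h3
  -- the function
  obtain ⟨z, hz⟩ : ∃ z : Fin n → ℝ, z = fun l => (if l ∈ T then ū else 0) +
      ∑ j, (if l ∈ U j then v j else 0) := ⟨_, rfl⟩
  have hzT : ∀ l ∈ T, z l = ū := by
    intro l hl
    rw [hz]
    simp only
    rw [if_pos hl, Finset.sum_eq_zero, add_zero]
    intro j _
    rw [if_neg fun h => hUT j l h hl]
  have hzU : ∀ (j : Fin r) (l : Fin n), l ∈ U j → z l = v j := by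
    intro j l hl
    rw [hz]
    simp only
    rw [if_neg (hUT j l hl), zero_add, Finset.sum_eq_single j, if_pos hl]
    · intro k _ hk
      rw [if_neg fun h => Finset.disjoint_left.1 (hU k j hk) h hl]
    · intro h
      exact absurd (Finset.mem_univ j) h
  have hz0 : ∀ l, l ∉ T → (∀ j, l ∉ U j) → z l = 0 := by
    intro l h1 h2
    rw [hz]
    simp only
    rw [if_neg h1, zero_add]
    exact Finset.sum_eq_zero fun j _ => by rw [if_neg (h2 j)]
  have hcases : ∀ l, l ∈ T ∨ (∃ j, l ∈ U j) ∨ (l ∉ T ∧ ∀ j, l ∉ U j) := by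
    intro l
    by_cases h1 : l ∈ T
    · exact Or.inl h1
    · by_cases h2 : ∃ j, l ∈ U j
      · exact Or.inr (Or.inl h2)
      · push Not at h2
        exact Or.inr (Or.inr ⟨h1, h2⟩)
  have hznn : ∀ l, 0 ≤ z l := by
    intro l
    rcases hcases l with h | ⟨j, h⟩ | ⟨h1, h2⟩
    · rw [hzT l h]; exact hū0
    · rw [hzU j l h]; exact hv0 j
    · rw [hz0 l h1 h2]
  have hzsq : ∀ l, z l ^ 2 = (if l ∈ T then ū ^ 2 else 0) +
      ∑ j, (if l ∈ U j then v j ^ 2 else 0) := by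
    intro l
    rcases hcases l with h | ⟨j, h⟩ | ⟨h1, h2⟩
    · rw [hzT l h, if_pos h, Finset.sum_eq_zero, add_zero]
      intro j _
      rw [if_neg fun h' => hUT j l h' h]
    · rw [hzU j l h, if_neg (hUT j l h), zero_add, Finset.sum_eq_single j, if_pos h]
      · intro k _ hk
        rw [if_neg fun h' => Finset.disjoint_left.1 (hU k j hk) h' h]
      · intro h
        exact absurd (Finset.mem_univ j) h
    · rw [hz0 l h1 h2, if_neg h1, zero_add, Finset.sum_eq_zero]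
      · norm_num
      · intro j _
        rw [if_neg (h2 j)]
  obtain ⟨Q, hQ⟩ : ∃ Q : ℝ, Q = ∑ l, z l ^ 2 := ⟨_, rfl⟩
  have hQ' : Q = (∑ i ∈ T, (m i : ℝ)) ^ 2 / T.card +
      ∑ j, (∑ i ∈ U j, (m i : ℝ)) ^ 2 / (U j).card := by
    rw [hQ, Finset.sum_congr rfl fun l _ => hzsq l, Finset.sum_add_distrib, Finset.sum_comm]
    have e1 : ∀ (V : Finset (Fin n)) (c : ℝ), ∑ l, (if l ∈ V then c else 0) = V.card * c := by
      intro V c
      rw [Finset.sum_ite_mem, Finset.univ_inter, Finset.sum_const, nsmul_eq_mul]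
    have e2 : ∀ V : Finset (Fin n), (V.card : ℝ) * ((∑ l ∈ V, (m l : ℝ)) / V.card) ^ 2 =
        (∑ l ∈ V, (m l : ℝ)) ^ 2 / V.card := by
      intro V
      rcases V.eq_empty_or_nonempty with h | h
      · rw [h]
        simp
      · have h3 : (0 : ℝ) < V.card := by
          have := Finset.card_pos.2 h
          exact_mod_cast this
        field_simp
    rw [e1, hū, e2]
    congr 1
    refine Finset.sum_congr rfl fun j _ => ?_
    rw [e1, hv]
    exact e2 _
  rw [← hQ']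
  by_contra hcon
  push Not at hcon
  have hQ0 : 0 < Q := lt_of_le_of_lt (sq_nonneg _) hcon
  have hr0 : 0 < √Q := Real.sqrt_pos.2 hQ0
  have hrr : √Q ^ 2 = Q := Real.sq_sqrt hQ0.le
  have hdr : (d : ℝ) < √Q := by
    by_contra h
    push Not at h
    have := pow_le_pow_left₀ hr0.le h 2
    linarith
  -- the nef class
  obtain ⟨D, hD⟩ : ∃ D : ℝ × (Fin n → ℝ), D = (N * √Q, fun l => N * z l) := ⟨_, rfl⟩
  have hD1 : D.1 = N * √Q := by rw [hD]
  have hD2 : ∀ l, D.2 l = N * z l := fun l => by rw [hD]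
  have hDD : dot D D = 0 := by
    have h1 : dot D D = D.1 * D.1 - ∑ l, D.2 l * D.2 l := rfl
    have h2 : ∑ l, D.2 l * D.2 l = N ^ 2 * Q := by
      rw [hQ, Finset.mul_sum]
      exact Finset.sum_congr rfl fun l _ => by rw [hD2]; ring
    have h3 : N * √Q * (N * √Q) = N ^ 2 * (√Q ^ 2) := by ring
    rw [h1, h2, hD1, h3, hrr]
    ring
  have htame' : Tame (fun i : {i // i ∉ T} => D.2 i.1) {w | w / N ∈ R}
      (fun w => N * s (w / N)) := by
    have e : (fun i : {i // i ∉ T} => D.2 i.1) = fun i : {i // i ∉ T} =>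
        N * ∑ j, (if i.1 ∈ U j then (∑ l ∈ U j, (m l : ℝ)) / (U j).card else 0) := by
      funext i
      rw [hD2, hz, hv]
      simp only
      rw [if_neg i.2, zero_add]
    rw [e]
    exact htame.smul hN0
  have hle : ∀ l, N * z l ≤ D'.2 l := by
    intro l
    rcases hcases l with h | ⟨j, h⟩ | ⟨h1, h2⟩
    · rw [hzT l h, hDT l h]
    · rw [hzU j l h, hDU j l h]
    · rw [hz0 l h1 h2, mul_zero]
      exact hD'0 l
  have hcl : ∀ σ ∈ Γ, perm σ a ∈ curveClasses P := fun σ _ =>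
    gen_carries hP (carries_perm (by omega) σ a) hacl
  have hinj := points_injective hP
  have hneg : MinusOneNonneg P D := by
    intro x hx h1 h2
    have h3 : 0 ≤ dot D' x := by
      rw [hD', dot_sum_left]
      refine Finset.sum_nonneg fun σ hσ => dot_nonneg hinj (hcl σ hσ) hx ?_
      rintro rfl
      rw [dot_perm] at h1
      rw [kap_perm] at h2
      exact hanot ⟨h1, h2⟩
    rcases hx with ⟨C, e, u, hC, rfl⟩ | ⟨j, rfl⟩
    · have h4 : dot D ((e : ℝ), fun i => (u i : ℝ)) - dot D' ((e : ℝ), fun i => (u i : ℝ)) =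
          (D.1 - D'.1) * e + ∑ l, (D'.2 l - D.2 l) * (u l : ℝ) := by
        unfold dot
        simp only [sub_mul, Finset.sum_sub_distrib]
        ring
      have h5 : 0 ≤ (D.1 - D'.1) * e := by
        rw [hD1, hD'1, ← mul_sub]
        have : 0 ≤ √Q - d := by linarith
        positivity
      have h6 : 0 ≤ ∑ l, (D'.2 l - D.2 l) * (u l : ℝ) := by
        refine Finset.sum_nonneg fun l _ => mul_nonneg ?_ (Nat.cast_nonneg _)
        rw [hD2]
        linarith [hle l]
      linarith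
    · have hE : dot D ((0 : ℝ), (Pi.single j (-1 : ℝ) : Fin n → ℝ)) = D.2 j := by
        unfold dot
        simp only [mul_zero, zero_sub]
        rw [Finset.sum_eq_single j]
        · rw [Pi.single_eq_same]
          ring
        · intro l _ hl
          rw [Pi.single_eq_of_ne hl, mul_zero]
        · intro h
          exact absurd (Finset.mem_univ j) h
      rw [hE, hD2]
      exact mul_nonneg hN0.le (hznn j)
  have hDTu : ∀ i ∈ T, D.2 i = N * ū := fun i hi => by rw [hD2, hzT i hi]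
  have hnef : ∀ x ∈ curvCone P, 0 ≤ dot D x := by
    rcases hT with hT | ⟨hT1, hT2, hT3⟩
    · refine tame_slice hP hF hn hT ?_ hDD.ge hDTu htame' hneg
      rw [hD1]
      positivity
    · have hTu : (T.card : ℝ) * ū = ∑ i ∈ T, (m i : ℝ) := by
        rcases T.eq_empty_or_nonempty with h | h
        · rw [h]
          simp
        · have h3 : (0 : ℝ) < T.card := by
            have := Finset.card_pos.2 h
            exact_mod_cast this
          rw [hū]
          field_simp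
      have hTu2 : (T.card : ℝ) * ū ≤ 3 * d := by
        rw [hTu]
        exact_mod_cast hT2
      have hd0 : (0 : ℝ) ≤ d := Nat.cast_nonneg d
      have hdQ : (d : ℝ) ^ 2 ≤ Q := hcon.le
      have e1 : ∑ i ∈ T, D.2 i = N * (T.card * ū) := by
        rw [Finset.sum_congr rfl fun i hi => hDTu i hi, Finset.sum_const, nsmul_eq_mul]
        ring
      have e2 : ∑ i ∈ T, D.2 i ^ 2 = N ^ 2 * (T.card * ū ^ 2) := by
        rw [Finset.sum_congr rfl fun i hi => by rw [hDTu i hi], Finset.sum_const, nsmul_eq_mul]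
        ring
      have hu3 : 3 * ū ≤ d ∧ 9 * (T.card * ū ^ 2) ≤ 8 * Q := by
        rcases T.eq_empty_or_nonempty with h | h
        · have h3 : ū = 0 := by
            rw [hū, h]
            simp
          rw [h3]
          exact ⟨by linarith, by nlinarith⟩
        · have h3 : (0 : ℝ) < T.card := by
            have := Finset.card_pos.2 h
            exact_mod_cast this
          constructor
          · have h4 : 3 * ∑ i ∈ T, (m i : ℝ) ≤ T.card * d := by exact_mod_cast hT1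
            rw [hū, ← mul_div_assoc, div_le_iff₀ h3]
            linarith
          · have h4 : 9 * (∑ i ∈ T, (m i : ℝ)) ^ 2 ≤ 8 * (T.card * (d : ℝ) ^ 2) := by
              exact_mod_cast hT3
            rw [← hTu] at h4
            have h5 : T.card * (9 * (T.card * ū ^ 2)) ≤ T.card * (8 * (d : ℝ) ^ 2) := by
              linarith
            have h6 := le_of_mul_le_mul_left h5 h3
            linarith
      refine nef_tame hF (T := T) (u := N * ū) hn ?_ hDD.ge (by positivity) ?_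
        (fun i hi => Or.inl (hDTu i hi)) ?_ ?_ (fun i _ => ?_) htame'
      · rw [hD1]
        positivity
      · rw [hD1]
        nlinarith [hu3.1]
      · rw [e1, hD1]
        have : N * (T.card * ū) ≤ N * (3 * √Q) :=
          mul_le_mul_of_nonneg_left (by linarith) hN0.le
        linarith
      · rw [e2, hD1, mul_pow, hrr]
        have := mul_le_mul_of_nonneg_left hu3.2 (sq_nonneg N)
        linarith
      · rw [hD2]
        exact mul_nonneg hN0.le (hznn i)
  have h1 : 0 ≤ dot D D' := by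
    have hcomm : dot D D' = dot D' D := by
      unfold dot
      rw [mul_comm, Finset.sum_congr rfl fun l _ => mul_comm (D.2 l) (D'.2 l)]
    rw [hcomm, hD', dot_sum_left]
    refine Finset.sum_nonneg fun σ hσ => ?_
    have h2 := hnef _ (subset_closure (Submodule.subset_span (hcl σ hσ)))
    have h3 : dot (perm σ a) D = dot D (perm σ a) := by
      unfold dot
      rw [mul_comm, Finset.sum_congr rfl fun l _ => mul_comm ((perm σ a).2 l) (D.2 l)]
    rw [h3]
    exact h2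
  have h2 : dot D D' = N ^ 2 * (√Q * d - Q) := by
    have h3 : dot D D' = D.1 * D'.1 - ∑ l, D.2 l * D'.2 l := rfl
    have h4 : ∑ l, D.2 l * D'.2 l = N ^ 2 * Q := by
      rw [hQ, Finset.mul_sum]
      refine Finset.sum_congr rfl fun l _ => ?_
      rw [hD2]
      rcases hcases l with h | ⟨j, h⟩ | ⟨h1, h2⟩
      · rw [hzT l h, hDT l h]; ring
      · rw [hzU j l h, hDU j l h]; ring
      · rw [hz0 l h1 h2]; ring
    rw [h3, h4, hD1, hD'1]
    ring
  rw [h2] at h1
  have h3 : √Q * d - Q < 0 := by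
    have h4 : √Q * d < √Q * √Q := mul_lt_mul_of_pos_left hdr hr0
    have h5 : √Q * √Q = Q := by rw [← sq]; exact hrr
    linarith
  have h4 : N ^ 2 * (√Q * d - Q) < 0 := mul_neg_of_pos_of_neg (by positivity) h3
  linarith

theorem sq_div {n : ℕ} {V : Finset (Fin n)} {m : Fin n → ℕ}
    (h : ∀ i ∈ V, ∀ j ∈ V, m i = m j) :
    (∑ i ∈ V, (m i : ℝ)) ^ 2 / V.card = ∑ i ∈ V, (m i : ℝ) ^ 2 := by
  rcases V.eq_empty_or_nonempty with he | ⟨a, ha⟩
  · rw [he]
    simp
  · have h1 : (0 : ℝ) < V.card := by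
      have := Finset.card_pos.2 ⟨a, ha⟩
      exact_mod_cast this
    have h2 : ∑ i ∈ V, (m i : ℝ) = V.card * m a := by
      rw [Finset.sum_congr rfl fun i hi => by rw [h i hi a ha], Finset.sum_const, nsmul_eq_mul]
    have h3 : ∑ i ∈ V, (m i : ℝ) ^ 2 = V.card * (m a : ℝ) ^ 2 := by
      rw [Finset.sum_congr rfl fun i hi => by rw [h i hi a ha], Finset.sum_const, nsmul_eq_mul]
    rw [h2, h3]
    field_simp

/-- the self-intersection number -/
theorem tame_sq {n : ℕ} {P : Fin n → Fin 2 → ℂ}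
    (hP : AlgebraicIndependent ℚ (fun ij : Fin n × Fin 2 => P ij.1 ij.2)) (hF : Fills P)
    {G : MvPolynomial (Fin 3) ℂ} {d : ℕ} {m : Fin n → ℕ} (hG : SHDefs.Curve P G d m)
    (hne : ¬ SHDefs.MinusOne P G d m) {T : Finset (Fin n)} (hn : T.card + 36 ≤ n)
    (hT : T.card ∈ ({0, 3, 5, 6, 7, 8} : Finset ℕ) ∨ (3 * ∑ i ∈ T, m i ≤ T.card * d ∧
      ∑ i ∈ T, m i ≤ 3 * d ∧ 9 * (∑ i ∈ T, m i) ^ 2 ≤ 8 * (T.card * d ^ 2)))
    (hconst : ∀ i ∈ T, ∀ k ∈ T, m i = m k) {R : Set ℝ} {s : ℝ → ℝ}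
    (htame : Tame (fun i : {i // i ∉ T} => (m i.1 : ℝ)) R s) : ∑ i, m i ^ 2 ≤ d ^ 2 := by
  classical
  obtain ⟨r, hr⟩ : ∃ r, r = ∑ i, m i + 1 := ⟨_, rfl⟩
  have hmr : ∀ i, m i < r := fun i => by
    have := Finset.single_le_sum (f := m) (fun j _ => Nat.zero_le _) (Finset.mem_univ i)
    omega
  obtain ⟨U, hU⟩ : ∃ U : Fin r → Finset (Fin n),
      U = fun j : Fin r => Finset.univ.filter fun l => l ∉ T ∧ m l = (j : ℕ) := ⟨_, rfl⟩
  have hmem : ∀ (j : Fin r) (l : Fin n), l ∈ U j ↔ l ∉ T ∧ m l = j := by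
    intro j l
    rw [hU, Finset.mem_filter]
    exact ⟨fun h => h.2, fun h => ⟨Finset.mem_univ l, h⟩⟩
  have hUc : ∀ j, ∀ i ∈ U j, ∀ k ∈ U j, m i = m k := fun j i hi k hk => by
    rw [((hmem j i).1 hi).2, ((hmem j k).1 hk).2]
  have hval : ∀ i : {i // i ∉ T},
      ∑ j, (if i.1 ∈ U j then (∑ l ∈ U j, (m l : ℝ)) / (U j).card else 0) = (m i.1 : ℝ) := by
    intro i
    have hi : i.1 ∈ U ⟨m i.1, hmr i.1⟩ := (hmem _ _).2 ⟨i.2, rfl⟩
    rw [Finset.sum_eq_single ⟨m i.1, hmr i.1⟩]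
    · rw [if_pos hi]
      have h1 : (0 : ℝ) < (U ⟨m i.1, hmr i.1⟩).card := by
        have := Finset.card_pos.2 ⟨i.1, hi⟩
        exact_mod_cast this
      rw [Finset.sum_congr rfl fun l hl => by rw [hUc _ l hl i.1 hi], Finset.sum_const,
        nsmul_eq_mul]
      field_simp
    · intro j _ hj
      rw [if_neg]
      intro h
      apply hj
      exact Fin.ext ((hmem j i.1).1 h).2.symm
    · intro h
      exact absurd (Finset.mem_univ _) h
  have h1 := tame_le hP hF hG hne (T := T) (r := r) (U := U) (R := R) (s := s) hn hT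
    (fun j => Finset.disjoint_left.2 fun i hi h => ((hmem j i).1 h).1 hi)
    (fun j k hjk => Finset.disjoint_left.2 fun i hi h => hjk (Fin.ext
      (((hmem j i).1 hi).2.symm.trans ((hmem k i).1 h).2))) (by
      have e : (fun i : {i // i ∉ T} =>
          ∑ j, (if i.1 ∈ U j then (∑ l ∈ U j, (m l : ℝ)) / (U j).card else 0)) =
          fun i : {i // i ∉ T} => (m i.1 : ℝ) := funext hval
      rw [e]
      exact htame)
  rw [sq_div hconst, Finset.sum_congr rfl fun j _ => sq_div (hUc j)] at h1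
  have h4 : ∑ i, (m i : ℝ) ^ 2 = ∑ i ∈ T, (m i : ℝ) ^ 2 + ∑ j, ∑ i ∈ U j, (m i : ℝ) ^ 2 := by
    have h5 : ∀ i, (m i : ℝ) ^ 2 = (if i ∈ T then (m i : ℝ) ^ 2 else 0) +
        ∑ j, (if i ∈ U j then (m i : ℝ) ^ 2 else 0) := by
      intro i
      by_cases h6 : i ∈ T
      · rw [if_pos h6, Finset.sum_eq_zero, add_zero]
        intro j _
        rw [if_neg fun h7 => ((hmem j i).1 h7).1 h6]
      · rw [if_neg h6, zero_add, Finset.sum_eq_single ⟨m i, hmr i⟩,
          if_pos ((hmem _ _).2 ⟨h6, rfl⟩)]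
        · intro k _ hk
          rw [if_neg fun h8 => hk (Fin.ext ((hmem k i).1 h8).2.symm)]
        · intro h8
          exact absurd (Finset.mem_univ _) h8
    rw [Finset.sum_congr rfl fun i _ => h5 i, Finset.sum_add_distrib, Finset.sum_comm,
      Finset.sum_ite_mem, Finset.univ_inter]
    congr 1
    exact Finset.sum_congr rfl fun j _ => by rw [Finset.sum_ite_mem, Finset.univ_inter]
  rw [← h4] at h1
  exact_mod_cast h1

end Pool.Agent.U656.NC
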