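import Pool.Agent.U656.NC.Climb

/-! Systems most of whose area comes from well distributed small squares fill the plane. -/

set_option autoImplicit false

namespace Pool.Agent.U656.NC

open Pool.Agent.TH207.NC

theorem sum_map_add' {α : Type} (l : List α) (f g : α → ℝ) :
    (l.map fun a => f a + g a).sum = (l.map f).sum + (l.map g).sum := by
  induction l with
  | nil => simp
  | cons a l ih =>
    simp only [List.map_cons, List.sum_cons, ih]
    ring

/-- putting the parts together -/
theorem assemble {M : ℝ} (hM : 0 < M) {B : List (ℝ × ℕ)} (hB : ∀ z ∈ B, 0 < z.1 ∧ 1 ≤ z.2)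
    (hcost : (B.map fun z => if 2 * M < z.1 then cost M z else
      if z.1 ≤ M ∧ ¬ Poor M z then 0 else cost0 M z).sum + 96 * M ^ 2 ≤
      (B.map fun z => if z.1 ≤ M ∧ ¬ Poor M z then (z.2 : ℝ) * z.1 ^ 2 else 0).sum)
    {c : ℝ} (hc : 0 < c) (hsq : ar (ex B) = c ^ 2)
    (h12 : (∀ z ∈ B, z.1 ≤ 2 * M) → 12 * M ≤ c) : One (c / 3) (ex B) := by
  have hM2 : 0 < M ^ 2 := by positivity
  -- the three parts
  obtain ⟨Z, hZ⟩ : ∃ Z, Z = B.filter (fun z => decide (2 * M < z.1)) := ⟨_, rfl⟩
  obtain ⟨Y, hY⟩ : ∃ Y, Y = B.filter (fun z => !decide (2 * M < z.1)) := ⟨_, rfl⟩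
  obtain ⟨R, hR⟩ : ∃ R, R = Y.filter (fun z => decide (z.1 ≤ M ∧ ¬ Poor M z)) := ⟨_, rfl⟩
  obtain ⟨S, hS⟩ : ∃ S, S = Y.filter (fun z => !decide (z.1 ≤ M ∧ ¬ Poor M z)) := ⟨_, rfl⟩
  have hp1 : (Z ++ Y).Perm B := by
    rw [hZ, hY]
    exact List.filter_append_perm _ _
  have hp2 : (R ++ S).Perm Y := by
    rw [hR, hS]
    exact List.filter_append_perm _ _
  have mZ : ∀ z ∈ Z, 2 * M < z.1 ∧ 1 ≤ z.2 := by
    intro z hz
    rw [hZ, List.mem_filter] at hz
    exact ⟨by simpa using hz.2, (hB z hz.1).2⟩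
  have mY : ∀ z ∈ Y, z ∈ B ∧ z.1 ≤ 2 * M := by
    intro z hz
    rw [hY, List.mem_filter] at hz
    exact ⟨hz.1, by simpa using hz.2⟩
  have mR : ∀ z ∈ R, z ∈ Y ∧ z.1 ≤ M ∧ ¬ Poor M z := by
    intro z hz
    rw [hR, List.mem_filter] at hz
    exact ⟨hz.1, of_decide_eq_true hz.2⟩
  have mS : ∀ z ∈ S, z ∈ Y := by
    intro z hz
    rw [hS, List.mem_filter] at hz
    exact hz.1
  obtain ⟨K, hK, hKR⟩ := exists_bricks_list hM R fun z hz => by
    obtain ⟨h1, h2, h3⟩ := mR z hz
    refine ⟨(hB z (mY z h1).1).1, h2, ?_⟩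
    unfold Poor at h3
    push Not at h3
    have h5 : M ^ 2 ≤ max z.1 M ^ 2 := pow_le_pow_left₀ hM.le (le_max_right _ _) 2
    linarith
  have hperm : (ex Z ++ (ex S ++ ex K)).Perm (ex B) := by
    have e1 : ((ex Z ++ ex Y : List ℝ) : Multiset ℝ) = (ex B : Multiset ℝ) := by
      rw [← ex_append]
      exact Multiset.coe_eq_coe.2 (ex_perm hp1)
    have e2 : ((ex R ++ ex S : List ℝ) : Multiset ℝ) = (ex Y : Multiset ℝ) := by
      rw [← ex_append]
      exact Multiset.coe_eq_coe.2 (ex_perm hp2)
    rw [← Multiset.coe_eq_coe, hKR]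
    simp only [← Multiset.coe_add] at e1 e2 ⊢
    rw [← e1, ← e2]
    abel
  -- the costs
  have c1 : (Z.map (cost M)).sum = (B.map fun z => if 2 * M < z.1 then cost M z else 0).sum := by
    rw [hZ, sum_filter_map]
    simp only [decide_eq_true_eq]
  have c2 : (S.map (cost0 M)).sum = (B.map fun z => if 2 * M < z.1 then 0 else
      if z.1 ≤ M ∧ ¬ Poor M z then 0 else cost0 M z).sum := by
    rw [hS, hY, sum_filter_map, sum_filter_map]
    refine congrArg List.sum (List.map_congr_left fun z _ => ?_)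
    by_cases h1 : 2 * M < z.1
    · simp [h1]
    · by_cases h2 : z.1 ≤ M ∧ ¬ Poor M z
      · simp [h1, h2]
      · simp only [h1, decide_false, Bool.not_false, if_true, h2, if_false]
  have c3 : ar (ex K) =
      (B.map fun z => if z.1 ≤ M ∧ ¬ Poor M z then (z.2 : ℝ) * z.1 ^ 2 else 0).sum := by
    rw [hKR, ar_ex, hR, hY, sum_filter_map, sum_filter_map]
    refine congrArg List.sum (List.map_congr_left fun z _ => ?_)
    by_cases h2 : z.1 ≤ M ∧ ¬ Poor M z
    · have h1 : ¬ 2 * M < z.1 := by
        have := h2.1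
        linarith
      simp only [h1, decide_false, Bool.not_false, if_true, h2, decide_true, not_false_eq_true,
        and_self]
    · by_cases h1 : 2 * M < z.1
      · simp only [h1, decide_true, Bool.not_true, Bool.false_eq_true, if_false, h2]
      · simp only [h1, decide_false, Bool.not_false, if_true, h2, Bool.false_eq_true, if_false]
  have c4 : (B.map fun z => if 2 * M < z.1 then cost M z else
      if z.1 ≤ M ∧ ¬ Poor M z then 0 else cost0 M z).sum =
      (Z.map (cost M)).sum + (S.map (cost0 M)).sum := by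
    rw [c1, c2, ← sum_map_add']
    refine congrArg List.sum (List.map_congr_left fun z _ => ?_)
    split_ifs <;> ring
  rw [c4, ← c3] at hcost
  refine (top hM (fun z hz => ?_) mZ hK (by linarith) hc (by rw [ar_perm hperm]; exact hsq)
    fun h0 => h12 fun z hz => ?_).perm hperm
  · obtain ⟨h1, h2⟩ := mY z (mS z hz)
    exact ⟨(hB z h1).1, h2, (hB z h1).2⟩
  · by_contra hcon
    push Not at hcon
    have : z ∈ Z := by
      rw [hZ, List.mem_filter]
      exact ⟨hz, by simpa using hcon⟩
    rw [h0] at this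
    exact List.not_mem_nil this

/-- the main theorem for lists of blocks -/
theorem blocks_one {M : ℝ} (hM : 0 < M) {B : List (ℝ × ℕ)} (hB : ∀ z ∈ B, 0 < z.1 ∧ 1 ≤ z.2)
    (hne : B ≠ [])
    (hyp : (B.map fun z => if Poor M z then 384 * max z.1 M ^ 2 else 0).sum ≤
      (B.map fun z => if z.1 ≤ M then (z.2 : ℝ) * z.1 ^ 2 else 0).sum)
    {c : ℝ} (hc : 0 < c) (hsq : ar (ex B) = c ^ 2) : One (c / 3) (ex B) := by
  have hM2 : 0 < M ^ 2 := by positivity
  by_cases hpoor : ∃ z ∈ B, Poor M z
  · obtain ⟨z₀, hz₀, hp₀⟩ := hpoor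
    have h1 : (B.map fun z => if 2 * M < z.1 then cost M z else
        if z.1 ≤ M ∧ ¬ Poor M z then 0 else cost0 M z).sum +
        (B.map fun z => if Poor M z then 96 * M ^ 2 else 0).sum +
        (B.map fun z => if z.1 ≤ M then (z.2 : ℝ) * z.1 ^ 2 else 0).sum ≤
        (B.map fun z => if z.1 ≤ M ∧ ¬ Poor M z then (z.2 : ℝ) * z.1 ^ 2 else 0).sum +
        (B.map fun z => if Poor M z then 384 * max z.1 M ^ 2 else 0).sum := by
      rw [← sum_map_add', ← sum_map_add', ← sum_map_add']
      refine List.sum_le_sum fun z hz => ?_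
      have hz0 := (hB z hz).1
      unfold cost cost0
      by_cases hp : Poor M z
      · have hp' := hp
        unfold Poor at hp'
        simp only [hp, not_true_eq_false, and_false, if_true, if_false]
        by_cases a1 : 2 * M < z.1
        · have a2 : ¬ z.1 ≤ M := by linarith
          rw [if_pos a1, if_neg a2, max_eq_left (by linarith)]
          nlinarith
        · rw [if_neg a1]
          by_cases a2 : z.1 ≤ M
          · rw [if_pos a2, max_eq_right a2]
            rw [max_eq_right a2] at hp'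
            linarith
          · rw [if_neg a2]
            push Not at a2
            rw [max_eq_left a2.le]
            nlinarith
      · simp only [hp, not_false_eq_true, and_true, if_false]
        by_cases a2 : z.1 ≤ M
        · have a1 : ¬ 2 * M < z.1 := by linarith
          rw [if_neg a1, if_pos a2, if_pos a2]
          simp
        · rw [if_neg a2, if_neg a2]
          simp
    have h2 : 96 * M ^ 2 ≤ (B.map fun z => if Poor M z then 96 * M ^ 2 else 0).sum := by
      have h3 := le_sum_map (f := fun z => if Poor M z then 96 * M ^ 2 else 0) (fun z => by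
        split_ifs
        · positivity
        · exact le_rfl) hz₀
      simp only [if_pos hp₀] at h3
      exact h3
    refine assemble hM hB (by linarith) hc hsq fun _ => ?_
    have h3 : 384 * M ^ 2 ≤ (B.map fun z => if Poor M z then 384 * max z.1 M ^ 2 else 0).sum := by
      have h4 := le_sum_map (f := fun z => if Poor M z then 384 * max z.1 M ^ 2 else 0) (fun z => by
        split_ifs
        · positivity
        · exact le_rfl) hz₀
      simp only [if_pos hp₀] at h4
      have h5 : M ^ 2 ≤ max z₀.1 M ^ 2 := pow_le_pow_left₀ hM.le (le_max_right _ _) 2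
      linarith
    have h4 : (B.map fun z => if z.1 ≤ M then (z.2 : ℝ) * z.1 ^ 2 else 0).sum ≤ c ^ 2 := by
      rw [← hsq, ar_ex]
      refine List.sum_le_sum fun z _ => ?_
      split_ifs
      · exact le_rfl
      · positivity
    have h5 : (12 * M) ^ 2 ≤ c ^ 2 := by nlinarith
    exact (pow_le_pow_iff_left₀ (by positivity) hc.le (by norm_num)).1 h5
  · push Not at hpoor
    obtain ⟨z₀, hz₀, hmin⟩ := exists_min hne
    obtain ⟨m, hm⟩ : ∃ m, m = z₀.1 := ⟨_, rfl⟩
    have hm0 : 0 < m := by rw [hm]; exact (hB z₀ hz₀).1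
    have hrich : ∀ z ∈ B, 96 * z.1 ^ 2 ≤ (z.2 : ℝ) * z.1 ^ 2 := by
      intro z hz
      have h1 := hpoor z hz
      unfold Poor at h1
      push Not at h1
      have h2 : z.1 ^ 2 ≤ max z.1 M ^ 2 := pow_le_pow_left₀ (hB z hz).1.le (le_max_left _ _) 2
      linarith
    have hnp : ∀ z ∈ B, ¬ Poor m z := by
      intro z hz
      unfold Poor
      rw [max_eq_left (by rw [hm]; exact hmin z hz)]
      push Not
      exact hrich z hz
    have hm96 : ∀ z ∈ B, 96 * m ^ 2 ≤ (z.2 : ℝ) * z.1 ^ 2 := by
      intro z hz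
      have h1 : m ^ 2 ≤ z.1 ^ 2 := pow_le_pow_left₀ hm0.le (by rw [hm]; exact hmin z hz) 2
      have := hrich z hz
      linarith
    by_cases hdir : (∀ z ∈ B, z.1 ≤ 2 * m) ∧ c < 12 * m
    · -- all blocks at the height `c / 3`
      have hle : ∀ z ∈ B, (z.2 : ℝ) * z.1 ^ 2 ≤ c ^ 2 := by
        intro z hz
        rw [← hsq, ar_ex]
        exact le_sum_map (f := fun z : ℝ × ℕ => (z.2 : ℝ) * z.1 ^ 2) (fun z => by positivity) hz
      have hblk : ∀ z ∈ B, Al (c / 3) (List.replicate z.2 z.1) := by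
        intro z hz
        have h1 := hle z hz
        have h2 := hrich z hz
        have h3 := hm96 z hz
        refine Al.block (hB z hz).2 (hB z hz).1 ?_ ?_
        · have h4 : (6 * z.1) ^ 2 ≤ c ^ 2 := by nlinarith
          have := (pow_le_pow_iff_left₀ (by have := (hB z hz).1; positivity) hc.le
            (by norm_num)).1 h4
          linarith
        · have h4 : c ^ 2 ≤ (12 * m) ^ 2 := pow_le_pow_left₀ hc.le hdir.2.le 2
          nlinarith
      have hall : ∀ B' : List (ℝ × ℕ), (∀ z ∈ B', Al (c / 3) (List.replicate z.2 z.1)) →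
          Al (c / 3) (ex B') := by
        intro B'
        induction B' with
        | nil => exact fun _ => Al.nil (by positivity)
        | cons z B' ih =>
          intro h
          rw [ex_cons]
          exact Al.append (by positivity) (h z (List.mem_cons_self))
            (ih fun z hz => h z (List.mem_cons_of_mem _ hz))
      have h1 := hall B hblk
      exact ⟨h1.pos, ⟨0, h1.fill 0⟩⟩
    · refine assemble hm0 hB ?_ hc hsq fun h => ?_
      · have e1 : (B.map fun z => if 2 * m < z.1 then cost m z else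
            if z.1 ≤ m ∧ ¬ Poor m z then 0 else cost0 m z).sum = 0 := by
          refine List.sum_eq_zero fun x hx => ?_
          obtain ⟨z, hz, rfl⟩ := List.mem_map.1 hx
          have := hnp z hz
          unfold cost cost0
          simp [this]
        rw [e1, zero_add]
        have h3 := le_sum_map (f := fun z => if z.1 ≤ m ∧ ¬ Poor m z then (z.2 : ℝ) * z.1 ^ 2
          else 0) (fun z => by
            split_ifs
            · positivity
            · exact le_rfl) hz₀
        rw [if_pos ⟨hm.ge, hnp z₀ hz₀⟩] at h3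
        exact (hm96 z₀ hz₀).trans h3
      · by_contra hcon
        push Not at hcon
        exact hdir ⟨h, hcon⟩

/-! ### Functions -/

theorem TF_list {ι : Type} [Fintype ι] {L : ι → ℝ} {l : List ℝ}
    (h : (l : Multiset ℝ) = Finset.univ.val.map L) {s μ c : ℝ} (hF : TF s μ l.get c) :
    TF s μ L c := by
  let ε : Fin (Fintype.card ι) ≃ ι := (Fintype.equivFin ι).symm
  have h1 : (l : Multiset ℝ) = (List.ofFn (fun k => L (ε k)) : List ℝ) := by
    rw [h, ← Fin.univ_val_map, ← Finset.map_univ_equiv ε, Finset.map_val, Multiset.map_map]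
    rfl
  have h2 := TF_perm (Multiset.coe_eq_coe.1 h1) hF
  have h3 := h2.equiv (finCongr (List.length_ofFn (f := fun k => L (ε k))).symm)
  have e : (fun j => (List.ofFn fun k => L (ε k)).get
      ((finCongr (List.length_ofFn (f := fun k => L (ε k))).symm) j)) = fun k => L (ε k) := by
    funext j
    simp
  rw [e] at h3
  have h4 := h3.equiv ε.symm
  simpa using h4

/-- the number of `i` with `x i = w` -/
noncomputable def mult {n : ℕ} (x : Fin n → ℝ) (w : ℝ) : ℕ :=
  (Finset.univ.filter fun i => x i = w).card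

/-- the distinct nonzero values of `x` -/
noncomputable def values {n : ℕ} (x : Fin n → ℝ) : Finset ℝ := (Finset.univ.image x).erase 0

/-- `Rare x M w`: with `m = max w M`, the sum of the squares of the coefficients `x i = w` is
smaller than `96 m ^ 2`; for `w ≥ M` this means that `w` is attained less than `96` times. -/
def Rare {n : ℕ} (x : Fin n → ℝ) (M w : ℝ) : Prop :=
  (mult x w : ℝ) * w ^ 2 < 96 * max w M ^ 2

noncomputable instance {n : ℕ} (x : Fin n → ℝ) (M : ℝ) : DecidablePred (Rare x M) :=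
  fun _ => Real.decidableLT _ _

theorem mem_values {n : ℕ} {x : Fin n → ℝ} {w : ℝ} :
    w ∈ values x ↔ w ≠ 0 ∧ ∃ i, x i = w := by
  unfold values
  simp

theorem coe_ex (B : List (ℝ × ℕ)) :
    (ex B : Multiset ℝ) = (B.map fun z => Multiset.replicate z.2 z.1).sum := by
  induction B with
  | nil => rfl
  | cons z B ih =>
    rw [ex_cons, List.map_cons, List.sum_cons, ← ih, ← Multiset.coe_add, Multiset.coe_replicate]

theorem count_eq {n : ℕ} (x : Fin n → ℝ) :
    (ex ((values x).toList.map fun w => (w, mult x w)) : Multiset ℝ) =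
      (Finset.univ : Finset {i // x i ≠ 0}).val.map fun i => x i.1 := by
  classical
  rw [coe_ex, List.map_map, Finset.sum_map_toList]
  ext v
  rw [Multiset.count_sum']
  simp only [Function.comp, Multiset.count_replicate]
  rw [Finset.sum_ite_eq', Multiset.count_map]
  have h1 : (Multiset.filter (fun a : {i // x i ≠ 0} => v = x a.1) Finset.univ.val).card =
      (Finset.univ.filter fun a : {i // x i ≠ 0} => v = x a.1).card := rfl
  rw [h1]
  split_ifs with hv
  · have hv0 := (mem_values.1 hv).1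
    unfold mult
    refine Finset.card_bij' (fun i hi => ⟨i, by rw [(Finset.mem_filter.1 hi).2]; exact hv0⟩)
      (fun a _ => a.1) ?_ ?_ ?_ ?_
    · intro i hi
      rw [Finset.mem_filter] at hi ⊢
      exact ⟨Finset.mem_univ _, hi.2.symm⟩
    · intro a ha
      rw [Finset.mem_filter] at ha ⊢
      exact ⟨Finset.mem_univ _, ha.2.symm⟩
    · intro i _
      rfl
    · intro a _
      rfl
  · symm
    rw [Finset.card_eq_zero, Finset.filter_eq_empty_iff]
    intro a _ ha
    apply hv
    rw [mem_values]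
    exact ⟨by rw [ha]; exact a.2, a.1, ha.symm⟩

theorem sum_values {n : ℕ} (x : Fin n → ℝ) (g : ℝ → ℝ) (hg : g 0 = 0) :
    ∑ w ∈ values x, (mult x w : ℝ) * g w = ∑ i, g (x i) := by
  classical
  have h1 : ∑ i, g (x i) = ∑ w ∈ Finset.univ.image x, (mult x w : ℝ) * g w := by
    rw [← Finset.sum_fiberwise_of_maps_to (g := x) (t := Finset.univ.image x)
      (fun i _ => Finset.mem_image_of_mem x (Finset.mem_univ i))]
    refine Finset.sum_congr rfl fun w _ => ?_
    rw [Finset.sum_congr rfl fun i hi => by rw [(Finset.mem_filter.1 hi).2], Finset.sum_const,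
      nsmul_eq_mul]
    rfl
  rw [h1]
  unfold values
  refine Finset.sum_subset (Finset.erase_subset _ _) fun w hw hw' => ?_
  have : w = 0 := by
    by_contra h
    exact hw' (Finset.mem_erase.2 ⟨h, hw⟩)
  rw [this, hg, mul_zero]

/-- the main theorem for functions -/
theorem mostly {n : ℕ} (x : Fin n → ℝ) (hx : ∀ i, 0 ≤ x i) {M : ℝ} (hM : 0 < M)
    (hyp : ∑ w ∈ (values x).filter (Rare x M), 384 * max w M ^ 2 ≤
      ∑ i ∈ Finset.univ.filter (fun i => x i ≤ M), x i ^ 2) (hne : ∃ i, x i ≠ 0) :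
    ∃ μ, TF 9 μ (fun i : {i // x i ≠ 0} => x i.1) (√(∑ i, x i ^ 2) / 3) := by
  classical
  obtain ⟨i₀, hi₀⟩ := hne
  obtain ⟨Q, hQ⟩ : ∃ Q, Q = ∑ i, x i ^ 2 := ⟨_, rfl⟩
  have hQ0 : 0 < Q := by
    rw [hQ]
    refine Finset.sum_pos' (fun i _ => sq_nonneg _) ⟨i₀, Finset.mem_univ _, ?_⟩
    positivity
  obtain ⟨B, hB⟩ : ∃ B, B = (values x).toList.map fun w => (w, mult x w) := ⟨_, rfl⟩
  have hmem : ∀ z ∈ B, z.1 ∈ values x ∧ z.2 = mult x z.1 := by
    intro z hz
    rw [hB, List.mem_map] at hz
    obtain ⟨w, hw, rfl⟩ := hz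
    exact ⟨Finset.mem_toList.1 hw, rfl⟩
  have hsumB : ∀ g : ℝ × ℕ → ℝ, (B.map g).sum = ∑ w ∈ values x, g (w, mult x w) := by
    intro g
    rw [hB, List.map_map, Finset.sum_map_toList]
    rfl
  have hpos : ∀ z ∈ B, 0 < z.1 ∧ 1 ≤ z.2 := by
    intro z hz
    obtain ⟨h1, h2⟩ := hmem z hz
    obtain ⟨h3, i, hi⟩ := mem_values.1 h1
    refine ⟨lt_of_le_of_ne (by rw [← hi]; exact hx i) (Ne.symm h3), ?_⟩
    rw [h2]
    exact Finset.card_pos.2 ⟨i, by rw [Finset.mem_filter]; exact ⟨Finset.mem_univ _, hi⟩⟩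
  have hB0 : B ≠ [] := by
    intro h
    have h1 : x i₀ ∈ values x := mem_values.2 ⟨hi₀, i₀, rfl⟩
    have h2 : (x i₀, mult x (x i₀)) ∈ B := by
      rw [hB, List.mem_map]
      exact ⟨x i₀, Finset.mem_toList.2 h1, rfl⟩
    rw [h] at h2
    exact List.not_mem_nil h2
  have har : ar (ex B) = Q := by
    rw [ar_ex, hsumB, hQ]
    exact sum_values x (fun t => t ^ 2) (by norm_num)
  have hc0 : 0 < √Q := Real.sqrt_pos.2 hQ0
  have h1 := blocks_one hM hpos hB0 (by
    rw [hsumB, hsumB]
    have e1 : ∑ w ∈ values x, (if Poor M (w, mult x w) then 384 * max w M ^ 2 else 0) =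
        ∑ w ∈ (values x).filter (Rare x M), 384 * max w M ^ 2 := by
      rw [Finset.sum_filter]
      exact Finset.sum_congr rfl fun w _ => by
        congr 1
    have e2 : ∑ w ∈ values x, (if w ≤ M then (mult x w : ℝ) * w ^ 2 else 0) =
        ∑ i ∈ Finset.univ.filter (fun i => x i ≤ M), x i ^ 2 := by
      rw [Finset.sum_filter, ← sum_values x (fun t => if t ≤ M then t ^ 2 else 0) (by simp)]
      refine Finset.sum_congr rfl fun w _ => ?_
      split_ifs
      · rfl
      · simp
    simp only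
    rw [e1, e2]
    exact hyp) hc0 (by rw [har, Real.sq_sqrt hQ0.le])
  obtain ⟨μ, hμ⟩ := h1.fill
  have e9 : ar (ex B) / (√Q / 3) ^ 2 = 9 := by
    rw [har, div_pow, Real.sq_sqrt hQ0.le]
    field_simp
    norm_num
  rw [e9] at hμ
  rw [← hQ]
  refine ⟨μ, TF_list ?_ hμ⟩
  rw [hB]
  exact count_eq x

end Pool.Agent.U656.NC
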