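import Pool.Agent.TH207.NC.Rare

/-! A group of squares in the corner of a triangle of the full height; repeated weights with total
area at least one. -/

set_option autoImplicit false

namespace Pool.Agent.U656.NC

open Finset Pool.Agent.TH176.Nag Pool.Agent.TH207.NC
open Pool.Agent.H350R3 Pool.Agent.H350R3.GR

/-- a system that fills a triangle of slope sum `t` is absorbed, at the scale `x ≤ 1`, into the
left corner of a triangle with left slope `t x`; the rest has a vertical diagonal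
(`Emp_second`) -/
theorem group {ι κ : Type} [Fintype ι] [Fintype κ] {s μ c x t : ℝ} {L : ι → ℝ} {L' : κ → ℝ}
    (hs : 0 < s) (ht : 0 ≤ t) (hc : 0 < c) (hx : 0 < x) (hx1 : x ≤ 1) (hq : t * x = μ) (h2 : μ ≤ s)
    (h' : TF t μ L' (c * x)) (h : TF (s - t * x ^ 2) (μ * (1 - x)) L c) :
    TF s μ (Sum.elim L' L) c := by
  intro α β w hw
  rw [Fintype.sum_sum_type] at hw
  simp only [Sum.elim_inl, Sum.elim_inr] at hw
  have hcx : 0 < c * x := mul_pos hc hx
  have key := h'.absorb (w := fun i => w (Sum.inr i)) hcx (fun i => w (Sum.inl i)) (α := α)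
    (β := β) (ν := s - μ) (by linarith) ?_
  · have e : Sum.elim (fun i => w (Sum.inl i)) (fun i => w (Sum.inr i)) = w := by
      funext i
      rcases i with i | i <;> rfl
    rwa [e] at key
  obtain ⟨B, hB⟩ : ∃ B : ℝ, B = (∑ i, L' i * (w (Sum.inl i) : ℝ)) / (c * x) := ⟨_, rfl⟩
  rw [← hB]
  have hB' : ∑ i, L' i * (w (Sum.inl i) : ℝ) = c * x * B := by
    rw [hB, mul_div_assoc', mul_div_cancel_left₀ _ hcx.ne']
  rw [hB'] at hw
  refine Emp_second (x := x) (k := t) 1 0 isCoprime_one_left (by norm_num) ht hx.le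
    (by push_cast; linarith) (by push_cast; exact hx1) (by push_cast; linarith) ?_
  have e1 : (1 - x) * (t * x) = μ * (1 - x) := by rw [hq]; ring
  have e2 : (1 : ℝ) * (1 * (μ + (s - μ)) - t * x) = s - t * x ^ 2 - μ * (1 - x) := by
    rw [← hq]; ring
  push_cast
  rw [e1, e2]
  apply h
  have e3 : c * (1 * β - (1 * α + x * B)) = c * (β - α) - c * x * B := by ring
  rw [e3]
  linarith

/-- equal squares in a row of the full height -/
theorem row {ι : Type} [Fintype ι] {w : ℝ} (hw : 0 < w) (μ : ℝ) :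
    TF (Fintype.card ι) μ (fun _ : ι => w) w := by
  rcases isEmpty_or_nonempty ι with hE | hne
  · rw [Fintype.card_eq_zero, Nat.cast_zero]
    exact TF.nil hw _
  · have h1 := (TF.points (ι := ι) Fintype.card_pos μ).scale hw
    simpa using h1

/-- every weight is attained at least `144` times, or all are equal and there are at least `36` -/
def Rich {ι : Type} [Fintype ι] (L : ι → ℝ) : Prop :=
  Rep 144 L ∨ 36 ≤ Fintype.card ι ∧ ∀ i j, L i = L j

/-- flattening a triangle of slope sum in `[1, 3 / 2]` to half of the height -/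
theorem half {ι : Type} [Fintype ι] {L : ι → ℝ} {A σ : ℝ} (hA : 0 < A) (h1 : A ^ 2 ≤ σ)
    (h : TF (σ / (A / 2) ^ 2) 2 L (A / 2)) (μ : ℝ) : TF (σ / A ^ 2) μ L A := by
  obtain ⟨δ, hδ⟩ : ∃ δ, δ = σ / A ^ 2 := ⟨_, rfl⟩
  have hA2 : 0 < A ^ 2 := by positivity
  have hδ1 : 1 ≤ δ := by
    rw [hδ, le_div_iff₀ hA2]
    linarith
  have hδ0 : 0 < δ := by linarith
  rw [← hδ]
  apply TF.univ hδ1
  have h5 : TF (1 / δ) (1 / δ * (2 * δ)) L (A / 2 * (2 * δ)) := by
    apply TF.flat (by positivity) (by linarith)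
    have e1 : 1 / δ * (2 * δ) ^ 2 = σ / (A / 2) ^ 2 := by
      have e0 : 1 / δ * (2 * δ) ^ 2 = 4 * δ := by field_simp; ring
      rw [e0, hδ]
      field_simp
      ring
    have e2 : 1 / δ * (2 * δ) = 2 := by field_simp
    rw [e1, e2]
    exact h
  have h6 := h5.shift (-2)
  have e3 : 1 / δ * (2 * δ) + ((-2 : ℤ) : ℝ) = 0 := by
    have e2 : 1 / δ * (2 * δ) = 2 := by field_simp
    rw [e2]
    norm_num
  have e4 : A / 2 * (2 * δ) = A * δ := by ring
  rw [e3, e4] at h6
  have h7 := TF.apex (μ := 0) hδ0 h6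
  rwa [mul_div_assoc, div_self hδ0.ne', mul_one] at h7

/-- rich systems of total area between `A ^ 2` and `9 A ^ 2`, on triangles of arbitrary slopes -/
theorem dust {ι : Type} [Fintype ι] {L : ι → ℝ} (hL : ∀ i, 0 < L i) (hR : Rich L) {A : ℝ}
    (hA : 0 < A) (h1 : A ^ 2 ≤ ∑ i, L i ^ 2) (h9 : ∑ i, L i ^ 2 ≤ 9 * A ^ 2) (μ : ℝ) :
    TF ((∑ i, L i ^ 2) / A ^ 2) μ L A := by
  rcases hR with hR | ⟨hc, hR⟩
  · have hR' : Rep 96 L := fun i => by
      obtain ⟨S, hS, hS'⟩ := hR i
      exact ⟨S, by omega, hS'⟩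
    have hge : ∀ i, 144 * L i ^ 2 ≤ ∑ i, L i ^ 2 := fun i => by
      have := sum_ge_of_rep hR i
      exact_mod_cast this
    have h4 : ∀ i, 4 * L i ≤ A := fun i => by
      have h2 := hge i
      have h3 := hL i
      nlinarith
    rcases le_or_gt (3 * A ^ 2) (2 * ∑ i, L i ^ 2) with h32 | h32
    · exact TF.dust le_rfl hL hR' hA h4 h32 μ
    · have h8 : ∀ i, 4 * L i ≤ A / 2 := fun i => by
        have h2 := hge i
        have h3 := hL i
        nlinarith
      exact half hA h1 (TF.dust le_rfl hL hR' (A := A / 2) (by positivity) h8 (by nlinarith) 2) μ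
  · have hne : Nonempty ι := Fintype.card_pos_iff.1 (by omega)
    obtain ⟨i₀⟩ := hne
    obtain ⟨v, hv⟩ : ∃ v, v = L i₀ := ⟨_, rfl⟩
    have hLv : L = fun _ => v := by
      funext i
      rw [hv]
      exact hR i i₀
    have hv0 : 0 < v := by rw [hv]; exact hL i₀
    have hs : ∑ i, L i ^ 2 = Fintype.card ι * v ^ 2 := by
      rw [hLv]
      simp
    rw [hs] at h1 h9 ⊢
    rw [hLv]
    have hc' : (36 : ℝ) ≤ Fintype.card ι := by exact_mod_cast hc
    have hge : 36 * v ^ 2 ≤ Fintype.card ι * v ^ 2 := mul_le_mul_of_nonneg_right hc' (sq_nonneg _)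
    rcases le_or_gt (3 * A ^ 2) (2 * (Fintype.card ι * v ^ 2)) with h32 | h32
    · exact TF.block (by omega) hv0 (by nlinarith) h32 μ
    · exact half hA h1 (TF.block (by omega) hv0 (by nlinarith) (by nlinarith) 2) μ

/-- the plane: squares with a third of the side, squares with ANY side up to a third of the side,
of total base at most `9 a` and total area at most `8 a ^ 2`, and a rich system -/
theorem plane8 {κ κ' ι : Type} [Fintype κ] [Fintype κ'] [Fintype ι] {a x : ℝ}
    (ha : 0 < a) (hx : 0 < x) (hxa : x ≤ a)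
    (h8 : Fintype.card κ * a + Fintype.card κ' * x ≤ 9 * a)
    {L : ι → ℝ} (hL : ∀ i, 0 < L i) (hR : Rich L) (h1 : a ^ 2 ≤ ∑ i, L i ^ 2)
    (hsum : Fintype.card κ * a ^ 2 + (Fintype.card κ' * x ^ 2 + ∑ i, L i ^ 2) = 9 * a ^ 2) :
    ∃ μ, TF 9 μ (Sum.elim (fun _ : κ => a) (Sum.elim (fun _ : κ' => x) L)) a := by
  obtain ⟨j, hj⟩ : ∃ j : ℝ, j = Fintype.card κ := ⟨_, rfl⟩
  obtain ⟨k, hk⟩ : ∃ k : ℝ, k = Fintype.card κ' := ⟨_, rfl⟩
  have hj0 : 0 ≤ j := by rw [hj]; positivity
  have hk0 : 0 ≤ k := by rw [hk]; positivity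
  rw [← hj, ← hk] at hsum h8
  obtain ⟨σ, hσ⟩ : ∃ σ, σ = ∑ i, L i ^ 2 := ⟨_, rfl⟩
  have ha2 : 0 < a ^ 2 := by positivity
  have hkx0 : 0 ≤ k * x ^ 2 := by positivity
  have hj8 : j ≤ 8 := by
    have : j * a ^ 2 ≤ 8 * a ^ 2 := by linarith
    exact le_of_mul_le_mul_right this ha2
  have hσ9 : σ ≤ 9 * a ^ 2 := by
    have h1 : 0 ≤ j * a ^ 2 := by positivity
    rw [hσ]
    linarith
  have hd := fun μ => dust hL hR ha h1 (by rw [← hσ]; exact hσ9) μ
  rw [← hσ] at hd hsum
  obtain ⟨y, hy⟩ : ∃ y, y = x / a := ⟨_, rfl⟩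
  have hy0 : 0 < y := by rw [hy]; positivity
  have hy1 : y ≤ 1 := by
    rw [hy, div_le_one ha]
    exact hxa
  have hay : a * y = x := by
    rw [hy]
    field_simp
  have hky : k * y ≤ 9 - j := by
    have h2 : a * (k * y) = k * x := by
      rw [← hay]
      ring
    have h3 : a * (k * y) ≤ a * (9 - j) := by
      rw [h2]
      linarith
    exact le_of_mul_le_mul_left h3 ha
  -- the group of the squares with side `x`
  have h1 : TF (9 - j) (k * y) (Sum.elim (fun _ : κ' => x) L) a := by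
    refine group (t := k) (x := y) (by linarith) hk0 ha hy0 hy1 rfl hky ?_ ?_
    · rw [hay, hk]
      exact row hx _
    · have e : 9 - j - k * y ^ 2 = σ / a ^ 2 := by
        rw [hy, eq_div_iff ha2.ne']
        field_simp
        linarith
      rw [e]
      exact hd _
  -- the row of the squares with side `a`
  refine ⟨k * y + j, ?_⟩
  have h2 := TF.add (s := 9 - j) (t := j) (μ := k * y) (by linarith) ha
    (L' := fun _ : κ => a) (by rw [hj]; exact row ha _) h1
  rwa [sub_add_cancel] at h2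

end Pool.Agent.U656.NC
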