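import Pool.Agent.H350R3.GR.Glue
import Pool.Agent.H350R3.GR.Beta
import Pool.Agent.R355.ConeAct
import Pool.Agent.U656.NC.Group

/-! From triangles to the cone of curves at generic points. -/

set_option autoImplicit false

namespace Pool.Agent.U656.NC

open Pool.Agent.TH167 Pool.Agent.R355.ConeAct Pool.Agent.TH207.NC
open Pool.Agent.H932R2 Pool.Agent.H932R3 Pool.Agent.H350R3 Pool.Agent.H350R3.GR

theorem deh_mem {p : Fin 2 → ℂ} {G : MvPolynomial (Fin 3) ℂ} {m : ℕ}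
    (h : G ∈ SHDefs.pt p ^ m) :
    deh ℂ G ∈ Pool.Agent.H932R2.cIdeal (fun _ : Fin 1 => p 0) (Polynomial.C (p 1)) m := by
  have h3 := Ideal.mem_map_of_mem (deh ℂ) h
  rw [Ideal.map_pow] at h3
  have h4 : Ideal.map (deh ℂ) (SHDefs.pt p) = Ideal.span
      {Polynomial.X - Polynomial.C (Polynomial.C (p 1)),
        Polynomial.C (Pool.Agent.H932R2.rootPoly (fun _ : Fin 1 => p 0))} := by
    unfold SHDefs.pt
    rw [Ideal.map_span, Set.image_pair, Set.pair_comm]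
    have hC : ∀ a : ℂ, deh ℂ (MvPolynomial.C a) = Polynomial.C (Polynomial.C a) :=
      fun a => (deh ℂ).commutes a
    have e0 : deh ℂ (MvPolynomial.X 0 - MvPolynomial.C (p 0) * MvPolynomial.X 2) =
        Polynomial.C (Pool.Agent.H932R2.rootPoly (fun _ : Fin 1 => p 0)) := by
      unfold Pool.Agent.H932R2.rootPoly
      rw [map_sub, map_mul, hC, deh_X0, deh_X2, mul_one]
      simp
    have e1 : deh ℂ (MvPolynomial.X 1 - MvPolynomial.C (p 1) * MvPolynomial.X 2) =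
        Polynomial.X - Polynomial.C (Polynomial.C (p 1)) := by
      rw [map_sub, map_mul, hC, deh_X1, deh_X2, mul_one]
    rw [e0, e1]
  rw [h4] at h3
  exact h3

/-- every system that fills the plane satisfies the inequality for the irreducible curves through
`P` -/
def Fills {n : ℕ} (P : Fin n → Fin 2 → ℂ) : Prop :=
  ∀ (ι : Type) [Fintype ι] (emb : ι → Fin n), Function.Injective emb → ∀ (y : ι → ℝ) (c : ℝ),
    (∃ μ, TF 9 μ y (c / 3)) → ∀ (G : MvPolynomial (Fin 3) ℂ) (d : ℕ) (w : Fin n → ℕ),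
      SHDefs.Curve P G d w → ∑ i, y i * (w (emb i) : ℝ) ≤ c * d

theorem noForm_ext {n r e : ℕ} {g : Fin r → Fin n} (hg : Function.Injective g) {m : Fin n → ℕ}
    {x : Fin r → Fin 2 → ℂ} (hx : NB.Emp (fun j => m (g j)) x e) :
    NoForm (ptJ (Function.extend g x 0) m) e := by
  refine (noForm_of_emp hx).anti ?_
  unfold ptJ vIdeal
  refine le_iInf fun j => ?_
  have h2 := iInf_le (fun a => Pool.Agent.H932R2.cIdeal
    (fun _ : Fin 1 => (Function.extend g x 0 : Fin n → Fin 2 → ℂ) a 0)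
    (Polynomial.C ((Function.extend g x 0 : Fin n → Fin 2 → ℂ) a 1)) (m a)) (g j)
  simp only [hg.extend_apply] at h2
  exact h2

theorem fills (n : ℕ) : ∃ f : ℕ → MvPolynomial (Fin n × Fin 2) ℂ, (∀ k, f k ≠ 0) ∧
    ∀ P : Fin n → Fin 2 → ℂ,
      (∀ k, MvPolynomial.eval (fun q : Fin n × Fin 2 => P q.1 q.2) (f k) ≠ 0) → Fills P := by
  classical
  obtain ⟨f, hf, hf'⟩ := exists_conds_all (K := ℂ) n
  refine ⟨f, hf, fun P hP ι _ emb hemb y c hTF G d w hG => ?_⟩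
  obtain ⟨μ, hμ⟩ := hTF
  let ε : Fin (Fintype.card ι) ≃ ι := (Fintype.equivFin _).symm
  have h1 := (hμ.equiv ε).nf
  have e3 : 3 * (c / 3) = c := by ring
  rw [e3] at h1
  by_contra hcon
  push Not at hcon
  have hg : Function.Injective fun k => emb (ε k) := hemb.comp ε.injective
  obtain ⟨x, hx⟩ := h1 (fun k => w (emb (ε k))) d (by
    rw [ε.sum_comp fun i => y i * (w (emb i) : ℝ)]
    exact hcon)
  refine hG.irreducible.ne_zero (hf' P hP d w ⟨_, noForm_ext hg hx⟩ G hG.homogeneous ?_)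
  unfold ptJ vIdeal
  rw [Ideal.mem_iInf]
  intro i
  exact deh_mem (hG.mult i).1

/-- two sequences of conditions -/
theorem two_conds {n : ℕ} {f g : ℕ → MvPolynomial (Fin n × Fin 2) ℂ} (hf : ∀ k, f k ≠ 0)
    (hg : ∀ k, g k ≠ 0) : ∃ h : ℕ → MvPolynomial (Fin n × Fin 2) ℂ, (∀ k, h k ≠ 0) ∧
      ∀ x : Fin n × Fin 2 → ℂ, (∀ k, MvPolynomial.eval x (h k) ≠ 0) →
        (∀ k, MvPolynomial.eval x (f k) ≠ 0) ∧ ∀ k, MvPolynomial.eval x (g k) ≠ 0 := by
  refine ⟨fun k => f k * g k, fun k => mul_ne_zero (hf k) (hg k), fun x hx => ⟨fun k h => ?_,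
    fun k h => ?_⟩⟩
  · apply hx k
    rw [map_mul, h, zero_mul]
  · apply hx k
    rw [map_mul, h, mul_zero]

/-- smaller nonnegative coefficients -/
theorem nef_anti {n : ℕ} {P : Fin n → Fin 2 → ℂ} {D D' : ℝ × (Fin n → ℝ)} (h1 : D.1 = D'.1)
    (h0 : ∀ j, 0 ≤ D.2 j) (h2 : ∀ j, D.2 j ≤ D'.2 j)
    (hD' : ∀ (G : MvPolynomial (Fin 3) ℂ) (d : ℕ) (w : Fin n → ℕ), SHDefs.Curve P G d w →
      ∑ j, D'.2 j * (w j : ℝ) ≤ D'.1 * d) : ∀ x ∈ curvCone P, 0 ≤ dot D x := by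
  refine nef_of_gen ?_
  rintro x (⟨G, d, w, hG, rfl⟩ | ⟨j, rfl⟩)
  · have h3 := hD' G d w hG
    unfold dot
    simp only
    have h4 : ∑ l, D.2 l * (w l : ℝ) ≤ ∑ l, D'.2 l * (w l : ℝ) :=
      Finset.sum_le_sum fun l _ => mul_le_mul_of_nonneg_right (h2 l) (Nat.cast_nonneg _)
    rw [h1]
    linarith
  · unfold dot
    simp only [mul_zero, zero_sub]
    rw [Finset.sum_eq_single j]
    · rw [Pi.single_eq_same]
      have := h0 j
      linarith
    · intro l _ hl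
      rw [Pi.single_eq_of_ne hl, mul_zero]
    · intro h
      exact absurd (Finset.mem_univ j) h

end Pool.Agent.U656.NC
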