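import Pool.Agent.U656.NC.Group
import Pool.Agent.TH366.RC.Fits

/-! Lists of squares which fill triangles of a given height and arbitrary slopes. -/

set_option autoImplicit false

namespace Pool.Agent.U656.NC

open Finset Pool.Agent.TH176.Nag Pool.Agent.TH207.NC
open Pool.Agent.H350R3 Pool.Agent.H350R3.GR

/-- total area -/
def ar (l : List ℝ) : ℝ := (l.map fun t => t ^ 2).sum

theorem ar_nil : ar [] = 0 := rfl

theorem ar_append (l l' : List ℝ) : ar (l ++ l') = ar l + ar l' := by
  simp [ar]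

theorem ar_replicate (n : ℕ) (w : ℝ) : ar (List.replicate n w) = n * w ^ 2 := by
  simp [ar]

theorem ar_perm {l l' : List ℝ} (h : l.Perm l') : ar l = ar l' := (h.map _).sum_eq

theorem ar_nonneg (l : List ℝ) : 0 ≤ ar l := by
  refine List.sum_nonneg fun x hx => ?_
  obtain ⟨t, -, rfl⟩ := List.mem_map.1 hx
  exact sq_nonneg t

theorem ar_pos {l : List ℝ} (h : ∀ t ∈ l, 0 < t) (hne : l ≠ []) : 0 < ar l := by
  cases l with
  | nil => exact absurd rfl hne
  | cons t l =>
    have h1 : ar (t :: l) = t ^ 2 + ar l := by simp [ar]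
    have h2 : 0 < t := h t (by simp)
    have h3 := ar_nonneg l
    rw [h1]
    positivity

/-- the squares with the sides `l` fill triangles of height `A` and arbitrary slopes -/
structure Al (A : ℝ) (l : List ℝ) : Prop where
  pos : ∀ t ∈ l, 0 < t
  fill : ∀ μ, TF (ar l / A ^ 2) μ l.get A

/-- the squares with the sides `l` fill triangles of height `A` and one slope -/
structure One (A : ℝ) (l : List ℝ) : Prop where
  pos : ∀ t ∈ l, 0 < t
  fill : ∃ μ, TF (ar l / A ^ 2) μ l.get A

theorem TF_perm {l l' : List ℝ} (h : l.Perm l') {s μ c : ℝ} (hF : TF s μ l.get c) :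
    TF s μ l'.get c := by
  obtain ⟨e, he⟩ := Pool.Agent.TH366.RC.perm_equiv h
  have h1 := hF.equiv e.symm
  have e1 : (fun j => l.get (e.symm j)) = l'.get := by
    funext j
    rw [← he, Equiv.apply_symm_apply]
  rwa [e1] at h1

theorem Al.perm {A : ℝ} {l l' : List ℝ} (hp : l.Perm l') (h : Al A l) : Al A l' :=
  ⟨fun t ht => h.pos t (hp.mem_iff.2 ht), fun μ => by rw [← ar_perm hp]; exact TF_perm hp (h.fill μ)⟩

theorem One.perm {A : ℝ} {l l' : List ℝ} (hp : l.Perm l') (h : One A l) : One A l' :=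
  ⟨fun t ht => h.pos t (hp.mem_iff.2 ht), by
    obtain ⟨μ, hμ⟩ := h.fill
    exact ⟨μ, by rw [← ar_perm hp]; exact TF_perm hp hμ⟩⟩

theorem TF_app {l l' : List ℝ} {s μ c : ℝ} (h : TF s μ (Sum.elim l.get l'.get) c) :
    TF s μ (l ++ l').get c := by
  have h1 := h.equiv (appE l l').symm
  have e : (fun j => Sum.elim l.get l'.get ((appE l l').symm j)) = (l ++ l').get := by
    funext j
    obtain ⟨i, rfl⟩ := (appE l l').surjective j
    rw [Equiv.symm_apply_apply, appE_get]
  rwa [e] at h1

theorem pos_app {l l' : List ℝ} (h : ∀ t ∈ l, 0 < t) (h' : ∀ t ∈ l', 0 < t) :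
    ∀ t ∈ l ++ l', 0 < t := fun t ht => (List.mem_append.1 ht).elim (h t) (h' t)

theorem Al.nil {A : ℝ} (hA : 0 < A) : Al A [] := by
  refine ⟨fun t ht => by simp at ht, fun μ => ?_⟩
  rw [ar_nil, zero_div]
  have : IsEmpty (Fin ([] : List ℝ).length) := by
    simp only [List.length_nil]
    infer_instance
  exact TF.nil hA _

theorem Al.append {A : ℝ} (hA : 0 < A) {l l' : List ℝ} (h : Al A l) (h' : Al A l') :
    Al A (l ++ l') := by
  rcases eq_or_ne l' [] with rfl | hne
  · rw [List.append_nil]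
    exact h
  refine ⟨pos_app h.pos h'.pos, fun μ => ?_⟩
  have h0 : 0 < ar l' := ar_pos h'.pos hne
  have h1 : 0 ≤ ar l := ar_nonneg l
  have hA2 : 0 < A ^ 2 := by positivity
  have h2 := TF.add (s := ar l' / A ^ 2) (t := ar l / A ^ 2) (μ := μ - ar l / A ^ 2) (by positivity)
    hA (h.fill _) (h'.fill _)
  rw [sub_add_cancel, ← add_div, add_comm (ar l'), ← ar_append] at h2
  exact TF_app h2

theorem get_replicate (n : ℕ) (w : ℝ) : (List.replicate n w).get = fun _ => w := by
  funext i
  simp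

theorem Al.block {n : ℕ} {w A : ℝ} (hn : 1 ≤ n) (hw : 0 < w) (hA : 2 * w ≤ A)
    (hn' : 3 * A ^ 2 ≤ 2 * (n * w ^ 2)) : Al A (List.replicate n w) := by
  refine ⟨fun t ht => by rw [List.eq_of_mem_replicate ht]; exact hw, fun μ => ?_⟩
  have hc : Fintype.card (Fin (List.replicate n w).length) = n := by simp
  have h1 := TF.block (ι := Fin (List.replicate n w).length) (w := w) (A := A)
    (by rw [hc]; exact hn) hw hA (by rw [hc]; exact hn') μ
  rw [hc] at h1
  rw [ar_replicate, get_replicate]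
  exact h1

theorem Al.row {n : ℕ} {w : ℝ} (hw : 0 < w) : Al w (List.replicate n w) := by
  refine ⟨fun t ht => by rw [List.eq_of_mem_replicate ht]; exact hw, fun μ => ?_⟩
  have hc : Fintype.card (Fin (List.replicate n w).length) = n := by simp
  have h1 := Pool.Agent.U656.NC.row (ι := Fin (List.replicate n w).length) hw μ
  rw [hc] at h1
  rw [ar_replicate, get_replicate]
  have e : (n : ℝ) * w ^ 2 / w ^ 2 = n := by field_simp
  rw [e]
  exact h1

/-- half of the height, one slope -/
theorem One.node {A : ℝ} (hA : 0 < A) {l : List ℝ} (h : One A l)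
    (h3 : 3 * (2 * A) ^ 2 ≤ 2 * ar l) : Al (2 * A) l := by
  refine ⟨h.pos, fun μ => ?_⟩
  obtain ⟨μ', hμ'⟩ := h.fill
  have h32 : 3 ≤ 2 * (ar l / (2 * A) ^ 2) := by
    rw [← mul_div_assoc, le_div_iff₀ (by positivity)]
    exact h3
  have e : 4 * (ar l / (2 * A) ^ 2) = ar l / A ^ 2 := by
    field_simp
    ring
  rw [← e] at hμ'
  exact hμ'.nodal h32 μ

/-- a smaller height, one slope -/
theorem Al.flat {A A' : ℝ} (hA' : 0 < A') (h : A' ≤ A) {l : List ℝ} (hl : Al A' l)
    (h0 : 0 < ar l) : One A l := by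
  refine ⟨hl.pos, ?_⟩
  have hA : 0 < A := by linarith
  obtain ⟨a, ha⟩ : ∃ a, a = A / A' := ⟨_, rfl⟩
  have ha1 : 1 ≤ a := by
    rw [ha, le_div_iff₀ hA']
    linarith
  have h1 : TF (ar l / A ^ 2) (ar l / A ^ 2 * a) l.get (A' * a) := by
    apply TF.flat (by positivity) ha1
    have e : ar l / A ^ 2 * a ^ 2 = ar l / A' ^ 2 := by
      rw [ha]
      field_simp
    rw [e]
    exact hl.fill _
  have e : A' * a = A := by
    rw [ha]
    field_simp
  rw [e] at h1
  exact ⟨_, h1⟩

/-- a rectangle of at most half of the height -/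
theorem Al.squeeze {A A' : ℝ} (hA' : 0 < A') (h : 2 * A' ≤ A) {l : List ℝ} (hl : Al A' l)
    (h3 : 3 * A ^ 2 ≤ 2 * ar l) : Al A l := by
  have hA : 0 < A := by linarith
  have h0 : 0 < ar l := by
    have : 0 < A ^ 2 := by positivity
    linarith
  have h1 := (hl.flat hA' (A := A / 2) (by linarith) h0).node (by linarith) (by
    have e : 2 * (A / 2) = A := by ring
    rw [e]
    exact h3)
  have e : 2 * (A / 2) = A := by ring
  rwa [e] at h1

/-- a rectangle in the corner: any rectangle of height at most `A / 2`, and a rectangle of height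
`A / 2` -/
theorem Al.host {A l : ℝ} (hA : 0 < A) (hl0 : 0 < l) (hl : 2 * l ≤ A) {g r : List ℝ}
    (hg : Al l g) (hr : Al (A / 2) r) (h32 : 3 * A ^ 2 ≤ 2 * (ar g + ar r))
    (hb : ar g * A ≤ 2 * l * (ar g + ar r)) : Al A (g ++ r) := by
  refine ⟨pos_app hg.pos hr.pos, fun μ => ?_⟩
  have hg0 := ar_nonneg g
  have hr0 := ar_nonneg r
  have hA2 : 0 < A ^ 2 := by positivity
  obtain ⟨δ, hδ⟩ : ∃ δ, δ = (ar g + ar r) / A ^ 2 := ⟨_, rfl⟩
  have hδ3 : 3 ≤ 2 * δ := by
    rw [hδ, ← mul_div_assoc, le_div_iff₀ hA2]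
    exact h32
  have h1 := group (s := 4 * δ) (c := A / 2) (x := 2 * l / A) (t := ar g / l ^ 2)
    (μ := ar g / l ^ 2 * (2 * l / A)) (L' := g.get) (L := r.get) (by linarith) (by positivity)
    (by positivity) (by positivity) (by rw [div_le_one hA]; exact hl) rfl (by
      rw [hδ]
      have e1 : ar g / l ^ 2 * (2 * l / A) = 2 * (ar g * A) / (l * A ^ 2) := by
        field_simp
      have e2 : 4 * ((ar g + ar r) / A ^ 2) = 2 * (2 * l * (ar g + ar r)) / (l * A ^ 2) := by
        field_simp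
        ring
      rw [e1, e2]
      apply div_le_div_of_nonneg_right _ (by positivity)
      linarith) (by
      have e : A / 2 * (2 * l / A) = l := by field_simp
      rw [e]
      exact hg.fill _) (by
      have e : 4 * δ - ar g / l ^ 2 * (2 * l / A) ^ 2 = ar r / (A / 2) ^ 2 := by
        rw [hδ]
        field_simp
        ring
      rw [e]
      exact hr.fill _)
  have h2 := h1.nodal hδ3 μ
  have e : 2 * (A / 2) = A := by ring
  rw [e, hδ, ← ar_append] at h2
  exact TF_app h2

/-- a rectangle of the same height, and a rectangle whose height is an integral part of it -/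
theorem One.stack {A : ℝ} (hA : 0 < A) {u : ℕ} (hu : 1 ≤ u) {g r : List ℝ} (hg : Al A g)
    (hr : Al (A / u) r) (h0 : 0 < ar g + ar r) : One A (g ++ r) := by
  refine ⟨pos_app hg.pos hr.pos, ?_⟩
  have hg0 := ar_nonneg g
  have hr0 := ar_nonneg r
  have hA2 : 0 < A ^ 2 := by positivity
  have hu0 : (0 : ℝ) < u := by exact_mod_cast hu
  obtain ⟨c, hc⟩ : ∃ c, c = A / u := ⟨_, rfl⟩
  have hcu : c * u = A := by
    rw [hc]
    field_simp
  have hc0 : 0 < c := by rw [hc]; positivity
  rw [← hc] at hr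
  have key := TF.first (s := (ar g + ar r) / A ^ 2) (μ := (ar g + ar r) / A ^ 2 - 1 / u) (c := c)
    (a := u) (t := ar g / A ^ 2) (L := r.get) (L' := g.get) (by positivity) (by positivity)
    (u : ℤ) 1 isCoprime_one_right (Int.natCast_nonneg u) (by rw [Int.cast_natCast, hcu]; exact hA)
    (by
      rw [Int.cast_natCast, Int.cast_one]
      field_simp
      ring) (by rw [Int.cast_natCast]) (by
      rw [Int.cast_natCast, mul_comm ((ar g + ar r) / A ^ 2)]
      refine mul_le_mul_of_nonneg_left ?_ hu0.le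
      apply div_le_div_of_nonneg_right _ hA2.le
      linarith) (by rw [Int.cast_natCast, hcu]; exact hg.fill _) (by
      rw [Int.cast_natCast]
      have e3 : (ar g + ar r) / A ^ 2 * (u : ℝ) ^ 2 - ar g / A ^ 2 * (u : ℝ) ^ 2 =
          ar r / c ^ 2 := by
        rw [← hcu]
        field_simp
        ring
      rw [e3]
      exact hr.fill _)
  rw [hcu, ← ar_append] at key
  exact ⟨_, TF_app key⟩

end Pool.Agent.U656.NC
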