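import Pool.Agent.U656.NC.Al

/-! Blocks of equal squares, bricks, piles and tubes. -/

set_option autoImplicit false

namespace Pool.Agent.U656.NC

/-- the squares of a list of blocks: `z.2` squares with the side `z.1` for every `z` -/
def ex (B : List (ℝ × ℕ)) : List ℝ := B.flatMap fun z => List.replicate z.2 z.1

theorem ex_nil : ex [] = [] := rfl

theorem ex_cons (z : ℝ × ℕ) (B : List (ℝ × ℕ)) :
    ex (z :: B) = List.replicate z.2 z.1 ++ ex B := by
  simp [ex]

theorem ex_append (B B' : List (ℝ × ℕ)) : ex (B ++ B') = ex B ++ ex B' := by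
  simp [ex]

theorem ar_ex (B : List (ℝ × ℕ)) : ar (ex B) = (B.map fun z => (z.2 : ℝ) * z.1 ^ 2).sum := by
  induction B with
  | nil => simp [ex_nil, ar_nil]
  | cons z B ih => rw [ex_cons, ar_append, ar_replicate, ih, List.map_cons, List.sum_cons]

theorem ex_perm {B B' : List (ℝ × ℕ)} (h : B.Perm B') : (ex B).Perm (ex B') :=
  h.flatMap_right _

theorem ex_pos {B : List (ℝ × ℕ)} (h : ∀ z ∈ B, 0 < z.1) : ∀ t ∈ ex B, 0 < t := by
  intro t ht
  obtain ⟨z, hz, ht'⟩ := List.mem_flatMap.1 ht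
  rw [List.eq_of_mem_replicate ht']
  exact h z hz

/-- rearranging four parts -/
theorem perm4 (a b c d : List ℝ) : ((a ++ b) ++ (c ++ d)).Perm ((a ++ c) ++ (b ++ d)) := by
  rw [← Multiset.coe_eq_coe]
  simp only [← Multiset.coe_add]
  abel

/-- a block of moderate area of small squares -/
structure Brick (M : ℝ) (z : ℝ × ℕ) : Prop where
  pos : 0 < z.1
  le : z.1 ≤ M
  one : 1 ≤ z.2
  ge : 24 * M ^ 2 ≤ (z.2 : ℝ) * z.1 ^ 2
  lt : (z.2 : ℝ) * z.1 ^ 2 < 49 * M ^ 2

theorem exists_bricks {M : ℝ} (hM : 0 < M) {y : ℝ} (h0 : 0 < y) (hy : y ≤ M) (n : ℕ) :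
    24 * M ^ 2 ≤ (n : ℝ) * y ^ 2 →
      ∃ K : List (ℝ × ℕ), (∀ b ∈ K, Brick M b) ∧ ex K = List.replicate n y := by
  induction n using Nat.strong_induction_on with
  | _ n ih =>
    intro h24
    have hM2 : 0 < M ^ 2 := by positivity
    have hy2 : 0 < y ^ 2 := by positivity
    have hyM : y ^ 2 ≤ M ^ 2 := pow_le_pow_left₀ h0.le hy 2
    have hn1 : 1 ≤ n := by
      by_contra h
      have : n = 0 := by omega
      rw [this, Nat.cast_zero, zero_mul] at h24
      linarith
    rcases lt_or_ge ((n : ℝ) * y ^ 2) (49 * M ^ 2) with h49 | h49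
    · refine ⟨[(y, n)], fun b hb => ?_, by simp [ex]⟩
      rw [List.mem_singleton.1 hb]
      exact ⟨h0, hy, hn1, h24, h49⟩
    · obtain ⟨q, hq⟩ : ∃ q : ℕ, q = ⌈24 * M ^ 2 / y ^ 2⌉₊ := ⟨_, rfl⟩
      have hq1 : 24 * M ^ 2 ≤ q * y ^ 2 := by
        have := Nat.le_ceil (24 * M ^ 2 / y ^ 2)
        rw [← hq, div_le_iff₀ hy2] at this
        exact this
      have hq2 : (q : ℝ) * y ^ 2 < 25 * M ^ 2 := by
        have h6 : (q : ℝ) < 24 * M ^ 2 / y ^ 2 + 1 := by
          rw [hq]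
          exact Nat.ceil_lt_add_one (by positivity)
        have h7 : (q : ℝ) * y ^ 2 < (24 * M ^ 2 / y ^ 2 + 1) * y ^ 2 :=
          mul_lt_mul_of_pos_right h6 hy2
        have h8 : (24 * M ^ 2 / y ^ 2 + 1) * y ^ 2 = 24 * M ^ 2 + y ^ 2 := by
          field_simp
        linarith
      have hq0 : 1 ≤ q := by
        by_contra h
        have : q = 0 := by omega
        rw [this, Nat.cast_zero, zero_mul] at hq1
        linarith
      have hqn : q < n := by
        have h6 : (q : ℝ) * y ^ 2 < n * y ^ 2 := by linarith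
        have h7 := lt_of_mul_lt_mul_right h6 hy2.le
        exact_mod_cast h7
      obtain ⟨K, hK, hK'⟩ := ih (n - q) (by omega) (by
        rw [Nat.cast_sub hqn.le, sub_mul]
        linarith)
      refine ⟨(y, q) :: K, fun b hb => ?_, ?_⟩
      · rcases List.mem_cons.1 hb with rfl | hb
        · exact ⟨h0, hy, hq0, hq1, by simp only; linarith⟩
        · exact hK b hb
      · rw [ex_cons, hK']
        simp only
        rw [← List.replicate_add]
        congr 1
        omega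

theorem exists_bricks_list {M : ℝ} (hM : 0 < M) (B : List (ℝ × ℕ))
    (hB : ∀ z ∈ B, 0 < z.1 ∧ z.1 ≤ M ∧ 24 * M ^ 2 ≤ (z.2 : ℝ) * z.1 ^ 2) :
    ∃ K : List (ℝ × ℕ), (∀ b ∈ K, Brick M b) ∧ ex K = ex B := by
  induction B with
  | nil => exact ⟨[], by simp, rfl⟩
  | cons z B ih =>
    obtain ⟨K, hK, hK'⟩ := ih fun z hz => hB z (List.mem_cons_of_mem _ hz)
    obtain ⟨h1, h2, h3⟩ := hB z (List.mem_cons_self)
    obtain ⟨K₀, hK₀, hK₀'⟩ := exists_bricks hM h1 h2 z.2 h3
    refine ⟨K₀ ++ K, fun b hb => ?_, by rw [ex_append, ex_cons, hK', hK₀']⟩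
    rcases List.mem_append.1 hb with hb | hb
    · exact hK₀ b hb
    · exact hK b hb

theorem pile4 {M h : ℝ} (hM : 0 < M) (h2 : 2 * M ≤ h) (h4 : h ≤ 4 * M) {K : List (ℝ × ℕ)}
    (hK : ∀ b ∈ K, Brick M b) : Al h (ex K) := by
  have hh : 0 < h := by linarith
  induction K with
  | nil => exact Al.nil hh
  | cons b K ih =>
    rw [ex_cons]
    have hb := hK b (List.mem_cons_self)
    refine Al.append hh (Al.block hb.one hb.pos (by have := hb.le; linarith) ?_)
      (ih fun b hb => hK b (List.mem_cons_of_mem _ hb))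
    have h5 : h ^ 2 ≤ (4 * M) ^ 2 := pow_le_pow_left₀ hh.le h4 2
    have := hb.ge
    nlinarith

/-- bricks fill triangles of all heights allowed by their total area -/
theorem pile {M h : ℝ} (hM : 0 < M) (h2 : 2 * M ≤ h) {K : List (ℝ × ℕ)}
    (hK : ∀ b ∈ K, Brick M b) (h3 : 3 * h ^ 2 ≤ 2 * ar (ex K)) : Al h (ex K) := by
  rcases le_or_gt h (4 * M) with h4 | h4
  · exact pile4 hM h2 h4 hK
  · exact (pile4 hM le_rfl (by linarith) hK).squeeze (by linarith) (by linarith) h3

/-- extracting a pile of given area -/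
theorem take_pile {M : ℝ} {K : List (ℝ × ℕ)} (hK : ∀ b ∈ K, Brick M b) :
    ∀ t : ℝ, 0 ≤ t → t ≤ ar (ex K) →
      ∃ K₁ K₂ : List (ℝ × ℕ), K = K₁ ++ K₂ ∧ t ≤ ar (ex K₁) ∧ ar (ex K₁) ≤ t + 49 * M ^ 2 := by
  induction K with
  | nil =>
    intro t ht0 ht
    refine ⟨[], [], rfl, ht, ?_⟩
    rw [ex_nil, ar_nil]
    positivity
  | cons b K ih =>
    intro t ht0 ht
    have hb := hK b (List.mem_cons_self)
    have hb1 := hb.lt
    have h1 : ar (ex [b]) = (b.2 : ℝ) * b.1 ^ 2 := by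
      rw [ar_ex]
      simp
    have h2 : ∀ K' : List (ℝ × ℕ), ar (ex (b :: K')) = (b.2 : ℝ) * b.1 ^ 2 + ar (ex K') := by
      intro K'
      rw [ex_cons, ar_append, ar_replicate]
    rcases le_or_gt t ((b.2 : ℝ) * b.1 ^ 2) with h | h
    · refine ⟨[b], K, rfl, by rw [h1]; exact h, ?_⟩
      rw [h1]
      linarith
    · rw [h2] at ht
      obtain ⟨K₁, K₂, h3, h4, h5⟩ := ih (fun b hb => hK b (List.mem_cons_of_mem _ hb))
        (t - (b.2 : ℝ) * b.1 ^ 2) (by linarith) (by linarith)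
      refine ⟨b :: K₁, K₂, by rw [h3]; rfl, ?_, ?_⟩
      · rw [h2]
        linarith
      · rw [h2]
        linarith

/-- a group of equal squares hosted by a pile -/
theorem tube {M A : ℝ} (hM : 0 < M) (hA : 4 * M ≤ A) {w : ℝ} {g : ℕ} (hw : 0 < w)
    (h2 : 2 * w ≤ A) (hg : 1 ≤ g) {K : List (ℝ × ℕ)} (hK : ∀ b ∈ K, Brick M b)
    (h3 : 3 * A ^ 2 ≤ 2 * ar (ex K)) : Al A (List.replicate g w ++ ex K) := by
  have hA0 : 0 < A := by linarith
  have hA2 : 0 < A ^ 2 := by positivity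
  have hg0 : (1 : ℝ) ≤ g := by exact_mod_cast hg
  obtain ⟨a, ha⟩ : ∃ a, a = (g : ℝ) * w ^ 2 := ⟨_, rfl⟩
  have ha0 : 0 < a := by rw [ha]; positivity
  have har : ar (List.replicate g w) = a := by rw [ar_replicate, ha]
  obtain ⟨k, hk⟩ : ∃ k, k = ar (ex K) := ⟨_, rfl⟩
  rcases le_or_gt (3 * A ^ 2) (2 * a) with hbig | hbig
  · exact Al.append hA0 (Al.block hg hw h2 (by rw [← ha]; exact hbig)) (pile hM (by linarith) hK h3)
  have hr : Al (A / 2) (ex K) := pile hM (by linarith) hK (by nlinarith)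
  have h32 : 3 * A ^ 2 ≤ 2 * (ar (List.replicate g w) + ar (ex K)) := by
    rw [har]
    linarith
  rw [← hk] at h3
  -- the row
  have hrow : (g : ℝ) * w * A ≤ 2 * (a + k) → Al A (List.replicate g w ++ ex K) := by
    intro h
    refine Al.host hA0 hw h2 (Al.row hw) hr h32 ?_
    rw [har, ← hk]
    have e : a * A = w * ((g : ℝ) * w * A) := by rw [ha]; ring
    rw [e]
    have := mul_le_mul_of_nonneg_left h hw.le
    linarith
  rcases le_or_gt ((g : ℝ) * w) (3 * A) with h4 | h4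
  · apply hrow
    have := mul_le_mul_of_nonneg_right h4 hA0.le
    nlinarith
  rcases lt_or_ge A (4 * w) with h5 | h5
  · apply hrow
    -- `g w < 6 A`
    have h6 : (g : ℝ) * w < 6 * A := by
      by_contra hcon
      push Not at hcon
      have h7 : 6 * A * w ≤ g * w * w := mul_le_mul_of_nonneg_right hcon hw.le
      have h8 : (g : ℝ) * w * w = a := by rw [ha]; ring
      nlinarith
    have h9 : (g : ℝ) * w * (A - 2 * w) ≤ 6 * A * (A / 2) := by
      refine mul_le_mul h6.le (by linarith) (by linarith) (by positivity)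
    have h10 : (g : ℝ) * w * (2 * w) = 2 * a := by rw [ha]; ring
    nlinarith
  · -- a block
    have hg12 : (12 : ℝ) < g := by
      by_contra hcon
      push Not at hcon
      have : (g : ℝ) * w ≤ 12 * w := mul_le_mul_of_nonneg_right hcon hw.le
      linarith
    rcases le_or_gt (8 * a) (3 * A ^ 2) with h6 | h6
    · obtain ⟨l, hl⟩ : ∃ l, l = √(2 / 3 * a) := ⟨_, rfl⟩
      have hl2 : l ^ 2 = 2 / 3 * a := by rw [hl]; exact Real.sq_sqrt (by positivity)
      have hl0 : 0 < l := by rw [hl]; exact Real.sqrt_pos.2 (by positivity)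
      have hlA : 2 * l ≤ A := by
        have : (2 * l) ^ 2 ≤ A ^ 2 := by
          rw [mul_pow, hl2]
          linarith
        exact (pow_le_pow_iff_left₀ (by positivity) hA0.le (by norm_num)).1 this
      have hwl : 2 * w ≤ l := by
        have h7 : (2 * w) ^ 2 ≤ l ^ 2 := by
          rw [mul_pow, hl2, ha]
          have : 12 * w ^ 2 ≤ g * w ^ 2 := mul_le_mul_of_nonneg_right hg12.le (sq_nonneg w)
          linarith
        exact (pow_le_pow_iff_left₀ (by positivity) hl0.le (by norm_num)).1 h7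
      refine Al.host hA0 hl0 hlA (Al.block hg hw hwl (by rw [hl2, ← ha]; linarith)) hr h32 ?_
      rw [har, ← hk]
      have e : a * A = 3 / 2 * l * (l * A) := by
        have : a = 3 / 2 * l ^ 2 := by rw [hl2]; ring
        rw [this]
        ring
      rw [e]
      have h8 : l * A ≤ A ^ 2 := by nlinarith
      have h9 : 3 / 2 * l * (l * A) ≤ 3 / 2 * l * A ^ 2 :=
        mul_le_mul_of_nonneg_left h8 (by positivity)
      have h10 : 3 / 2 * l * A ^ 2 ≤ 2 * l * (a + k) := by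
        have : 3 * A ^ 2 ≤ 2 * k := h3
        nlinarith
      linarith
    · refine Al.host hA0 (l := A / 2) (by positivity) (by linarith)
        (Al.block hg hw (by linarith) (by rw [← ha]; nlinarith)) hr h32 ?_
      rw [har, ← hk]
      have hk0 : 0 ≤ k := by rw [hk]; exact ar_nonneg _
      nlinarith

/-- groups of equal squares hosted by piles, and blocks of large area -/
theorem hosts {M A t : ℝ} (hM : 0 < M) (hA : 4 * M ≤ A) (ht : 3 * A ^ 2 ≤ 2 * t)
    (pr : ℝ × ℕ → Prop) [DecidablePred pr] (Z : List (ℝ × ℕ)) :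
    ∀ K : List (ℝ × ℕ), (∀ b ∈ K, Brick M b) →
      (∀ z ∈ Z, 0 < z.1 ∧ 2 * z.1 ≤ A ∧ 1 ≤ z.2 ∧
        (¬ pr z → 3 * A ^ 2 ≤ 2 * ((z.2 : ℝ) * z.1 ^ 2))) →
      (Z.map fun z => if pr z then t + 49 * M ^ 2 else 0).sum ≤ ar (ex K) →
      ∃ K₁ K₂ : List (ℝ × ℕ), K = K₁ ++ K₂ ∧ Al A (ex Z ++ ex K₁) ∧
        ar (ex K) ≤ ar (ex K₂) + (Z.map fun z => if pr z then t + 49 * M ^ 2 else 0).sum := by
  have hA0 : 0 < A := by linarith
  have ht0 : 0 ≤ t := by
    have : 0 < A ^ 2 := by positivity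
    linarith
  induction Z with
  | nil =>
    intro K hK _ _
    refine ⟨[], K, rfl, ?_, by simp⟩
    rw [ex_nil, List.append_nil]
    exact Al.nil hA0
  | cons z Z ih =>
    intro K hK hZ hcost
    obtain ⟨hz1, hz2, hz3, hz4⟩ := hZ z (List.mem_cons_self)
    have hZ' := fun z' hz' => hZ z' (List.mem_cons_of_mem z hz')
    have hnn : 0 ≤ (Z.map fun z => if pr z then t + 49 * M ^ 2 else 0).sum := by
      refine List.sum_nonneg fun x hx => ?_
      obtain ⟨z', -, rfl⟩ := List.mem_map.1 hx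
      split_ifs
      · positivity
      · exact le_rfl
    rw [List.map_cons, List.sum_cons] at hcost ⊢
    by_cases hp : pr z
    · rw [if_pos hp] at hcost ⊢
      obtain ⟨P, K', hKP, hP1, hP2⟩ := take_pile hK t ht0 (by
        have : 0 ≤ M ^ 2 := sq_nonneg M
        linarith)
      have hP : ∀ b ∈ P, Brick M b := fun b hb => hK b (by rw [hKP]; exact List.mem_append_left _ hb)
      have hK' : ∀ b ∈ K', Brick M b := fun b hb =>
        hK b (by rw [hKP]; exact List.mem_append_right _ hb)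
      have hark : ar (ex K) = ar (ex P) + ar (ex K') := by rw [hKP, ex_append, ar_append]
      obtain ⟨K₁, K₂, h1, h2, h3⟩ := ih K' hK' hZ' (by linarith)
      refine ⟨P ++ K₁, K₂, by rw [hKP, h1, List.append_assoc], ?_, by linarith⟩
      rw [ex_append, ex_cons]
      exact (Al.append hA0 (tube hM hA hz1 hz2 hz3 hP (by linarith)) h2).perm (perm4 _ _ _ _)
    · rw [if_neg hp] at hcost ⊢
      rw [zero_add] at hcost ⊢
      obtain ⟨K₁, K₂, h1, h2, h3⟩ := ih K hK hZ' hcost
      refine ⟨K₁, K₂, h1, ?_, h3⟩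
      rw [ex_cons, List.append_assoc]
      exact Al.append hA0 (Al.block hz3 hz1 hz2 (hz4 hp)) h2

end Pool.Agent.U656.NC
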