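import Pool.Agent.R355.ConeAct

/-! Chains of quadratic transformations of symmetric classes with at most eight points. -/

set_option autoImplicit false

namespace Pool.Agent.U656.NC

open Pool.Agent.R355.ConeAct

theorem Carries.step {k : ℕ} {p q r : ℝ × (Fin k → ℝ)} (i : Fin 3 → Fin k)
    (hi : Function.Injective i) (h : refl i p = q) (h' : Carries q r) : Carries p r :=
  Relation.ReflTransGen.head ⟨i, hi, h.symm⟩ h'

theorem refl_eq {k : ℕ} {i : Fin 3 → Fin k} {p q : ℝ × (Fin k → ℝ)}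
    (h1 : (Pool.Agent.R355.ConeAct.refl i p).1 = q.1)
    (h2 : ∀ l, (Pool.Agent.R355.ConeAct.refl i p).2 l = q.2 l) :
    Pool.Agent.R355.ConeAct.refl i p = q :=
  Prod.ext h1 (funext h2)

theorem chain3 (c u : ℝ) : Carries ((c, fun _ => u) : ℝ × (Fin 3 → ℝ))
    (2 * c - 3 * u, ![c - 2 * u, c - 2 * u, c - 2 * u]) := by
  rw [show (fun _ => u : Fin 3 → ℝ) = ![u, u, u] by
    funext l; fin_cases l <;> rfl]
  refine Carries.step (q := (2 * c - 3 * u, ![c - 2 * u, c - 2 * u, c - 2 * u])) ![0, 1, 2] (by decide) (refl_eq (by simp [Pool.Agent.R355.ConeAct.refl] <;> ring)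
    fun l => by fin_cases l <;> simp [Pool.Agent.R355.ConeAct.refl] <;> ring) ?_
  exact Relation.ReflTransGen.refl

theorem chain5 (c u : ℝ) : Carries ((c, fun _ => u) : ℝ × (Fin 5 → ℝ))
    (3 * c - 6 * u, ![2 * c - 5 * u, c - 2 * u, c - 2 * u, c - 2 * u, c - 2 * u]) := by
  rw [show (fun _ => u : Fin 5 → ℝ) = ![u, u, u, u, u] by
    funext l; fin_cases l <;> rfl]
  refine Carries.step (q := (2 * c - 3 * u, ![c - 2 * u, c - 2 * u, c - 2 * u, u, u])) ![0, 1, 2] (by decide) (refl_eq (by simp [Pool.Agent.R355.ConeAct.refl] <;> ring)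
    fun l => by fin_cases l <;> simp [Pool.Agent.R355.ConeAct.refl] <;> ring) ?_
  refine Carries.step (q := (3 * c - 6 * u, ![2 * c - 5 * u, c - 2 * u, c - 2 * u, c - 2 * u, c - 2 * u])) ![0, 3, 4] (by decide) (refl_eq (by simp [Pool.Agent.R355.ConeAct.refl] <;> ring)
    fun l => by fin_cases l <;> simp [Pool.Agent.R355.ConeAct.refl] <;> ring) ?_
  exact Relation.ReflTransGen.refl

theorem chain6 (c u : ℝ) : Carries ((c, fun _ => u) : ℝ × (Fin 6 → ℝ))
    (5 * c - 12 * u, ![2 * c - 5 * u, 2 * c - 5 * u, 2 * c - 5 * u, 2 * c - 5 * u, 2 * c - 5 * u, 2 * c - 5 * u]) := by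
  rw [show (fun _ => u : Fin 6 → ℝ) = ![u, u, u, u, u, u] by
    funext l; fin_cases l <;> rfl]
  refine Carries.step (q := (2 * c - 3 * u, ![c - 2 * u, c - 2 * u, c - 2 * u, u, u, u])) ![0, 1, 2] (by decide) (refl_eq (by simp [Pool.Agent.R355.ConeAct.refl] <;> ring)
    fun l => by fin_cases l <;> simp [Pool.Agent.R355.ConeAct.refl] <;> ring) ?_
  refine Carries.step (q := (4 * c - 9 * u, ![c - 2 * u, c - 2 * u, c - 2 * u, 2 * c - 5 * u, 2 * c - 5 * u, 2 * c - 5 * u])) ![3, 4, 5] (by decide) (refl_eq (by simp [Pool.Agent.R355.ConeAct.refl] <;> ring)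
    fun l => by fin_cases l <;> simp [Pool.Agent.R355.ConeAct.refl] <;> ring) ?_
  refine Carries.step (q := (5 * c - 12 * u, ![2 * c - 5 * u, 2 * c - 5 * u, 2 * c - 5 * u, 2 * c - 5 * u, 2 * c - 5 * u, 2 * c - 5 * u])) ![0, 1, 2] (by decide) (refl_eq (by simp [Pool.Agent.R355.ConeAct.refl] <;> ring)
    fun l => by fin_cases l <;> simp [Pool.Agent.R355.ConeAct.refl] <;> ring) ?_
  exact Relation.ReflTransGen.refl

theorem chain7 (c u : ℝ) : Carries ((c, fun _ => u) : ℝ × (Fin 7 → ℝ))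
    (8 * c - 21 * u, ![3 * c - 8 * u, 3 * c - 8 * u, 3 * c - 8 * u, 3 * c - 8 * u, 3 * c - 8 * u, 3 * c - 8 * u, 3 * c - 8 * u]) := by
  rw [show (fun _ => u : Fin 7 → ℝ) = ![u, u, u, u, u, u, u] by
    funext l; fin_cases l <;> rfl]
  refine Carries.step (q := (2 * c - 3 * u, ![c - 2 * u, c - 2 * u, c - 2 * u, u, u, u, u])) ![0, 1, 2] (by decide) (refl_eq (by simp [Pool.Agent.R355.ConeAct.refl] <;> ring)
    fun l => by fin_cases l <;> simp [Pool.Agent.R355.ConeAct.refl] <;> ring) ?_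
  refine Carries.step (q := (4 * c - 9 * u, ![c - 2 * u, c - 2 * u, c - 2 * u, 2 * c - 5 * u, 2 * c - 5 * u, 2 * c - 5 * u, u])) ![3, 4, 5] (by decide) (refl_eq (by simp [Pool.Agent.R355.ConeAct.refl] <;> ring)
    fun l => by fin_cases l <;> simp [Pool.Agent.R355.ConeAct.refl] <;> ring) ?_
  refine Carries.step (q := (6 * c - 15 * u, ![3 * c - 8 * u, 3 * c - 8 * u, c - 2 * u, 2 * c - 5 * u, 2 * c - 5 * u, 2 * c - 5 * u, 2 * c - 5 * u])) ![0, 1, 6] (by decide) (refl_eq (by simp [Pool.Agent.R355.ConeAct.refl] <;> ring)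
    fun l => by fin_cases l <;> simp [Pool.Agent.R355.ConeAct.refl] <;> ring) ?_
  refine Carries.step (q := (7 * c - 18 * u, ![3 * c - 8 * u, 3 * c - 8 * u, 2 * c - 5 * u, 3 * c - 8 * u, 3 * c - 8 * u, 2 * c - 5 * u, 2 * c - 5 * u])) ![2, 3, 4] (by decide) (refl_eq (by simp [Pool.Agent.R355.ConeAct.refl] <;> ring)
    fun l => by fin_cases l <;> simp [Pool.Agent.R355.ConeAct.refl] <;> ring) ?_
  refine Carries.step (q := (8 * c - 21 * u, ![3 * c - 8 * u, 3 * c - 8 * u, 3 * c - 8 * u, 3 * c - 8 * u, 3 * c - 8 * u, 3 * c - 8 * u, 3 * c - 8 * u])) ![2, 5, 6] (by decide) (refl_eq (by simp [Pool.Agent.R355.ConeAct.refl] <;> ring)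
    fun l => by fin_cases l <;> simp [Pool.Agent.R355.ConeAct.refl] <;> ring) ?_
  exact Relation.ReflTransGen.refl

theorem chain8 (c u : ℝ) : Carries ((c, fun _ => u) : ℝ × (Fin 8 → ℝ))
    (17 * c - 48 * u, ![6 * c - 17 * u, 6 * c - 17 * u, 6 * c - 17 * u, 6 * c - 17 * u, 6 * c - 17 * u, 6 * c - 17 * u, 6 * c - 17 * u, 6 * c - 17 * u]) := by
  rw [show (fun _ => u : Fin 8 → ℝ) = ![u, u, u, u, u, u, u, u] by
    funext l; fin_cases l <;> rfl]
  refine Carries.step (q := (2 * c - 3 * u, ![c - 2 * u, c - 2 * u, c - 2 * u, u, u, u, u, u])) ![0, 1, 2] (by decide) (refl_eq (by simp [Pool.Agent.R355.ConeAct.refl] <;> ring)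
    fun l => by fin_cases l <;> simp [Pool.Agent.R355.ConeAct.refl] <;> ring) ?_
  refine Carries.step (q := (4 * c - 9 * u, ![c - 2 * u, c - 2 * u, c - 2 * u, 2 * c - 5 * u, 2 * c - 5 * u, 2 * c - 5 * u, u, u])) ![3, 4, 5] (by decide) (refl_eq (by simp [Pool.Agent.R355.ConeAct.refl] <;> ring)
    fun l => by fin_cases l <;> simp [Pool.Agent.R355.ConeAct.refl] <;> ring) ?_
  refine Carries.step (q := (7 * c - 18 * u, ![4 * c - 11 * u, c - 2 * u, c - 2 * u, 2 * c - 5 * u, 2 * c - 5 * u, 2 * c - 5 * u, 3 * c - 8 * u, 3 * c - 8 * u])) ![0, 6, 7] (by decide) (refl_eq (by simp [Pool.Agent.R355.ConeAct.refl] <;> ring)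
    fun l => by fin_cases l <;> simp [Pool.Agent.R355.ConeAct.refl] <;> ring) ?_
  refine Carries.step (q := (10 * c - 27 * u, ![4 * c - 11 * u, 4 * c - 11 * u, 4 * c - 11 * u, 5 * c - 14 * u, 2 * c - 5 * u, 2 * c - 5 * u, 3 * c - 8 * u, 3 * c - 8 * u])) ![1, 2, 3] (by decide) (refl_eq (by simp [Pool.Agent.R355.ConeAct.refl] <;> ring)
    fun l => by fin_cases l <;> simp [Pool.Agent.R355.ConeAct.refl] <;> ring) ?_
  refine Carries.step (q := (13 * c - 36 * u, ![4 * c - 11 * u, 4 * c - 11 * u, 4 * c - 11 * u, 5 * c - 14 * u, 5 * c - 14 * u, 5 * c - 14 * u, 6 * c - 17 * u, 3 * c - 8 * u])) ![4, 5, 6] (by decide) (refl_eq (by simp [Pool.Agent.R355.ConeAct.refl] <;> ring)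
    fun l => by fin_cases l <;> simp [Pool.Agent.R355.ConeAct.refl] <;> ring) ?_
  refine Carries.step (q := (15 * c - 42 * u, ![6 * c - 17 * u, 6 * c - 17 * u, 4 * c - 11 * u, 5 * c - 14 * u, 5 * c - 14 * u, 5 * c - 14 * u, 6 * c - 17 * u, 5 * c - 14 * u])) ![0, 1, 7] (by decide) (refl_eq (by simp [Pool.Agent.R355.ConeAct.refl] <;> ring)
    fun l => by fin_cases l <;> simp [Pool.Agent.R355.ConeAct.refl] <;> ring) ?_
  refine Carries.step (q := (16 * c - 45 * u, ![6 * c - 17 * u, 6 * c - 17 * u, 5 * c - 14 * u, 6 * c - 17 * u, 6 * c - 17 * u, 5 * c - 14 * u, 6 * c - 17 * u, 5 * c - 14 * u])) ![2, 3, 4] (by decide) (refl_eq (by simp [Pool.Agent.R355.ConeAct.refl] <;> ring)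
    fun l => by fin_cases l <;> simp [Pool.Agent.R355.ConeAct.refl] <;> ring) ?_
  refine Carries.step (q := (17 * c - 48 * u, ![6 * c - 17 * u, 6 * c - 17 * u, 6 * c - 17 * u, 6 * c - 17 * u, 6 * c - 17 * u, 6 * c - 17 * u, 6 * c - 17 * u, 6 * c - 17 * u])) ![2, 5, 7] (by decide) (refl_eq (by simp [Pool.Agent.R355.ConeAct.refl] <;> ring)
    fun l => by fin_cases l <;> simp [Pool.Agent.R355.ConeAct.refl] <;> ring) ?_
  exact Relation.ReflTransGen.refl

end Pool.Agent.U656.NC
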