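import Pool.Agent.U656.NC.Blocks

/-! All scales together. -/

set_option autoImplicit false

namespace Pool.Agent.U656.NC

open Pool.Agent.TH207.NC

/-- the total area of the block is small on the scale `max z.1 M` -/
def Poor (M : ℝ) (z : ℝ × ℕ) : Prop := (z.2 : ℝ) * z.1 ^ 2 < 96 * max z.1 M ^ 2

noncomputable instance (M : ℝ) : DecidablePred (Poor M) := fun _ => Real.decidableLT _ _

/-- the area needed for hosting a large block -/
noncomputable def cost (M : ℝ) (z : ℝ × ℕ) : ℝ := if Poor M z then 96 * z.1 ^ 2 + 49 * M ^ 2 else 0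

/-- the area needed for hosting a small block -/
noncomputable def cost0 (M : ℝ) (z : ℝ × ℕ) : ℝ := if Poor M z then 96 * M ^ 2 + 49 * M ^ 2 else 0

theorem cost_nonneg (M : ℝ) (z : ℝ × ℕ) : 0 ≤ cost M z := by
  unfold cost
  split_ifs
  · positivity
  · exact le_rfl

theorem cost0_nonneg (M : ℝ) (z : ℝ × ℕ) : 0 ≤ cost0 M z := by
  unfold cost0
  split_ifs
  · positivity
  · exact le_rfl

theorem sum_nonneg_map {α : Type} {f : α → ℝ} (l : List α) (h : ∀ a, 0 ≤ f a) :
    0 ≤ (l.map f).sum := by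
  refine List.sum_nonneg fun x hx => ?_
  obtain ⟨a, -, rfl⟩ := List.mem_map.1 hx
  exact h a

theorem le_sum_map {α : Type} {f : α → ℝ} {l : List α} (h : ∀ a, 0 ≤ f a) {a : α} (ha : a ∈ l) :
    f a ≤ (l.map f).sum := by
  refine List.single_le_sum (fun x hx => ?_) _ (List.mem_map_of_mem ha)
  obtain ⟨b, -, rfl⟩ := List.mem_map.1 hx
  exact h b

theorem sum_filter_map {α : Type} (p : α → Bool) (f : α → ℝ) (l : List α) :
    ((l.filter p).map f).sum = (l.map fun a => if p a then f a else 0).sum := by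
  induction l with
  | nil => simp
  | cons a l ih =>
    by_cases h : p a
    · rw [List.filter_cons_of_pos h, List.map_cons, List.sum_cons, ih, List.map_cons,
        List.sum_cons, if_pos h]
    · rw [List.filter_cons_of_neg (by simpa using h), ih, List.map_cons, List.sum_cons, if_neg h,
        zero_add]

theorem exists_max {l : List (ℝ × ℕ)} (h : l ≠ []) : ∃ z ∈ l, ∀ z' ∈ l, z'.1 ≤ z.1 := by
  classical
  obtain ⟨z, hz, hmax⟩ := Finset.exists_max_image l.toFinset (fun z => z.1)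
    (by simpa [List.toFinset_nonempty_iff] using h)
  exact ⟨z, by simpa using hz, fun z' hz' => hmax z' (by simpa using hz')⟩

theorem exists_min {l : List (ℝ × ℕ)} (h : l ≠ []) : ∃ z ∈ l, ∀ z' ∈ l, z.1 ≤ z'.1 := by
  classical
  obtain ⟨z, hz, hmin⟩ := Finset.exists_min_image l.toFinset (fun z => z.1)
    (by simpa [List.toFinset_nonempty_iff] using h)
  exact ⟨z, by simpa using hz, fun z' hz' => hmin z' (by simpa using hz')⟩

/-- blocks of squares with sides at most `2 M` and bricks -/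
theorem base {M : ℝ} (hM : 0 < M) {S K : List (ℝ × ℕ)}
    (hS : ∀ z ∈ S, 0 < z.1 ∧ z.1 ≤ 2 * M ∧ 1 ≤ z.2) (hK : ∀ b ∈ K, Brick M b)
    (hc : (S.map (cost0 M)).sum + 96 * M ^ 2 ≤ ar (ex K)) {H : ℝ} (h4 : 4 * M ≤ H)
    (h8 : H ≤ 8 * M) : Al H (ex S ++ ex K) := by
  have hM2 : 0 < M ^ 2 := by positivity
  have hH2 : H ^ 2 ≤ 64 * M ^ 2 := by
    have : H ^ 2 ≤ (8 * M) ^ 2 := pow_le_pow_left₀ (by linarith) h8 2
    linarith
  obtain ⟨K₁, K₂, h1, h2, h3⟩ := hosts hM h4 (t := 96 * M ^ 2) (by linarith) (Poor M) S K hK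
    (fun z hz => by
      obtain ⟨a1, a2, a3⟩ := hS z hz
      refine ⟨a1, by linarith, a3, fun hp => ?_⟩
      unfold Poor at hp
      push Not at hp
      have h5 : M ^ 2 ≤ max z.1 M ^ 2 := pow_le_pow_left₀ hM.le (le_max_right _ _) 2
      linarith) (by
      have h5 : (S.map fun z => if Poor M z then 96 * M ^ 2 + 49 * M ^ 2 else 0).sum =
          (S.map (cost0 M)).sum := rfl
      rw [h5]
      linarith)
  have h5 : (S.map fun z => if Poor M z then 96 * M ^ 2 + 49 * M ^ 2 else 0).sum =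
      (S.map (cost0 M)).sum := rfl
  rw [h5] at h3
  have h6 : Al H (ex K₂) := pile hM (by linarith)
    (fun b hb => hK b (by rw [h1]; exact List.mem_append_right _ hb)) (by linarith)
  have h7 := Al.append (by linarith) h2 h6
  rw [h1, ex_append, ← List.append_assoc]
  exact h7

/-- all scales -/
theorem climb {M : ℝ} (hM : 0 < M) {S : List (ℝ × ℕ)}
    (hS : ∀ z ∈ S, 0 < z.1 ∧ z.1 ≤ 2 * M ∧ 1 ≤ z.2) (N : ℕ) :
    ∀ Z K : List (ℝ × ℕ), Z.length ≤ N → (∀ z ∈ Z, 2 * M < z.1 ∧ 1 ≤ z.2) →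
      (∀ b ∈ K, Brick M b) →
      (Z.map (cost M)).sum + ((S.map (cost0 M)).sum + 96 * M ^ 2) ≤ ar (ex K) →
      ∀ W : ℝ, (∀ z ∈ Z, z.1 ≤ W) → (∃ z ∈ Z, z.1 = W) →
        96 * W ^ 2 ≤ ar (ex Z ++ (ex S ++ ex K)) ∧
          ∀ A, 2 * W ≤ A → A ≤ 4 * W → One A (ex Z ++ (ex S ++ ex K)) := by
  induction N with
  | zero =>
    intro Z K hlen _ _ _ W _ ⟨z, hz, _⟩
    have : Z = [] := List.eq_nil_of_length_eq_zero (by omega)
    rw [this] at hz
    exact absurd hz (List.not_mem_nil)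
  | succ N ih =>
    intro Z K hlen hZ hK hcost W hW ⟨z₀, hz₀, hz₀W⟩
    have hWM : 2 * M < W := by
      rw [← hz₀W]
      exact (hZ z₀ hz₀).1
    have hW0 : 0 < W := by linarith
    have hM2 : 0 < M ^ 2 := by positivity
    have hW2 : 0 < W ^ 2 := by positivity
    have hSnn := sum_nonneg_map S (cost0_nonneg M)
    -- the total area
    have harea : 96 * W ^ 2 ≤ ar (ex Z ++ (ex S ++ ex K)) := by
      rw [ar_append, ar_append]
      have n1 := ar_nonneg (ex S)
      have n2 := ar_nonneg (ex K)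
      have n3 := ar_nonneg (ex Z)
      by_cases hp : Poor M z₀
      · have h1 := le_sum_map (cost_nonneg M) hz₀
        unfold cost at h1
        rw [if_pos hp, hz₀W] at h1
        have h2 : (Z.map (cost M)).sum =
          (Z.map fun z => if Poor M z then 96 * z.1 ^ 2 + 49 * M ^ 2 else 0).sum := rfl
        rw [h2] at hcost
        linarith
      · unfold Poor at hp
        push Not at hp
        have h1 : (z₀.2 : ℝ) * z₀.1 ^ 2 ≤ ar (ex Z) := by
          rw [ar_ex]
          exact le_sum_map (f := fun z : ℝ × ℕ => (z.2 : ℝ) * z.1 ^ 2)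
            (fun z => by positivity) hz₀
        have h2 : W ^ 2 ≤ max z₀.1 M ^ 2 :=
          pow_le_pow_left₀ hW0.le (by rw [← hz₀W]; exact le_max_left _ _) 2
        linarith
    refine ⟨harea, fun A hA2 hA4 => ?_⟩
    have hA0 : 0 < A := by linarith
    have hAsq : A ^ 2 ≤ 16 * W ^ 2 := by
      have : A ^ 2 ≤ (4 * W) ^ 2 := pow_le_pow_left₀ hA0.le hA4 2
      linarith
    -- the two parts
    obtain ⟨Z₁, hZ₁⟩ : ∃ Z₁, Z₁ = Z.filter (fun z => decide (W < 2 * z.1)) := ⟨_, rfl⟩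
    obtain ⟨Z₂, hZ₂⟩ : ∃ Z₂, Z₂ = Z.filter (fun z => !decide (W < 2 * z.1)) := ⟨_, rfl⟩
    have hperm : (Z₁ ++ Z₂).Perm Z := by
      rw [hZ₁, hZ₂]
      exact List.filter_append_perm _ _
    have hmem₁ : ∀ z ∈ Z₁, z ∈ Z ∧ W < 2 * z.1 := by
      intro z hz
      rw [hZ₁, List.mem_filter] at hz
      exact ⟨hz.1, by simpa using hz.2⟩
    have hmem₂ : ∀ z ∈ Z₂, z ∈ Z ∧ 2 * z.1 ≤ W := by
      intro z hz
      rw [hZ₂, List.mem_filter] at hz
      exact ⟨hz.1, by simpa using hz.2⟩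
    have hlen₂ : Z₂.length ≤ N := by
      have h1 : z₀ ∈ Z₁ := by
        rw [hZ₁, List.mem_filter]
        refine ⟨hz₀, ?_⟩
        simp only [decide_eq_true_eq]
        linarith
      have h2 := List.length_pos_of_mem h1
      have h3 := hperm.length_eq
      rw [List.length_append] at h3
      omega
    have hsplit : (Z.map (cost M)).sum = (Z₁.map (cost M)).sum + (Z₂.map (cost M)).sum := by
      rw [← (hperm.map (cost M)).sum_eq, List.map_append, List.sum_append]
    have hc1 : (Z₁.map fun z => if Poor M z then 24 * W ^ 2 + 49 * M ^ 2 else 0).sum ≤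
        (Z₁.map (cost M)).sum := by
      refine List.sum_le_sum fun z hz => ?_
      have h1 := (hmem₁ z hz).2
      unfold cost
      split_ifs
      · have h2 : W ^ 2 ≤ (2 * z.1) ^ 2 := pow_le_pow_left₀ hW0.le h1.le 2
        linarith
      · exact le_rfl
    have hnn₂ := sum_nonneg_map Z₂ (cost_nonneg M)
    obtain ⟨K₁, K₂, hKK, hAl, hK₂⟩ := hosts hM (A := A) (t := 24 * W ^ 2) (by linarith)
      (by linarith) (Poor M) Z₁ K hK (fun z hz => by
        obtain ⟨a1, a2⟩ := hmem₁ z hz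
        have a3 := hW z a1
        obtain ⟨a4, a5⟩ := hZ z a1
        refine ⟨by linarith, by linarith, a5, fun hp => ?_⟩
        unfold Poor at hp
        push Not at hp
        have h5 : z.1 ^ 2 ≤ max z.1 M ^ 2 :=
          pow_le_pow_left₀ (by linarith) (le_max_left _ _) 2
        have h6 : W ^ 2 ≤ (2 * z.1) ^ 2 := pow_le_pow_left₀ hW0.le a2.le 2
        linarith) (by linarith)
    have hBr₂ : ∀ b ∈ K₂, Brick M b := fun b hb =>
      hK b (by rw [hKK]; exact List.mem_append_right _ hb)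
    -- the smaller scales
    obtain ⟨V, hV0, hVW, hV⟩ : ∃ V, 0 < V ∧ 2 * V ≤ W ∧ ∀ H, 4 * V ≤ H → H ≤ 8 * V →
        Al H (ex Z₂ ++ (ex S ++ ex K₂)) := by
      rcases eq_or_ne Z₂ [] with h0 | h0
      · refine ⟨M, hM, hWM.le, fun H h4 h8 => ?_⟩
        rw [h0, ex_nil, List.nil_append]
        exact base hM hS hBr₂ (by linarith) h4 h8
      · obtain ⟨z₁, hz₁, hmax⟩ := exists_max h0
        obtain ⟨h5, h6⟩ := ih Z₂ K₂ hlen₂ (fun z hz => hZ z (hmem₂ z hz).1) hBr₂ (by linarith)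
          z₁.1 hmax ⟨z₁, hz₁, rfl⟩
        have hz₁0 : 0 < z₁.1 := by
          have := (hZ z₁ (hmem₂ z₁ hz₁).1).1
          linarith
        refine ⟨z₁.1, hz₁0, (hmem₂ z₁ hz₁).2, fun H h4 h8 => ?_⟩
        have h7 := (h6 (H / 2) (by linarith) (by linarith)).node (by linarith) (by
          have h9 : (2 * (H / 2)) ^ 2 ≤ (8 * z₁.1) ^ 2 :=
            pow_le_pow_left₀ (by linarith) (by linarith) 2
          linarith)
        have e : 2 * (H / 2) = H := by ring
        rwa [e] at h7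
    -- the integer `u`
    obtain ⟨u, hu⟩ : ∃ u : ℕ, u = ⌊A / (4 * V)⌋₊ := ⟨_, rfl⟩
    have hge : 1 ≤ A / (4 * V) := by
      rw [le_div_iff₀ (by positivity)]
      linarith
    have hu1 : 1 ≤ u := by
      rw [hu]
      exact Nat.le_floor (by exact_mod_cast hge)
    have hu1' : (1 : ℝ) ≤ u := by exact_mod_cast hu1
    have hu2 : (u : ℝ) ≤ A / (4 * V) := by
      rw [hu]
      exact Nat.floor_le (by linarith)
    have hu3 : A / (4 * V) < u + 1 := by
      rw [hu]
      exact Nat.lt_floor_add_one _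
    rw [le_div_iff₀ (by positivity)] at hu2
    rw [div_lt_iff₀ (by positivity)] at hu3
    have h9 := One.stack hA0 hu1 hAl (hV (A / u) (by
        rw [le_div_iff₀ (by linarith)]
        linarith) (by
        rw [div_le_iff₀ (by linarith)]
        nlinarith)) (by
      have h10 : ar (ex Z₁ ++ ex K₁) + ar (ex Z₂ ++ (ex S ++ ex K₂)) =
          ar (ex Z ++ (ex S ++ ex K)) := by
        rw [hKK, ex_append, ← ar_perm ((ex_perm hperm).append_right _), ex_append]
        simp only [ar_append]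
        ring
      rw [h10]
      linarith)
    refine h9.perm ?_
    have h11 : ((ex Z₁ ++ ex Z₂ : List ℝ) : Multiset ℝ) = (ex Z : Multiset ℝ) := by
      rw [← ex_append]
      exact Multiset.coe_eq_coe.2 (ex_perm hperm)
    rw [← Multiset.coe_eq_coe, hKK, ex_append]
    simp only [← Multiset.coe_add] at h11 ⊢
    rw [← h11]
    abel

/-- up to the height `c / 3` -/
theorem top {M : ℝ} (hM : 0 < M) {S Z K : List (ℝ × ℕ)}
    (hS : ∀ z ∈ S, 0 < z.1 ∧ z.1 ≤ 2 * M ∧ 1 ≤ z.2) (hZ : ∀ z ∈ Z, 2 * M < z.1 ∧ 1 ≤ z.2)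
    (hK : ∀ b ∈ K, Brick M b)
    (hcost : (Z.map (cost M)).sum + ((S.map (cost0 M)).sum + 96 * M ^ 2) ≤ ar (ex K)) {c : ℝ}
    (hc : 0 < c) (hsq : ar (ex Z ++ (ex S ++ ex K)) = c ^ 2) (h12 : Z = [] → 12 * M ≤ c) :
    One (c / 3) (ex Z ++ (ex S ++ ex K)) := by
  have h0 : 0 < ar (ex Z ++ (ex S ++ ex K)) := by
    rw [hsq]
    positivity
  rcases eq_or_ne Z [] with hZ0 | hZ0
  · have h12' := h12 hZ0
    subst hZ0
    rw [ex_nil, List.nil_append] at h0 ⊢
    simp only [List.map_nil, List.sum_nil, zero_add] at hcost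
    rcases le_or_gt (c / 3) (8 * M) with h8 | h8
    · have h1 := base hM hS hK hcost (H := c / 3) (by linarith) h8
      exact ⟨h1.pos, ⟨0, h1.fill 0⟩⟩
    · exact (base hM hS hK hcost (H := 4 * M) le_rfl (by linarith)).flat (by linarith)
        (by linarith) h0
  · obtain ⟨z₁, hz₁, hmax⟩ := exists_max hZ0
    obtain ⟨h5, h6⟩ := climb hM hS _ Z K le_rfl hZ hK hcost z₁.1 hmax ⟨z₁, hz₁, rfl⟩
    have hW0 : 0 < z₁.1 := by
      have := (hZ z₁ hz₁).1
      linarith
    rcases le_or_gt (c / 3) (4 * z₁.1) with h8 | h8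
    · refine h6 _ ?_ h8
      have h9 : (6 * z₁.1) ^ 2 ≤ c ^ 2 := by
        rw [← hsq]
        nlinarith
      have := (pow_le_pow_iff_left₀ (by positivity) hc.le (by norm_num)).1 h9
      linarith
    · have h7 := (h6 (2 * z₁.1) le_rfl (by linarith)).node (by linarith) (by nlinarith)
      exact h7.flat (by linarith) (by linarith) h0

end Pool.Agent.U656.NC
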