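import Pool.Agent.U656.NC.Univ
import Pool.Agent.U656.NC.Mostly

/-! Systems whose rare values are lacunary and dominated by the smaller values. -/

set_option autoImplicit false

namespace Pool.Agent.U656.NC

open Pool.Agent.TH207.NC

/-- `μ w` squares with the side `w` for every `w` in `S` -/
noncomputable def sqs (μ : ℝ → ℕ) (S : Finset ℝ) : List ℝ :=
  (∑ w ∈ S, Multiset.replicate (μ w) w).toList

theorem sqs_coe (μ : ℝ → ℕ) (S : Finset ℝ) :
    (sqs μ S : Multiset ℝ) = ∑ w ∈ S, Multiset.replicate (μ w) w := Multiset.coe_toList _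

theorem sqs_erase {μ : ℝ → ℕ} {S : Finset ℝ} {w : ℝ} (hw : w ∈ S) :
    (List.replicate (μ w) w ++ sqs μ (S.erase w)).Perm (sqs μ S) := by
  rw [← Multiset.coe_eq_coe, ← Multiset.coe_add, sqs_coe, sqs_coe, Multiset.coe_replicate]
  exact Finset.add_sum_erase S (fun w => Multiset.replicate (μ w) w) hw

theorem sqs_empty (μ : ℝ → ℕ) : sqs μ ∅ = [] := by
  unfold sqs
  rw [Finset.sum_empty, Multiset.toList_zero]

theorem sqs_map_sum (μ : ℝ → ℕ) (S : Finset ℝ) (g : ℝ → ℝ) :
    ((sqs μ S).map g).sum = ∑ w ∈ S, (μ w : ℝ) * g w := by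
  classical
  induction S using Finset.induction_on with
  | empty => rw [sqs_empty]; simp
  | insert a S ha ih =>
    have h1 := sqs_erase (μ := μ) (Finset.mem_insert_self a S)
    rw [Finset.erase_insert ha] at h1
    rw [← (h1.map g).sum_eq, List.map_append, List.sum_append, ih, Finset.sum_insert ha]
    simp

theorem ar_sqs (μ : ℝ → ℕ) (S : Finset ℝ) : ar (sqs μ S) = ∑ w ∈ S, (μ w : ℝ) * w ^ 2 :=
  sqs_map_sum μ S fun t => t ^ 2

theorem mem_sqs {μ : ℝ → ℕ} {S : Finset ℝ} {t : ℝ} (h : t ∈ sqs μ S) : t ∈ S := by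
  unfold sqs at h
  rw [Multiset.mem_toList, Multiset.mem_sum] at h
  obtain ⟨w, hw, h2⟩ := h
  rw [Multiset.eq_of_mem_replicate h2]
  exact hw

/-- the values in `R` are rare, with the scales `s`: the scales grow by factors of two, and the
square of the scale of `w` is dominated by the area of the squares of at most half of the side `w`;
the other values are attained at least `96` times, and more often if they exceed half of a rare
value -/
structure Lac (μ : ℝ → ℕ) (R : Finset ℝ) (s : ℝ → ℝ) (S : Finset ℝ) : Prop where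
  pos : ∀ w ∈ S, 0 < w
  one : ∀ w ∈ S, 1 ≤ μ w
  ge : ∀ w ∈ R, w ∈ S → w ≤ s w
  two : ∀ w ∈ R, ∀ w' ∈ R, w ∈ S → w' ∈ S → w < w' → 2 * s w ≤ s w'
  area : ∀ w ∈ R, w ∈ S →
    96 * s w ^ 2 ≤ ∑ v ∈ S.filter (fun v => 2 * v ≤ w), (μ v : ℝ) * v ^ 2
  freq : ∀ v ∈ S, v ∉ R → 96 ≤ μ v
  far : ∀ v ∈ S, v ∉ R → ∀ w ∈ R, w ∈ S → w < 2 * v → 96 * s w ^ 2 ≤ (μ v : ℝ) * v ^ 2

theorem Lac.erase {μ : ℝ → ℕ} {R : Finset ℝ} {s : ℝ → ℝ} {S : Finset ℝ} (h : Lac μ R s S) {v : ℝ}
    (hv : ∀ w ∈ S, w ≠ v → w ∈ R → w < 2 * v) : Lac μ R s (S.erase v) := by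
  have hm : ∀ w, w ∈ S.erase v → w ∈ S := fun w hw => Finset.mem_of_mem_erase hw
  refine ⟨fun w hw => h.pos w (hm w hw), fun w hw => h.one w (hm w hw),
    fun w hR hw => h.ge w hR (hm w hw),
    fun w hR w' hR' hw hw' => h.two w hR w' hR' (hm w hw) (hm w' hw'), fun w hR hw => ?_,
    fun w hw => h.freq w (hm w hw), fun w hw hR w' hR' hw' => h.far w (hm w hw) hR w' hR' (hm w' hw')⟩
  have h1 := h.area w hR (hm w hw)
  have h2 : S.filter (fun v => 2 * v ≤ w) = (S.erase v).filter (fun v => 2 * v ≤ w) := by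
    ext z
    rw [Finset.mem_filter, Finset.mem_filter, Finset.mem_erase]
    refine ⟨fun h3 => ⟨⟨?_, h3.1⟩, h3.2⟩, fun h3 => ⟨h3.1.2, h3.2⟩⟩
    rintro rfl
    have := hv w (hm w hw) (Finset.ne_of_mem_erase hw) hR
    linarith [h3.2]
  rwa [h2] at h1

theorem Lac.univ {μ : ℝ → ℕ} {R : Finset ℝ} {s : ℝ → ℝ} {S : Finset ℝ} (h : Lac μ R s S)
    (hne : S.Nonempty) :
    ∃ m, ((∃ z ∈ S, z ∉ R ∧ m ≤ 2 * z) ∨ ∃ z ∈ S, z ∈ R ∧ m ≤ 2 * s z) ∧ UnivAt m (sqs μ S) := by
  classical
  induction S using Finset.strongInduction with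
  | H S ih =>
    by_cases hcase : ∃ v ∈ S, v ∉ R ∧ ∀ w ∈ S, w ∈ R → w < 2 * v
    · obtain ⟨v₀, hv₀, hv₀', hv₀''⟩ := hcase
      obtain ⟨v, hv, hmax⟩ := (S.filter fun v => v ∉ R).exists_max_image id
        ⟨v₀, Finset.mem_filter.2 ⟨hv₀, hv₀'⟩⟩
      rw [Finset.mem_filter] at hv
      have hvv : v₀ ≤ v := hmax v₀ (Finset.mem_filter.2 ⟨hv₀, hv₀'⟩)
      have hv0 : 0 < v := h.pos v hv.1
      have h96 := h.freq v hv.1 hv.2
      have h96' : (96 : ℝ) ≤ μ v := by exact_mod_cast h96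
      have h2v : ∀ w ∈ S, w ∈ R → w < 2 * v := fun w hw hr => by
        have := hv₀'' w hw hr
        linarith
      rcases (S.erase v).eq_empty_or_nonempty with he | he
      · refine ⟨v, Or.inl ⟨v, hv.1, hv.2, by linarith⟩, ?_⟩
        have h1 := sqs_erase (μ := μ) hv.1
        rw [he, sqs_empty, List.append_nil] at h1
        exact (UnivAt.block hv0 (by omega)).perm h1
      · obtain ⟨m, hz, hm⟩ := ih _ (Finset.erase_ssubset hv.1)
          (h.erase fun w hw _ hr => h2v w hw hr) he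
        have hm0 := hm.pos
        have hmv : 24 * m ^ 2 ≤ (μ v : ℝ) * v ^ 2 := by
          rcases hz with ⟨z, hz, hzR, hmz⟩ | ⟨z, hz, hzR, hmz⟩
          · have h4 : z ≤ v := hmax z (Finset.mem_filter.2 ⟨Finset.mem_of_mem_erase hz, hzR⟩)
            have h5 : m ^ 2 ≤ (2 * v) ^ 2 := pow_le_pow_left₀ hm0.le (by linarith) 2
            have h6 : 96 * v ^ 2 ≤ μ v * v ^ 2 := mul_le_mul_of_nonneg_right h96' (sq_nonneg v)
            linarith [mul_pow 2 v 2]
          · have h4 := Finset.mem_of_mem_erase hz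
            have h5 : m ^ 2 ≤ (2 * s z) ^ 2 := pow_le_pow_left₀ hm0.le hmz 2
            have h6 := h.far v hv.1 hv.2 z hzR h4 (h2v z h4 hzR)
            linarith [mul_pow 2 (s z) 2]
        obtain ⟨M, hM, hM'⟩ := hm.often hv0 h96 hmv
        refine ⟨M, ?_, hM'.perm (sqs_erase hv.1)⟩
        rcases hM with hM | hM
        · rcases hz with ⟨z, hz, hzR, hmz⟩ | ⟨z, hz, hzR, hmz⟩
          · exact Or.inl ⟨z, Finset.mem_of_mem_erase hz, hzR, hM.trans hmz⟩
          · exact Or.inr ⟨z, Finset.mem_of_mem_erase hz, hzR, hM.trans hmz⟩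
        · exact Or.inl ⟨v, hv.1, hv.2, hM⟩
    · push Not at hcase
      have hR : (S.filter fun v => v ∈ R).Nonempty := by
        obtain ⟨v, hv⟩ := hne
        by_cases h1 : v ∈ R
        · exact ⟨v, Finset.mem_filter.2 ⟨hv, h1⟩⟩
        · obtain ⟨w, hw, hw', _⟩ := hcase v hv h1
          exact ⟨w, Finset.mem_filter.2 ⟨hw, hw'⟩⟩
      obtain ⟨w, hw, hmax⟩ := (S.filter fun v => v ∈ R).exists_max_image id hR
      rw [Finset.mem_filter] at hw
      have hw0 : 0 < w := h.pos w hw.1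
      have hsw := h.ge w hw.2 hw.1
      have hle : ∀ v ∈ S, v ≠ w → (v ∉ R ∧ 2 * v ≤ w) ∨ (v ∈ R ∧ v < w) := by
        intro v hv hvw
        by_cases h1 : v ∈ R
        · have h2 : v ≤ w := hmax v (Finset.mem_filter.2 ⟨hv, h1⟩)
          exact Or.inr ⟨h1, lt_of_le_of_ne h2 hvw⟩
        · obtain ⟨w', hw', hr, h2⟩ := hcase v hv h1
          have h3 : w' ≤ w := hmax w' (Finset.mem_filter.2 ⟨hw', hr⟩)
          exact Or.inl ⟨h1, h2.trans h3⟩
      have harea : 96 * s w ^ 2 ≤ ar (sqs μ (S.erase w)) := by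
        refine (h.area w hw.2 hw.1).trans ?_
        rw [ar_sqs]
        refine Finset.sum_le_sum_of_subset_of_nonneg (fun z hz => ?_) fun z _ _ => by positivity
        rw [Finset.mem_filter] at hz
        rw [Finset.mem_erase]
        refine ⟨?_, hz.1⟩
        rintro rfl
        linarith [hz.2]
      have hsw2 : w ^ 2 ≤ s w ^ 2 := pow_le_pow_left₀ hw0.le hsw 2
      have hw2 : 0 < w ^ 2 := by positivity
      have hne' : (S.erase w).Nonempty := by
        rw [Finset.nonempty_iff_ne_empty]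
        intro he
        rw [he, sqs_empty, ar_nil] at harea
        linarith
      obtain ⟨m, hz, hm⟩ := ih _ (Finset.erase_ssubset hw.1)
        (h.erase fun v hv hvw hvR => by
          rcases hle v hv hvw with h1 | h1
          · exact absurd hvR h1.1
          · linarith [h1.2]) hne'
      have hm2 : 2 * m ≤ 2 * s w := by
        rcases hz with ⟨z, hz, hzR, hmz⟩ | ⟨z, hz, hzR, hmz⟩
        · rcases hle z (Finset.mem_of_mem_erase hz) (Finset.ne_of_mem_erase hz) with h1 | h1
          · linarith [h1.2]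
          · exact absurd h1.1 hzR
        · rcases hle z (Finset.mem_of_mem_erase hz) (Finset.ne_of_mem_erase hz) with h1 | h1
          · exact absurd hzR h1.1
          · have := h.two z hzR w hw.2 (Finset.mem_of_mem_erase hz) hw.1 h1.2
            linarith
      exact ⟨2 * s w, Or.inr ⟨w, hw.1, hw.2, le_rfl⟩, (hm.rare (M := 2 * s w) hw0 (by linarith)
        hm2 (by nlinarith) (h.one w hw.1)).perm (sqs_erase hw.1)⟩

theorem two_values {a x : ℝ} : ∀ l : List ℝ, (∀ t ∈ l, t = x ∨ t = a) →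
    ∃ j k : ℕ, (List.replicate j a ++ List.replicate k x).Perm l
  | [], _ => ⟨0, 0, by simp⟩
  | t :: l, h => by
    obtain ⟨j, k, hjk⟩ := two_values l fun s hs => h s (List.mem_cons_of_mem _ hs)
    rcases h t (List.mem_cons_self) with rfl | rfl
    · refine ⟨j, k + 1, ?_⟩
      rw [List.replicate_succ]
      exact List.perm_middle.trans (hjk.cons _)
    · exact ⟨j + 1, k, by rw [List.replicate_succ]; exact hjk.cons _⟩

/-- squares with a third of the side of the plane, a group of squares of arbitrary side and a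
universal system -/
theorem One.top {a x : ℝ} (ha : 0 < a) (hx : 0 < x) (hxa : x ≤ a) {l : List ℝ} (hl : Al a l)
    {j k : ℕ} (hlin : j * a + k * x ≤ 9 * a) (h0 : 0 < ar l)
    (htot : j * a ^ 2 + (k * x ^ 2 + ar l) = 9 * a ^ 2) :
    One a ((List.replicate j a ++ List.replicate k x) ++ l) := by
  have ha2 : 0 < a ^ 2 := by positivity
  have hkx : 0 ≤ (k : ℝ) * x ^ 2 := by positivity
  have hk0 : (0 : ℝ) ≤ k := Nat.cast_nonneg k
  have hj9 : (j : ℝ) < 9 := by
    have h1 : (j : ℝ) * a ^ 2 < 9 * a ^ 2 := by linarith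
    exact lt_of_mul_lt_mul_right h1 ha2.le
  refine ⟨pos_app (pos_app (fun t ht => by rw [List.eq_of_mem_replicate ht]; exact ha)
    (fun t ht => by rw [List.eq_of_mem_replicate ht]; exact hx)) hl.pos, ?_⟩
  have h9 : ar ((List.replicate j a ++ List.replicate k x) ++ l) / a ^ 2 = 9 := by
    rw [ar_append, ar_append, ar_replicate, ar_replicate, div_eq_iff ha2.ne']
    linarith
  rw [h9]
  obtain ⟨y, hy⟩ : ∃ y, y = x / a := ⟨_, rfl⟩
  have hy0 : 0 < y := by rw [hy]; positivity
  have hy1 : y ≤ 1 := by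
    rw [hy, div_le_one ha]
    exact hxa
  have hay : a * y = x := by
    rw [hy]
    field_simp
  have hky : k * y ≤ 9 - j := by
    have h2 : a * (k * y) = k * x := by
      rw [← hay]
      ring
    have h3 : a * (k * y) ≤ a * (9 - j) := by
      rw [h2]
      linarith
    exact le_of_mul_le_mul_left h3 ha
  have h1 : TF (9 - j) (k * y) (Sum.elim (List.replicate k x).get l.get) a := by
    refine group (t := k) (x := y) (by linarith) hk0 ha hy0 hy1 rfl hky ?_ ?_
    · rw [hay]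
      have h2 := (Al.row (n := k) hx).fill (k * y)
      have e : (k : ℝ) * x ^ 2 / x ^ 2 = k := by field_simp
      rwa [ar_replicate, e] at h2
    · have e : 9 - j - k * y ^ 2 = ar l / a ^ 2 := by
        rw [hy, eq_div_iff ha2.ne']
        field_simp
        linarith
      rw [e]
      exact hl.fill _
  have h2 := TF.add (s := 9 - j) (t := j) (μ := k * y) (by linarith) ha
    (L' := (List.replicate j a).get) (by
      have e : (j : ℝ) * a ^ 2 / a ^ 2 = j := by field_simp
      have h3 := (Al.row (n := j) ha).fill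
      rw [ar_replicate, e] at h3
      exact h3 _) (TF_app h1)
  rw [sub_add_cancel] at h2
  rw [List.append_assoc]
  exact ⟨_, TF_app h2⟩

end Pool.Agent.U656.NC
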