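import Pool.Agent.U656.NC.Transfer
import Pool.Agent.U656.NC.Chain

/-! Nef classes with at most eight points whose coefficients take one value besides a third of the
degree, and with repeated coefficients at the other points. -/

set_option autoImplicit false

namespace Pool.Agent.U656.NC

open Pool.Agent.TH167 Pool.Agent.R355.ConeAct Pool.Agent.TH207.NC

/-- Outside of `T` each nonzero value of `y` is attained at least `144` times, or there is only one
and it is attained at least `36` times. -/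
def Often {n : ℕ} (y : Fin n → ℝ) (T : Finset (Fin n)) : Prop :=
  ∀ j ∉ T, y j ≠ 0 →
    144 ≤ (Finset.univ.filter fun i => i ∉ T ∧ y i = y j).card ∨
      (36 ≤ (Finset.univ.filter fun i => i ∉ T ∧ y i = y j).card ∧ ∀ i ∉ T, y i = 0 ∨ y i = y j)

theorem curve_eq {n : ℕ} {P : Fin n → Fin 2 → ℂ} (hP : Fills P) {D : ℝ × (Fin n → ℝ)}
    {T : Finset (Fin n)} {u : ℝ} (h1 : 0 < D.1) (hDD : ∑ j, D.2 j ^ 2 = D.1 ^ 2)
    (hu0 : 0 ≤ u) (hu : 3 * u ≤ D.1) (hDT : ∀ i ∈ T, D.2 i = u ∨ 3 * D.2 i = D.1)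
    (hs1 : ∑ i ∈ T, D.2 i ≤ 3 * D.1) (hs2 : 9 * ∑ i ∈ T, D.2 i ^ 2 ≤ 8 * D.1 ^ 2)
    (hD0 : ∀ i ∉ T, 0 ≤ D.2 i) (hoft : Often D.2 T)
    {G : MvPolynomial (Fin 3) ℂ} {d : ℕ} {w : Fin n → ℕ} (hG : SHDefs.Curve P G d w) :
    ∑ j, D.2 j * (w j : ℝ) ≤ D.1 * d := by
  classical
  obtain ⟨a, ha⟩ : ∃ a, a = D.1 / 3 := ⟨_, rfl⟩
  have ha0 : 0 < a := by rw [ha]; positivity
  obtain ⟨x, hx⟩ : ∃ x, x = if u = 0 then a else u := ⟨_, rfl⟩
  have hx0 : 0 < x := by
    rw [hx]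
    split_ifs with h
    · exact ha0
    · exact lt_of_le_of_ne hu0 (Ne.symm h)
  have hxa : x ≤ a := by
    rw [hx]
    split_ifs with h
    · exact le_rfl
    · rw [ha]; linarith
  let κ := {i : Fin n // i ∈ T ∧ 3 * D.2 i = D.1}
  let κ' := {i : Fin n // i ∈ T ∧ ¬ 3 * D.2 i = D.1 ∧ D.2 i ≠ 0}
  let ι := {i : Fin n // i ∉ T ∧ D.2 i ≠ 0}
  let emb : κ ⊕ (κ' ⊕ ι) → Fin n :=
    Sum.elim (fun j => j.1) (Sum.elim (fun j => j.1) fun j => j.1)
  have hemb : Function.Injective emb := by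
    rintro (⟨a, ha⟩ | ⟨a, ha⟩ | ⟨a, ha⟩) (⟨b, hb⟩ | ⟨b, hb⟩ | ⟨b, hb⟩) h <;>
      simp only [emb, Sum.elim_inl, Sum.elim_inr] at h <;> subst h
    · rfl
    · exact absurd ha.2 hb.2.1
    · exact absurd ha.1 hb.1
    · exact absurd hb.2 ha.2.1
    · rfl
    · exact absurd ha.1 hb.1
    · exact absurd hb.1 ha.1
    · exact absurd hb.1 ha.1
    · rfl
  have hfun : (fun i => D.2 (emb i)) =
      Sum.elim (fun _ : κ => a) (Sum.elim (fun _ : κ' => x) (fun j : ι => D.2 j.1)) := by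
    funext i
    rcases i with ⟨i, hi⟩ | ⟨i, hi⟩ | i
    · show D.2 i = a
      rw [ha]
      linarith [hi.2]
    · show D.2 i = x
      have h3 : D.2 i = u := (hDT i hi.1).resolve_right hi.2.1
      rw [hx, if_neg (by rw [← h3]; exact hi.2.2), h3]
    · rfl
  have h0 : ∀ j, j ∉ Set.range emb → D.2 j = 0 := by
    intro j hj
    by_contra h
    apply hj
    by_cases h2 : j ∈ T
    · by_cases h3 : 3 * D.2 j = D.1
      · exact ⟨Sum.inl ⟨j, h2, h3⟩, rfl⟩
      · exact ⟨Sum.inr (Sum.inl ⟨j, h2, h3, h⟩), rfl⟩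
    · exact ⟨Sum.inr (Sum.inr ⟨j, h2, h⟩), rfl⟩
  have hs : ∑ i, D.2 (emb i) ^ 2 = D.1 ^ 2 := by
    rw [← hDD]
    exact Fintype.sum_of_injective emb hemb _ _ (fun j hj => by rw [h0 j hj]; norm_num)
      fun i => rfl
  have hsw : ∑ i, D.2 (emb i) * (w (emb i) : ℝ) = ∑ j, D.2 j * (w j : ℝ) :=
    Fintype.sum_of_injective emb hemb _ _ (fun j hj => by rw [h0 j hj, zero_mul]) fun i => rfl
  rw [← hsw]
  refine hP _ emb hemb (fun i => D.2 (emb i)) D.1 ?_ G d w hG
  -- sums over `T`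
  have hsT : ∀ g : ℝ → ℝ, g 0 = 0 → ∑ i ∈ T, g (D.2 i) =
      Fintype.card κ * g a + Fintype.card κ' * g x := by
    intro g hg
    let emb' : κ ⊕ κ' → Fin n := Sum.elim (fun j => j.1) (fun j => j.1)
    have hemb' : Function.Injective emb' := by
      rintro (⟨a, ha⟩ | ⟨a, ha⟩) (⟨b, hb⟩ | ⟨b, hb⟩) h <;>
        simp only [emb', Sum.elim_inl, Sum.elim_inr] at h <;> subst h
      · rfl
      · exact absurd ha.2 hb.2.1
      · exact absurd hb.2 ha.2.1
      · rfl
    have hT' : ∀ i, emb' i ∈ T := by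
      rintro (i | i)
      · exact i.2.1
      · exact i.2.1
    have h5 : ∑ i, g (D.2 (emb' i)) = ∑ j, (if j ∈ T then g (D.2 j) else 0) := by
      refine Fintype.sum_of_injective emb' hemb' _ _ (fun j hj => ?_) fun i => ?_
      · by_cases h2 : j ∈ T
        · rw [if_pos h2]
          by_cases h4 : D.2 j = 0
          · rw [h4, hg]
          · exfalso
            apply hj
            by_cases h3 : 3 * D.2 j = D.1
            · exact ⟨Sum.inl ⟨j, h2, h3⟩, rfl⟩
            · exact ⟨Sum.inr ⟨j, h2, h3, h4⟩, rfl⟩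
        · rw [if_neg h2]
      · rw [if_pos (hT' i)]
    rw [Finset.sum_ite_mem, Finset.univ_inter] at h5
    rw [← h5, Fintype.sum_sum_type]
    have e1 : ∀ i : κ, D.2 (emb' (Sum.inl i)) = a := fun i => congrFun hfun (Sum.inl i)
    have e2 : ∀ i : κ', D.2 (emb' (Sum.inr i)) = x := fun i => congrFun hfun (Sum.inr (Sum.inl i))
    simp only [e1, e2, Finset.sum_const, Finset.card_univ, nsmul_eq_mul]
  have hlin := hsT (fun t => t) rfl
  have hsq := hsT (fun t => t ^ 2) (by norm_num)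
  have h4 : ∑ i, D.2 (emb i) ^ 2 = Fintype.card κ * a ^ 2 +
      (Fintype.card κ' * x ^ 2 + ∑ i : ι, D.2 i.1 ^ 2) := by
    have h5 : ∀ i, D.2 (emb i) = Sum.elim (fun _ : κ => a)
      (Sum.elim (fun _ : κ' => x) (fun j : ι => D.2 j.1)) i := fun i => congrFun hfun i
    simp only [h5, Fintype.sum_sum_type, Sum.elim_inl, Sum.elim_inr, Finset.sum_const,
      Finset.card_univ, nsmul_eq_mul]
  have hD1 : D.1 = 3 * a := by rw [ha]; ring
  have hD2 : D.1 ^ 2 = 9 * a ^ 2 := by rw [hD1]; ring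
  have h4' := h4.symm.trans (hs.trans hD2)
  have h5' : Fintype.card κ * a + Fintype.card κ' * x ≤ 9 * a := by
    rw [← hlin]
    linarith
  have h6' : 9 * (Fintype.card κ * a ^ 2 + Fintype.card κ' * x ^ 2) ≤ 72 * a ^ 2 := by
    rw [← hsq]
    linarith
  rw [hfun, ← ha]
  refine plane8 ha0 hx0 hxa h5' (fun j => ?_) ?_ (by linarith) h4'
  · exact lt_of_le_of_ne (hD0 j.1 j.2.1) (Ne.symm j.2.2)
  · have hcount : ∀ j : ι, (Finset.univ.filter fun i => i ∉ T ∧ D.2 i = D.2 j.1).card =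
        ((Finset.univ.filter fun i => i ∉ T ∧ D.2 i = D.2 j.1).subtype
          (fun j => j ∉ T ∧ D.2 j ≠ 0)).card := by
      intro j
      rw [Finset.card_subtype, Finset.filter_filter]
      congr 1
      ext i
      rw [Finset.mem_filter, Finset.mem_filter]
      exact ⟨fun h => ⟨h.1, h.2, h.2.1, by rw [h.2.2]; exact j.2.2⟩, fun h => ⟨h.1, h.2.1⟩⟩
    by_cases h36 : ∃ j : ι, 36 ≤ (Finset.univ.filter fun i => i ∉ T ∧ D.2 i = D.2 j.1).card ∧
        ∀ i ∉ T, D.2 i = 0 ∨ D.2 i = D.2 j.1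
    · obtain ⟨j, hj1, hj2⟩ := h36
      right
      refine ⟨?_, ?_⟩
      · rw [hcount] at hj1
        exact hj1.trans (Finset.card_le_univ _)
      · have h6 : ∀ i : ι, D.2 i.1 = D.2 j.1 := fun i => (hj2 i.1 i.2.1).resolve_left i.2.2
        intro i i'
        show D.2 i.1 = D.2 i'.1
        rw [h6 i, h6 i']
    · left
      intro j
      rcases hoft j.1 j.2.1 j.2.2 with h6 | h6
      · rw [hcount] at h6
        refine ⟨_, h6, fun i hi => ?_⟩
        exact (Finset.mem_filter.1 (Finset.mem_subtype.1 hi)).2.2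
      · exact absurd ⟨j, h6⟩ h36

/-- the classes of nonnegative self-intersection -/
theorem nef_ge {n : ℕ} {P : Fin n → Fin 2 → ℂ} (hP : Fills P) {D : ℝ × (Fin n → ℝ)}
    {T : Finset (Fin n)} {u : ℝ} (hn : T.card + 36 ≤ n) (h1 : 0 ≤ D.1) (hDD : 0 ≤ dot D D)
    (hu0 : 0 ≤ u) (hu : 3 * u ≤ D.1) (hDT : ∀ i ∈ T, D.2 i = u ∨ 3 * D.2 i = D.1)
    (hs1 : ∑ i ∈ T, D.2 i ≤ 3 * D.1) (hs2 : 9 * ∑ i ∈ T, D.2 i ^ 2 ≤ 8 * D.1 ^ 2)
    (hD0 : ∀ i ∉ T, 0 ≤ D.2 i) (hoft : Often D.2 T) :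
    ∀ x ∈ curvCone P, 0 ≤ dot D x := by
  classical
  have hnn : ∀ j, 0 ≤ D.2 j := by
    intro j
    by_cases hj : j ∈ T
    · rcases hDT j hj with h | h <;> linarith
    · exact hD0 j hj
  have hDD' : ∑ j, D.2 j ^ 2 ≤ D.1 ^ 2 := by
    unfold dot at hDD
    simp only [← sq] at hDD
    linarith
  rcases h1.eq_or_lt with h | hpos
  · have hz : ∀ j, D.2 j = 0 := by
      intro j
      have h2 : D.2 j ^ 2 ≤ ∑ j, D.2 j ^ 2 :=
        Finset.single_le_sum (f := fun j => D.2 j ^ 2) (fun i _ => sq_nonneg _)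
          (Finset.mem_univ j)
      rw [← h] at hDD'
      have h3 : D.2 j ^ 2 = 0 := le_antisymm (by linarith) (sq_nonneg _)
      exact pow_eq_zero_iff (two_ne_zero) |>.1 h3
    intro x _
    unfold dot
    rw [← h, zero_mul]
    simp [hz]
  obtain ⟨R, hR⟩ : ∃ R, R = D.1 ^ 2 - ∑ j ∈ T, D.2 j ^ 2 := ⟨_, rfl⟩
  have hR0 : 0 < R := by
    rw [hR]
    nlinarith
  have hsplit : ∑ j ∈ T, D.2 j ^ 2 + ∑ j ∈ Tᶜ, D.2 j ^ 2 = ∑ j, D.2 j ^ 2 :=
    Finset.sum_add_sum_compl T _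
  obtain ⟨z, hz0, hzoft, lam, hlam0, hlam, hle⟩ : ∃ z : Fin n → ℝ, (∀ j ∉ T, 0 ≤ z j) ∧
      Often z T ∧ ∃ lam : ℝ, 0 ≤ lam ∧ lam ^ 2 * ∑ j ∈ Tᶜ, z j ^ 2 = R ∧ ∀ j ∉ T, D.2 j ≤ lam * z j := by
    by_cases hS : ∑ j ∈ Tᶜ, D.2 j ^ 2 = 0
    · have hc : Tᶜ.card + T.card = n := by
        rw [Finset.card_compl_add_card, Fintype.card_fin]
      have hc0 : (0 : ℝ) < (Tᶜ.card : ℝ) := by
        have : 0 < Tᶜ.card := by omega
        exact_mod_cast this
      refine ⟨fun _ => 1, fun _ _ => zero_le_one, fun j hj _ => ?_, √(R / Tᶜ.card),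
        Real.sqrt_nonneg _, ?_, fun j hj => ?_⟩
      · right
        refine ⟨?_, fun _ _ => Or.inr rfl⟩
        have h2 : (Finset.univ.filter fun i : Fin n => i ∉ T ∧ (1 : ℝ) = 1) = Tᶜ := by
          ext i
          simp
        rw [h2]
        omega
      · rw [Real.sq_sqrt (by positivity)]
        simp only [one_pow, Finset.sum_const, nsmul_eq_mul, mul_one]
        field_simp
      · have h2 := (Finset.sum_eq_zero_iff_of_nonneg fun i _ => sq_nonneg (D.2 i)).1 hS j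
          (Finset.mem_compl.2 hj)
        rw [pow_eq_zero_iff (two_ne_zero)] at h2
        rw [h2]
        positivity
    · have hS0 : 0 < ∑ j ∈ Tᶜ, D.2 j ^ 2 :=
        lt_of_le_of_ne (Finset.sum_nonneg fun i _ => sq_nonneg _) (Ne.symm hS)
      obtain ⟨S, hSdef⟩ : ∃ S, S = ∑ j ∈ Tᶜ, D.2 j ^ 2 := ⟨_, rfl⟩
      rw [← hSdef] at hS0 hsplit
      refine ⟨D.2, hD0, hoft, √(R / S), Real.sqrt_nonneg _, ?_, fun j hj => ?_⟩
      · rw [← hSdef, Real.sq_sqrt (by positivity)]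
        field_simp
      · have h2 : 1 ≤ √(R / S) := by
          apply Real.le_sqrt_of_sq_le
          rw [one_pow, le_div_iff₀ hS0]
          linarith
        have := hnn j
        nlinarith
  obtain ⟨D', hD'⟩ : ∃ D' : ℝ × (Fin n → ℝ),
      D' = (D.1, fun j => if j ∈ T then D.2 j else lam * z j) := ⟨_, rfl⟩
  have hD'1 : D'.1 = D.1 := by rw [hD']
  have hD'T : ∀ j ∈ T, D'.2 j = D.2 j := fun j hj => by
    rw [hD']
    simp only [if_pos hj]
  have hD'0 : ∀ j ∉ T, D'.2 j = lam * z j := fun j hj => by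
    rw [hD']
    simp only [if_neg hj]
  refine nef_anti (D' := D') hD'1.symm hnn (fun j => ?_) fun G d w hG => ?_
  · by_cases hj : j ∈ T
    · rw [hD'T j hj]
    · rw [hD'0 j hj]
      exact hle j hj
  · have hsame : ∀ g : ℝ → ℝ, ∑ i ∈ T, g (D'.2 i) = ∑ i ∈ T, g (D.2 i) := fun g =>
      Finset.sum_congr rfl fun i hi => by rw [hD'T i hi]
    refine curve_eq hP (T := T) (u := u) (by rw [hD'1]; exact hpos) ?_ hu0
      (by rw [hD'1]; exact hu) (fun i hi => by rw [hD'T i hi, hD'1]; exact hDT i hi)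
      (by rw [hsame fun t => t, hD'1]; exact hs1) (by rw [hsame fun t => t ^ 2, hD'1]; exact hs2)
      (fun i hi => by rw [hD'0 i hi]; exact mul_nonneg hlam0 (hz0 i hi)) (fun j hj hj0 => ?_) hG
    · rw [← Finset.sum_add_sum_compl T, Finset.sum_congr rfl fun j hj => by rw [hD'T j hj],
        Finset.sum_congr (rfl : Tᶜ = Tᶜ) fun j hj => by
          rw [hD'0 j (Finset.mem_compl.1 hj), mul_pow], ← Finset.mul_sum, hlam, hR, hD'1]
      ring
    · rw [hD'0 j hj] at hj0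
      have hzj : z j ≠ 0 := fun h => hj0 (by rw [h, mul_zero])
      have hle2 : (Finset.univ.filter fun i => i ∉ T ∧ z i = z j).card ≤
          (Finset.univ.filter fun i => i ∉ T ∧ D'.2 i = D'.2 j).card := by
        refine Finset.card_le_card fun i hi => ?_
        rw [Finset.mem_filter] at hi ⊢
        exact ⟨hi.1, hi.2.1, by rw [hD'0 i hi.2.1, hD'0 j hj, hi.2.2]⟩
      rcases hzoft j hj hzj with h6 | ⟨h6, h7⟩
      · exact Or.inl (h6.trans hle2)
      · refine Or.inr ⟨h6.trans hle2, fun i hi => ?_⟩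
        rw [hD'0 i hi, hD'0 j hj]
        rcases h7 i hi with h8 | h8
        · left
          rw [h8, mul_zero]
        · right
          rw [h8]

/-- at most eight points in `T` -/
theorem nef_ge8 {n : ℕ} {P : Fin n → Fin 2 → ℂ} (hP : Fills P) {D : ℝ × (Fin n → ℝ)}
    {T : Finset (Fin n)} {u : ℝ} (hn : T.card + 36 ≤ n) (hT : T.card ≤ 8) (h1 : 0 ≤ D.1)
    (hDD : 0 ≤ dot D D)
    (hu0 : 0 ≤ u) (hu : 3 * u ≤ D.1) (hDT : ∀ i ∈ T, D.2 i = u ∨ 3 * D.2 i = D.1)
    (hD0 : ∀ i ∉ T, 0 ≤ D.2 i) (hoft : Often D.2 T) :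
    ∀ x ∈ curvCone P, 0 ≤ dot D x := by
  have hT' : (T.card : ℝ) ≤ 8 := by exact_mod_cast hT
  refine nef_ge hP hn h1 hDD hu0 hu hDT ?_ ?_ hD0 hoft
  · have h2 : ∀ j ∈ T, D.2 j ≤ D.1 / 3 := by
      intro j hj
      rcases hDT j hj with h | h <;> linarith
    have h3 := Finset.sum_le_card_nsmul T _ _ h2
    rw [nsmul_eq_mul] at h3
    nlinarith
  · have h2 : ∀ j ∈ T, D.2 j ^ 2 ≤ (D.1 / 3) ^ 2 := by
      intro j hj
      refine pow_le_pow_left₀ ?_ ?_ 2
      · rcases hDT j hj with h | h <;> linarith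
      · rcases hDT j hj with h | h <;> linarith
    have h3 := Finset.sum_le_card_nsmul T _ _ h2
    rw [nsmul_eq_mul] at h3
    have h4 : (T.card : ℝ) * (D.1 / 3) ^ 2 ≤ 8 * (D.1 / 3) ^ 2 :=
      mul_le_mul_of_nonneg_right hT' (sq_nonneg _)
    nlinarith

/-! ### Quadratic transformations -/

/-- the class with the coefficients `p.2` at the points `e j` and `y` at the other points -/
noncomputable def lift {n k : ℕ} (e : Fin k → Fin n) (y : Fin n → ℝ) (p : ℝ × (Fin k → ℝ)) :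
    ℝ × (Fin n → ℝ) := (p.1, Function.extend e p.2 y)

theorem refl_lift {n k : ℕ} {e : Fin k → Fin n} (he : Function.Injective e) (y : Fin n → ℝ)
    (i : Fin 3 → Fin k) (p : ℝ × (Fin k → ℝ)) :
    refl (e ∘ i) (lift e y p) = lift e y (refl i p) := by
  have h : ∀ j, (lift e y p).2 (e j) = p.2 j := fun j => he.extend_apply _ _ _
  have hd : del (e ∘ i) (lift e y p) = del i p := by
    unfold del
    simp only [Function.comp, h]
    rfl
  refine Prod.ext ?_ ?_
  · rw [refl_fst, hd]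
    rfl
  · funext l
    rw [refl_snd, hd]
    by_cases hl : ∃ j, e j = l
    · obtain ⟨j, rfl⟩ := hl
      rw [h]
      show _ = Function.extend e (refl i p).2 y (e j)
      rw [he.extend_apply, refl_snd]
      congr 2
      unfold ind
      simp only [Function.comp, he.eq_iff]
    · show Function.extend e p.2 y l + _ = Function.extend e (refl i p).2 y l
      rw [Function.extend_apply' _ _ _ hl, Function.extend_apply' _ _ _ hl]
      have h0 : ind (e ∘ i) l = 0 := by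
        unfold ind
        rw [if_neg]
        rintro (h | h | h) <;> exact hl ⟨_, h.symm⟩
      rw [h0]
      ring

theorem carries_lift {n k : ℕ} {e : Fin k → Fin n} (he : Function.Injective e) (y : Fin n → ℝ)
    {p q : ℝ × (Fin k → ℝ)} (h : Carries p q) : Carries (lift e y p) (lift e y q) := by
  unfold Carries at h
  induction h with
  | refl => exact Relation.ReflTransGen.refl
  | @tail b c _ h2 ih =>
    obtain ⟨i, hi, rfl⟩ := h2
    exact ih.tail ⟨e ∘ i, he.comp hi, (refl_lift he y i b).symm⟩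

theorem carries_symm {n : ℕ} {a b : ℝ × (Fin n → ℝ)} (h : Carries a b) : Carries b a := by
  unfold Carries at h
  induction h with
  | refl => exact Relation.ReflTransGen.refl
  | @tail b c _ h2 ih =>
    obtain ⟨i, hi, rfl⟩ := h2
    exact Relation.ReflTransGen.head ⟨i, hi, (refl_refl i b).symm⟩ ih

theorem carries_dot {n : ℕ} {a b : ℝ × (Fin n → ℝ)} (h : Carries a b) : dot b b = dot a a := by
  unfold Carries at h
  induction h with
  | refl => rfl
  | @tail b c _ h2 ih =>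
    obtain ⟨i, hi, rfl⟩ := h2
    rw [dot_refl hi, ih]

/-- nonnegative on the `(-1)`-curves -/
def MinusOneNonneg {n : ℕ} (P : Fin n → Fin 2 → ℂ) (D : ℝ × (Fin n → ℝ)) : Prop :=
  ∀ x ∈ curveClasses P, dot x x = -1 → kap x = -1 → 0 ≤ dot D x

theorem MinusOneNonneg.carries {n : ℕ} {P : Fin n → Fin 2 → ℂ}
    (hP : AlgebraicIndependent ℚ (fun ij : Fin n × Fin 2 => P ij.1 ij.2))
    {a b : ℝ × (Fin n → ℝ)} (h : Carries a b) (ha : MinusOneNonneg P a) :
    MinusOneNonneg P b := by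
  unfold Carries at h
  induction h with
  | refl => exact ha
  | @tail b c _ h2 ih =>
    obtain ⟨i, hi, rfl⟩ := h2
    intro x hx h1 h3
    have h4 := ih _ (gen_refl hP hi hx) (by rw [dot_refl hi]; exact h1)
      (by rw [kap_refl hi]; exact h3)
    rwa [← dot_refl hi, refl_refl] at h4

theorem MinusOneNonneg.nonneg {n : ℕ} {P : Fin n → Fin 2 → ℂ} {D : ℝ × (Fin n → ℝ)}
    (h : MinusOneNonneg P D) (j : Fin n) : 0 ≤ D.2 j := by
  have hd : ∀ a : ℝ × (Fin n → ℝ), dot a ((0 : ℝ), (Pi.single j (-1 : ℝ) : Fin n → ℝ)) =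
      a.2 j := by
    intro a
    unfold dot
    simp only [mul_zero, zero_sub]
    rw [Finset.sum_eq_single j]
    · rw [Pi.single_eq_same]
      ring
    · intro l _ hl
      rw [Pi.single_eq_of_ne hl, mul_zero]
    · intro h
      exact absurd (Finset.mem_univ j) h
  have h1 := h _ (Or.inr ⟨j, rfl⟩) (by rw [hd]; simp) (by
    unfold kap
    simp)
  rwa [hd] at h1

theorem slice_aux {n k : ℕ} {P : Fin n → Fin 2 → ℂ}
    (hP : AlgebraicIndependent ℚ (fun ij : Fin n × Fin 2 => P ij.1 ij.2)) (hF : Fills P)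
    {D : ℝ × (Fin n → ℝ)} {T : Finset (Fin n)} {u : ℝ} (hn : T.card + 36 ≤ n)
    (hk : T.card ≤ 8) (hDD : 0 ≤ dot D D)
    (hoft : Often D.2 T) (hneg : MinusOneNonneg P D) {e : Fin k → Fin n} (he : Function.Injective e)
    (heT : ∀ l, l ∈ T ↔ ∃ j, e j = l) (hDT : ∀ i ∈ T, D.2 i = u) {q : ℝ × (Fin k → ℝ)}
    (hc : Carries (D.1, fun _ => u) q) (j₀ : Fin k)
    (hq : (∀ j, 0 ≤ q.2 j) → 3 * q.2 j₀ ≤ q.1 ∧ ∀ j, q.2 j = q.2 j₀ ∨ 3 * q.2 j = q.1) :
    ∀ x ∈ curvCone P, 0 ≤ dot D x := by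
  have hD : D = lift e D.2 (D.1, fun _ => u) := by
    refine Prod.ext rfl ?_
    funext l
    show D.2 l = Function.extend e (fun _ => u) D.2 l
    by_cases hl : ∃ j, e j = l
    · obtain ⟨j, rfl⟩ := hl
      rw [he.extend_apply]
      exact hDT _ ((heT _).2 ⟨j, rfl⟩)
    · rw [Function.extend_apply' _ _ _ hl]
  obtain ⟨D', hD'⟩ : ∃ D', D' = lift e D.2 q := ⟨_, rfl⟩
  have hcar : Carries D D' := by
    rw [hD']
    conv_lhs => rw [hD]
    exact carries_lift he _ hc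
  have hneg' := hneg.carries hP hcar
  have hD'e : ∀ j, D'.2 (e j) = q.2 j := fun j => by
    rw [hD']
    exact he.extend_apply _ _ _
  have hD'1 : D'.1 = q.1 := by rw [hD']; rfl
  have hD'0 : ∀ j ∉ T, D'.2 j = D.2 j := fun j hj => by
    rw [hD']
    exact Function.extend_apply' _ _ _ fun h => hj ((heT j).2 h)
  have hq0 : ∀ j, 0 ≤ q.2 j := fun j => by
    rw [← hD'e]
    exact hneg'.nonneg _
  obtain ⟨h1, h2⟩ := hq hq0
  have hnef : ∀ x ∈ curvCone P, 0 ≤ dot D' x := by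
    refine nef_ge8 hF (T := T) (u := q.2 j₀) hn hk ?_ ?_ (hq0 _) ?_ ?_ ?_ ?_
    · rw [hD'1]
      have := hq0 j₀
      linarith
    · rw [carries_dot hcar]
      exact hDD
    · rw [hD'1]
      exact h1
    · intro i hi
      obtain ⟨j, rfl⟩ := (heT i).1 hi
      rw [hD'e, hD'1]
      exact h2 j
    · intro i _
      exact hneg'.nonneg _
    · intro j hj hj0
      rw [hD'0 j hj] at hj0
      have hle2 : (Finset.univ.filter fun i => i ∉ T ∧ D.2 i = D.2 j).card ≤
          (Finset.univ.filter fun i => i ∉ T ∧ D'.2 i = D'.2 j).card := by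
        refine Finset.card_le_card fun i hi => ?_
        rw [Finset.mem_filter] at hi ⊢
        exact ⟨hi.1, hi.2.1, by rw [hD'0 i hi.2.1, hD'0 j hj, hi.2.2]⟩
      rcases hoft j hj hj0 with h6 | ⟨h6, h7⟩
      · exact Or.inl (h6.trans hle2)
      · refine Or.inr ⟨h6.trans hle2, fun i hi => ?_⟩
        rw [hD'0 i hi, hD'0 j hj]
        exact h7 i hi
  exact (nef_carries hP (carries_symm hcar) hnef).1

/-- the symmetric slices -/
theorem slice {n : ℕ} {P : Fin n → Fin 2 → ℂ}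
    (hP : AlgebraicIndependent ℚ (fun ij : Fin n × Fin 2 => P ij.1 ij.2)) (hF : Fills P)
    {D : ℝ × (Fin n → ℝ)} {T : Finset (Fin n)} {u : ℝ} (hn : T.card + 36 ≤ n)
    (hT : T.card ∈ ({0, 3, 5, 6, 7, 8} : Finset ℕ)) (h1 : 0 ≤ D.1) (hDD : 0 ≤ dot D D)
    (hDT : ∀ i ∈ T, D.2 i = u)
    (hoft : Often D.2 T) (hneg : MinusOneNonneg P D) : ∀ x ∈ curvCone P, 0 ≤ dot D x := by
  classical
  have hk8 : T.card ≤ 8 := by
    simp only [Finset.mem_insert, Finset.mem_singleton] at hT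
    omega
  rcases T.eq_empty_or_nonempty with hTe | ⟨t, ht⟩
  · exact nef_ge8 hF (T := T) (u := 0) hn hk8 h1 hDD le_rfl (by linarith)
      (fun i hi => by rw [hTe] at hi; exact absurd hi (Finset.notMem_empty i))
      (fun i _ => hneg.nonneg i) hoft
  have hu0 : 0 ≤ u := by
    rw [← hDT t ht]
    exact hneg.nonneg t
  rcases le_or_gt (3 * u) D.1 with hu | hu
  · exact nef_ge8 hF (T := T) (u := u) hn hk8 h1 hDD hu0 hu (fun i hi => Or.inl (hDT i hi))
      (fun i _ => hneg.nonneg i) hoft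
  have henum : ∀ k, T.card = k → ∃ e : Fin k → Fin n, Function.Injective e ∧
      ∀ l, l ∈ T ↔ ∃ j, e j = l := by
    rintro k rfl
    refine ⟨fun j => (T.equivFin.symm j : Fin n),
      Subtype.val_injective.comp T.equivFin.symm.injective, fun l => ⟨fun hl => ?_, ?_⟩⟩
    · exact ⟨T.equivFin ⟨l, hl⟩, by simp⟩
    · rintro ⟨j, rfl⟩
      exact (T.equivFin.symm j).2
  simp only [Finset.mem_insert, Finset.mem_singleton] at hT
  rcases hT with hT | hT | hT | hT | hT | hT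
  · rw [Finset.card_eq_zero] at hT
    rw [hT] at ht
    exact absurd ht (Finset.notMem_empty t)
  · obtain ⟨e, he, heT⟩ := henum 3 hT
    refine slice_aux hP hF hn hk8 hDD hoft hneg he heT hDT (chain3 D.1 u) 0 fun _ => ⟨?_, ?_⟩
    · simp
      linarith
    · intro j
      left
      fin_cases j <;> simp
  · obtain ⟨e, he, heT⟩ := henum 5 hT
    refine slice_aux hP hF hn hk8 hDD hoft hneg he heT hDT (chain5 D.1 u) 0 fun _ => ⟨?_, ?_⟩
    · simp
      linarith
    · intro j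
      fin_cases j
      · left
        rfl
      all_goals
        right
        simp
        ring
  · obtain ⟨e, he, heT⟩ := henum 6 hT
    refine slice_aux hP hF hn hk8 hDD hoft hneg he heT hDT (chain6 D.1 u) 0 fun _ => ⟨?_, ?_⟩
    · simp
      linarith
    · intro j
      left
      fin_cases j <;> simp
  · obtain ⟨e, he, heT⟩ := henum 7 hT
    refine slice_aux hP hF hn hk8 hDD hoft hneg he heT hDT (chain7 D.1 u) 0 fun _ => ⟨?_, ?_⟩
    · simp
      linarith
    · intro j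
      left
      fin_cases j <;> simp
  · obtain ⟨e, he, heT⟩ := henum 8 hT
    refine slice_aux hP hF hn hk8 hDD hoft hneg he heT hDT (chain8 D.1 u) 0 fun _ => ⟨?_, ?_⟩
    · simp
      linarith
    · intro j
      left
      fin_cases j <;> simp

end Pool.Agent.U656.NC
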