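import Pool.Agent.U656.NC.Blocks

/-! Systems of squares which fill all large triangles allowed by their area, and the rules for
adding a group of equal squares to such a system. -/

set_option autoImplicit false

namespace Pool.Agent.U656.NC

/-- a group of equal squares hosted by a system which fills two heights -/
theorem tube2 {A : ℝ} (hA0 : 0 < A) {w : ℝ} {g : ℕ} (hw : 0 < w)
    (h2 : 2 * w ≤ A) (hg : 1 ≤ g) {l : List ℝ} (hl : Al A l) (hr : Al (A / 2) l)
    (h3 : 3 * A ^ 2 ≤ 2 * ar l) : Al A (List.replicate g w ++ l) := by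
  have hA2 : 0 < A ^ 2 := by positivity
  have hg0 : (1 : ℝ) ≤ g := by exact_mod_cast hg
  obtain ⟨a, ha⟩ : ∃ a, a = (g : ℝ) * w ^ 2 := ⟨_, rfl⟩
  have ha0 : 0 < a := by rw [ha]; positivity
  have har : ar (List.replicate g w) = a := by rw [ar_replicate, ha]
  obtain ⟨k, hk⟩ : ∃ k, k = ar l := ⟨_, rfl⟩
  rcases le_or_gt (3 * A ^ 2) (2 * a) with hbig | hbig
  · exact Al.append hA0 (Al.block hg hw h2 (by rw [← ha]; exact hbig)) hl
  have h32 : 3 * A ^ 2 ≤ 2 * (ar (List.replicate g w) + ar l) := by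
    rw [har]
    linarith
  rw [← hk] at h3
  -- the row
  have hrow : (g : ℝ) * w * A ≤ 2 * (a + k) → Al A (List.replicate g w ++ l) := by
    intro h
    refine Al.host hA0 hw h2 (Al.row hw) hr h32 ?_
    rw [har, ← hk]
    have e : a * A = w * ((g : ℝ) * w * A) := by rw [ha]; ring
    rw [e]
    have := mul_le_mul_of_nonneg_left h hw.le
    linarith
  rcases le_or_gt ((g : ℝ) * w) (3 * A) with h4 | h4
  · apply hrow
    have := mul_le_mul_of_nonneg_right h4 hA0.le
    nlinarith
  rcases lt_or_ge A (4 * w) with h5 | h5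
  · apply hrow
    -- `g w < 6 A`
    have h6 : (g : ℝ) * w < 6 * A := by
      by_contra hcon
      push Not at hcon
      have h7 : 6 * A * w ≤ g * w * w := mul_le_mul_of_nonneg_right hcon hw.le
      have h8 : (g : ℝ) * w * w = a := by rw [ha]; ring
      nlinarith
    have h9 : (g : ℝ) * w * (A - 2 * w) ≤ 6 * A * (A / 2) := by
      refine mul_le_mul h6.le (by linarith) (by linarith) (by positivity)
    have h10 : (g : ℝ) * w * (2 * w) = 2 * a := by rw [ha]; ring
    nlinarith
  · -- a block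
    have hg12 : (12 : ℝ) < g := by
      by_contra hcon
      push Not at hcon
      have : (g : ℝ) * w ≤ 12 * w := mul_le_mul_of_nonneg_right hcon hw.le
      linarith
    rcases le_or_gt (8 * a) (3 * A ^ 2) with h6 | h6
    · obtain ⟨l', hl'⟩ : ∃ l', l' = √(2 / 3 * a) := ⟨_, rfl⟩
      have hl2 : l' ^ 2 = 2 / 3 * a := by rw [hl']; exact Real.sq_sqrt (by positivity)
      have hl0 : 0 < l' := by rw [hl']; exact Real.sqrt_pos.2 (by positivity)
      have hlA : 2 * l' ≤ A := by
        have : (2 * l') ^ 2 ≤ A ^ 2 := by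
          rw [mul_pow, hl2]
          linarith
        exact (pow_le_pow_iff_left₀ (by positivity) hA0.le (by norm_num)).1 this
      have hwl : 2 * w ≤ l' := by
        have h7 : (2 * w) ^ 2 ≤ l' ^ 2 := by
          rw [mul_pow, hl2, ha]
          have : 12 * w ^ 2 ≤ g * w ^ 2 := mul_le_mul_of_nonneg_right hg12.le (sq_nonneg w)
          linarith
        exact (pow_le_pow_iff_left₀ (by positivity) hl0.le (by norm_num)).1 h7
      refine Al.host hA0 hl0 hlA (Al.block hg hw hwl (by rw [hl2, ← ha]; linarith)) hr h32 ?_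
      rw [har, ← hk]
      have e : a * A = 3 / 2 * l' * (l' * A) := by
        have : a = 3 / 2 * l' ^ 2 := by rw [hl2]; ring
        rw [this]
        ring
      rw [e]
      have h8 : l' * A ≤ A ^ 2 := by nlinarith
      have h9 : 3 / 2 * l' * (l' * A) ≤ 3 / 2 * l' * A ^ 2 :=
        mul_le_mul_of_nonneg_left h8 (by positivity)
      have h10 : 3 / 2 * l' * A ^ 2 ≤ 2 * l' * (a + k) := by
        have : 3 * A ^ 2 ≤ 2 * k := h3
        nlinarith
      linarith
    · refine Al.host hA0 (l := A / 2) (by positivity) (by linarith)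
        (Al.block hg hw (by linarith) (by rw [← ha]; nlinarith)) hr h32 ?_
      rw [har, ← hk]
      have hk0 : 0 ≤ k := by rw [hk]; exact ar_nonneg _
      nlinarith

/-- the squares with the sides `l` fill all triangles of height at least `2 m` which are allowed by
their area -/
structure UnivAt (m : ℝ) (l : List ℝ) : Prop where
  pos : 0 < m
  area : 24 * m ^ 2 ≤ ar l
  al : ∀ h, 2 * m ≤ h → 3 * h ^ 2 ≤ 2 * ar l → Al h l

theorem UnivAt.perm {m : ℝ} {l l' : List ℝ} (hp : l.Perm l') (h : UnivAt m l) : UnivAt m l' :=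
  ⟨h.pos, by rw [← ar_perm hp]; exact h.area, fun t h1 h2 =>
    (h.al t h1 (by rw [ar_perm hp]; exact h2)).perm hp⟩

/-- the heights between `2 M` and `4 M` suffice -/
theorem UnivAt.of {M : ℝ} (hM : 0 < M) {l : List ℝ} (ha : 24 * M ^ 2 ≤ ar l)
    (h : ∀ t, 2 * M ≤ t → t ≤ 4 * M → Al t l) : UnivAt M l := by
  refine ⟨hM, ha, fun t h1 h2 => ?_⟩
  rcases le_or_gt t (4 * M) with h3 | h3
  · exact h t h1 h3
  · exact (h (2 * M) le_rfl (by linarith)).squeeze (by linarith) (by linarith) h2

theorem sq_le4 {M t : ℝ} (h1 : 0 ≤ t) (h : t ≤ 4 * M) : t ^ 2 ≤ 16 * M ^ 2 := by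
  have := pow_le_pow_left₀ h1 h 2
  linarith [mul_pow 4 M 2]

/-- equal squares -/
theorem UnivAt.block {v : ℝ} (hv : 0 < v) {n : ℕ} (hn : 24 ≤ n) :
    UnivAt v (List.replicate n v) := by
  have hn' : (24 : ℝ) ≤ n := by exact_mod_cast hn
  refine ⟨hv, ?_, fun h h1 h2 => ?_⟩
  · rw [ar_replicate]
    exact mul_le_mul_of_nonneg_right hn' (sq_nonneg v)
  · rw [ar_replicate] at h2
    exact Al.block (by omega) hv h1 h2

/-- any group of equal squares, hosted by a system of large area -/
theorem UnivAt.rare {m M w : ℝ} {l : List ℝ} (hl : UnivAt m l) (hw : 0 < w) (hwM : w ≤ M)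
    (hmM : 2 * m ≤ M) (ha : 24 * M ^ 2 ≤ ar l) {n : ℕ} (hn : 1 ≤ n) :
    UnivAt M (List.replicate n w ++ l) := by
  have hM : 0 < M := by linarith
  have hm := hl.pos
  refine UnivAt.of hM ?_ fun t h1 h2 => ?_
  · rw [ar_append]
    have := ar_nonneg (List.replicate n w)
    linarith
  · have h3 := sq_le4 (M := M) (t := t) (by linarith) h2
    have h0 : 0 ≤ t ^ 2 := sq_nonneg t
    exact tube2 (by linarith) hw (by linarith) hn (hl.al t (by linarith) (by linarith))
      (hl.al (t / 2) (by linarith) (by nlinarith)) (by linarith)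

/-- many equal squares and a system of large area -/
theorem UnivAt.freq {m M v : ℝ} {l : List ℝ} (hl : UnivAt m l) (hv : 0 < v) (hvM : v ≤ M)
    (hmM : m ≤ M) (ha : 24 * M ^ 2 ≤ ar l) {n : ℕ} (hn : 1 ≤ n)
    (hn' : 24 * M ^ 2 ≤ (n : ℝ) * v ^ 2) : UnivAt M (List.replicate n v ++ l) := by
  have hM : 0 < M := by linarith
  refine UnivAt.of hM ?_ fun t h1 h2 => ?_
  · rw [ar_append]
    have := ar_nonneg (List.replicate n v)
    linarith
  · have h3 := sq_le4 (M := M) (t := t) (by linarith) h2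
    exact Al.append (by linarith) (Al.block hn hv (by linarith) (by linarith))
      (hl.al t (by linarith) (by linarith))

/-- many equal squares and a system of any area -/
theorem UnivAt.tiny {m v : ℝ} {l : List ℝ} (hl : UnivAt m l) (hv : 0 < v)
    (hmv : m ≤ v) {n : ℕ} (hn : 96 ≤ n) : UnivAt (2 * v) (List.replicate n v ++ l) := by
  have hn' : (96 : ℝ) ≤ n := by exact_mod_cast hn
  have hm := hl.pos
  have hnv : 96 * v ^ 2 ≤ (n : ℝ) * v ^ 2 := mul_le_mul_of_nonneg_right hn' (sq_nonneg v)
  have har : ar (List.replicate n v) = n * v ^ 2 := ar_replicate n v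
  obtain ⟨a, hadef⟩ : ∃ a, a = ar l := ⟨_, rfl⟩
  have ha0 : 24 * m ^ 2 ≤ a := by rw [hadef]; exact hl.area
  have hm2 : 0 < m ^ 2 := by positivity
  have ha1 : 0 < a := by linarith
  refine UnivAt.of (by positivity) ?_ fun t h1 h2 => ?_
  · rw [ar_append, har, ← hadef]
    nlinarith
  · have ht0 : 0 < t := by linarith
    have h3 := sq_le4 (M := 2 * v) (t := t) (by linarith) h2
    have h3' : t ^ 2 ≤ 64 * v ^ 2 := by nlinarith
    have hb : ∀ s, 2 * v ≤ s → s ≤ t → Al s (List.replicate n v) := fun s hs hst =>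
      Al.block (by omega) hv hs (by
        have : s ^ 2 ≤ t ^ 2 := pow_le_pow_left₀ (by linarith) hst 2
        linarith)
    rcases le_or_gt (3 * t ^ 2) (2 * a) with h4 | h4
    · exact Al.append ht0 (hb t (by linarith) le_rfl) (hl.al t (by linarith)
        (by rw [← hadef]; exact h4))
    refine Al.perm List.perm_append_comm ?_
    have h32 : 3 * t ^ 2 ≤ 2 * (ar l + ar (List.replicate n v)) := by
      rw [har, ← hadef]
      linarith
    rcases le_or_gt (3 * (t / 2) ^ 2) (2 * a) with h5 | h5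
    · refine Al.host ht0 (l := t / 2) (by linarith) (by linarith)
        (hl.al (t / 2) (by linarith) (by rw [← hadef]; exact h5)) (hb (t / 2) (by linarith)
          (by linarith)) h32 ?_
      have := ar_nonneg (List.replicate n v)
      have h6 : 0 ≤ ar l := ar_nonneg l
      nlinarith
    · obtain ⟨l', hl'⟩ : ∃ l', l' = √(2 / 3 * a) := ⟨_, rfl⟩
      have hl2 : l' ^ 2 = 2 / 3 * a := by rw [hl']; exact Real.sq_sqrt (by positivity)
      have hl0 : 0 < l' := by rw [hl']; exact Real.sqrt_pos.2 (by positivity)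
      have hlt : 2 * l' ≤ t := by
        have : (2 * l') ^ 2 ≤ t ^ 2 := by
          rw [mul_pow, hl2]
          nlinarith
        exact (pow_le_pow_iff_left₀ (by positivity) ht0.le (by norm_num)).1 this
      have hml : 2 * m ≤ l' := by
        have : (2 * m) ^ 2 ≤ l' ^ 2 := by
          rw [mul_pow, hl2]
          linarith
        exact (pow_le_pow_iff_left₀ (by positivity) hl0.le (by norm_num)).1 this
      refine Al.host ht0 hl0 hlt (hl.al l' hml (by rw [← hadef, hl2]; linarith))
        (hb (t / 2) (by linarith) (by linarith)) h32 ?_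
      rw [har, ← hadef]
      rw [har, ← hadef] at h32
      have e : a * t = 3 / 2 * l' * (l' * t) := by
        have : a = 3 / 2 * l' ^ 2 := by rw [hl2]; ring
        rw [this]
        ring
      rw [e]
      have h8 : l' * t ≤ t ^ 2 := by nlinarith
      have h9 : 3 / 2 * l' * (l' * t) ≤ 3 / 2 * l' * t ^ 2 :=
        mul_le_mul_of_nonneg_left h8 (by positivity)
      have h10 : 3 / 2 * l' * t ^ 2 ≤ 2 * l' * (a + (n : ℝ) * v ^ 2) := by
        nlinarith
      linarith

/-- a value which occurs at least `96` times and whose squares have enough area -/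
theorem UnivAt.often {m v : ℝ} {l : List ℝ} (hl : UnivAt m l) (hv : 0 < v)
    {n : ℕ} (hn : 96 ≤ n) (hmv : 24 * m ^ 2 ≤ (n : ℝ) * v ^ 2) :
    ∃ M, (M ≤ m ∨ M ≤ 2 * v) ∧ UnivAt M (List.replicate n v ++ l) := by
  rcases le_or_gt v m with h | h
  · exact ⟨m, Or.inl le_rfl, hl.freq hv h le_rfl hl.area (by omega) hmv⟩
  · exact ⟨2 * v, Or.inr le_rfl, hl.tiny hv h.le hn⟩

end Pool.Agent.U656.NC
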